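import Mathlib

/-!
Wedderburn data for the complex group algebra of a finite group, characters, ranks.
-/

open Matrix Module

namespace Pool.Agent.Lib_helper3

/-- Wedderburn data for the group algebra `ℂ[G]`. -/
structure WD (G : Type) [Group G] where
  n : ℕ
  d : Fin n → ℕ
  dpos : ∀ i, 0 < d i
  e : MonoidAlgebra ℂ G ≃ₐ[ℂ] (Π i, Matrix (Fin (d i)) (Fin (d i)) ℂ)

theorem exists_WD (G : Type) [Group G] [Finite G] : Nonempty (WD G) := by
  obtain ⟨n, d, hd, ⟨e⟩⟩ :=
    IsSemisimpleRing.exists_algEquiv_pi_matrix_of_isAlgClosed ℂ (MonoidAlgebra ℂ G)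
  exact ⟨⟨n, d, fun i => Nat.pos_of_ne_zero (hd i).out, e⟩⟩

/-- Two-sided multiplication `x ↦ p * (x * q)`. -/
noncomputable def LR {A : Type*} [Ring A] [Algebra ℂ A] (p q : A) : A →ₗ[ℂ] A :=
  (LinearMap.mulLeft ℂ p).comp (LinearMap.mulRight ℂ q)

lemma LR_apply {A : Type*} [Ring A] [Algebra ℂ A] (p q x : A) : LR p q x = p * (x * q) := rfl

lemma trace_LR_pi {n : ℕ} {d : Fin n → ℕ} (P Q : Π i, Matrix (Fin (d i)) (Fin (d i)) ℂ) :
    LinearMap.trace ℂ _ (LR P Q) = ∑ i, (P i).trace * (Q i).trace := by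
  classical
  let b := Pi.basis (fun i => Matrix.stdBasis ℂ (Fin (d i)) (Fin (d i)))
  rw [LinearMap.trace_eq_matrix_trace ℂ b, Matrix.trace]
  simp only [Matrix.diag_apply, LinearMap.toMatrix_apply]
  rw [Fintype.sum_sigma]
  refine Finset.sum_congr rfl fun i _ => ?_
  rw [Fintype.sum_prod_type, Matrix.trace, Matrix.trace, Finset.sum_mul_sum]
  refine Finset.sum_congr rfl fun a _ => Finset.sum_congr rfl fun c _ => ?_
  simp only [b, Pi.basis_repr, Pi.basis_apply, LR_apply, Matrix.stdBasis_eq_single, Pi.mul_apply,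
    Pi.single_eq_same]
  have h : ∀ X : Matrix (Fin (d i)) (Fin (d i)) ℂ,
      (Matrix.stdBasis ℂ (Fin (d i)) (Fin (d i))).repr X (a, c) = X a c := by
    intro X
    simp [Matrix.stdBasis]
  rw [h, Matrix.mul_apply]
  simp only [Matrix.mul_apply, Matrix.single_apply]
  rw [Finset.sum_eq_single a, Finset.sum_eq_single c]
  · simp
  · intro k _ hk; simp [hk.symm]
  · simp
  · intro k _ hk
    rw [Finset.sum_eq_zero]
    · simp
    · intro l _; simp [hk.symm]
  · simp

namespace WD

variable {G : Type} [Group G] (W : WD G)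

/-- The trace in the `i`-th block; on group elements this is the `i`-th irreducible
character. -/
noncomputable def tr (i : Fin W.n) : MonoidAlgebra ℂ G →ₗ[ℂ] ℂ :=
  (Matrix.traceLinearMap (Fin (W.d i)) ℂ ℂ).comp ((LinearMap.proj i).comp W.e.toLinearMap)

lemma tr_apply (i : Fin W.n) (x : MonoidAlgebra ℂ G) : W.tr i x = (W.e x i).trace := rfl

lemma tr_mul_comm (i : Fin W.n) (x y : MonoidAlgebra ℂ G) : W.tr i (x * y) = W.tr i (y * x) := by
  rw [tr_apply, tr_apply, map_mul, map_mul, Pi.mul_apply, Pi.mul_apply, Matrix.trace_mul_comm]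

lemma tr_one (i : Fin W.n) : W.tr i 1 = W.d i := by
  rw [tr_apply, map_one, Pi.one_apply, Matrix.trace_one, Fintype.card_fin]

lemma trace_LR (p q : MonoidAlgebra ℂ G) :
    LinearMap.trace ℂ _ (LR p q) = ∑ i, W.tr i p * W.tr i q := by
  have h : W.e.toLinearEquiv.conj (LR p q) = LR (W.e p) (W.e q) := by
    refine LinearMap.ext fun x => ?_
    rw [LinearEquiv.conj_apply]
    change W.e (p * (W.e.symm x * q)) = W.e p * (x * W.e q)
    rw [map_mul, map_mul, AlgEquiv.apply_symm_apply]
  rw [← LinearMap.trace_conj' (LR p q) W.e.toLinearEquiv, h, trace_LR_pi]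
  rfl

end WD

/-- Group elements inside the group algebra. -/
noncomputable def o {G : Type} [Group G] (g : G) : MonoidAlgebra ℂ G := MonoidAlgebra.of ℂ G g

section
variable {G : Type} [Group G]

lemma o_mul (g h : G) : o (g * h) = o g * o h := map_mul _ _ _

lemma o_one : o (1 : G) = 1 := map_one _

lemma o_def (g : G) : o g = MonoidAlgebra.single g (1 : ℂ) := rfl

lemma trace_LR_of [Fintype G] [DecidableEq G] (g h : G) :
    LinearMap.trace ℂ (MonoidAlgebra ℂ G) (LR (o g) (o h))
      = ((Finset.univ.filter fun x : G => g * x * h = x).card : ℂ) := by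
  let b : Module.Basis G ℂ (MonoidAlgebra ℂ G) := MonoidAlgebra.basis G ℂ
  rw [LinearMap.trace_eq_matrix_trace ℂ b, Matrix.trace, Finset.card_filter, Nat.cast_sum]
  refine Finset.sum_congr rfl fun x _ => ?_
  rw [Matrix.diag_apply, LinearMap.toMatrix_apply]
  have h1 : LR (o g) (o h) (b x) = o (g * x * h) := by
    rw [LR_apply]
    change o g * (o x * o h) = _
    rw [← o_mul, ← o_mul, mul_assoc]
  rw [h1, o_def]
  change (MonoidAlgebra.single (g * x * h) (1 : ℂ)).coeff x = _
  rw [MonoidAlgebra.coeff_single, Finsupp.single_apply]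
  split_ifs <;> simp

omit [Group G] in
lemma finrank_groupAlgebra [Fintype G] : finrank ℂ (MonoidAlgebra ℂ G) = Fintype.card G :=
  Module.finrank_eq_card_basis (MonoidAlgebra.basis G ℂ)

instance [Finite G] : FiniteDimensional ℂ (MonoidAlgebra ℂ G) :=
  Module.Finite.of_basis (MonoidAlgebra.basis G ℂ)

/-- Any linear statement on the group algebra can be checked on group elements. -/
@[elab_as_elim]
lemma alg_induction {P : MonoidAlgebra ℂ G → Prop} (x : MonoidAlgebra ℂ G)
    (h1 : ∀ g, P (o g)) (hadd : ∀ x y, P x → P y → P (x + y))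
    (hsmul : ∀ (c : ℂ) x, P x → P (c • x)) : P x :=
  MonoidAlgebra.induction_on x h1 hadd hsmul

end

namespace WD

variable {G : Type} [Group G] (W : WD G)

lemma sum_tr_mul_tr [Fintype G] [DecidableEq G] (g h : G) :
    ∑ i, W.tr i (o g) * W.tr i (o h)
      = ((Finset.univ.filter fun x : G => g * x * h = x).card : ℂ) := by
  rw [← W.trace_LR, trace_LR_of]

/-- The rank in the `i`-th block. -/
noncomputable def rk (i : Fin W.n) (x : MonoidAlgebra ℂ G) : ℕ := (W.e x i).rank

end WD

lemma trace_of_idem {V : Type*} [AddCommGroup V] [Module ℂ V] [FiniteDimensional ℂ V]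
    (f : V →ₗ[ℂ] V) (hf : ∀ x, f (f x) = f x) :
    LinearMap.trace ℂ V f = (finrank ℂ (LinearMap.range f) : ℂ) := by
  have h : LinearMap.IsProj (LinearMap.range f) f :=
    (LinearMap.isProj_range_iff_isIdempotentElem f).2 (LinearMap.ext fun x => hf x)
  exact h.trace

lemma trace_eq_rank_of_idem {m : ℕ} (P : Matrix (Fin m) (Fin m) ℂ) (hP : P * P = P) :
    P.trace = (P.rank : ℂ) := by
  have h := trace_of_idem (Matrix.mulVecLin P) (fun x => by
    rw [Matrix.mulVecLin_apply, Matrix.mulVecLin_apply, Matrix.mulVec_mulVec, hP])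
  rw [← Matrix.toLin'_apply', Matrix.trace_toLin'_eq] at h
  rw [h, Matrix.toLin'_apply']
  rfl

namespace WD

variable {G : Type} [Group G] (W : WD G)

lemma tr_eq_rk (i : Fin W.n) {x : MonoidAlgebra ℂ G} (hx : x * x = x) :
    W.tr i x = (W.rk i x : ℂ) := by
  rw [tr_apply, rk]
  refine trace_eq_rank_of_idem _ ?_
  rw [← Pi.mul_apply, ← map_mul, hx]

/-- The dimension of `p A q` for idempotents `p`, `q`. -/
lemma finrank_LR [Finite G] {p q : MonoidAlgebra ℂ G} (hp : p * p = p) (hq : q * q = q) :
    finrank ℂ (LinearMap.range (LR p q)) = ∑ i, W.rk i p * W.rk i q := by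
  have h := trace_of_idem (LR p q) (fun x => by
    rw [LR_apply, LR_apply]
    have : p * (p * (x * q) * q) = (p * p) * (x * (q * q)) := by simp only [mul_assoc]
    rw [this, hp, hq])
  rw [W.trace_LR] at h
  have h2 : ((finrank ℂ (LinearMap.range (LR p q)) : ℕ) : ℂ)
      = ((∑ i, W.rk i p * W.rk i q : ℕ) : ℂ) := by
    rw [← h, Nat.cast_sum]
    refine Finset.sum_congr rfl fun i _ => ?_
    rw [W.tr_eq_rk i hp, W.tr_eq_rk i hq, Nat.cast_mul]
  exact_mod_cast h2

lemma sum_trace_LR_eq_card [Fintype G] {Λ : Type*} [Fintype Λ] (p : Λ → MonoidAlgebra ℂ G)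
    (hp : ∀ l, p l * p l = p l) (hsum : ∑ l, p l = 1) :
    ∑ l, ∑ m, finrank ℂ (LinearMap.range (LR (p l) (p m))) = Fintype.card G := by
  obtain ⟨W⟩ := exists_WD G
  have h1 : ∀ l m, ((finrank ℂ (LinearMap.range (LR (p l) (p m))) : ℕ) : ℂ)
      = ∑ i, W.tr i (p l) * W.tr i (p m) := by
    intro l m
    rw [W.finrank_LR (hp l) (hp m), Nat.cast_sum]
    refine Finset.sum_congr rfl fun i _ => ?_
    rw [W.tr_eq_rk i (hp l), W.tr_eq_rk i (hp m), Nat.cast_mul]
  have h2 : ((∑ l, ∑ m, finrank ℂ (LinearMap.range (LR (p l) (p m))) : ℕ) : ℂ)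
      = ((Fintype.card G : ℕ) : ℂ) := by
    rw [Nat.cast_sum]
    simp_rw [Nat.cast_sum, h1]
    calc ∑ l, ∑ m, ∑ i, W.tr i (p l) * W.tr i (p m)
        = ∑ i, (∑ l, W.tr i (p l)) * (∑ m, W.tr i (p m)) := by
          rw [Finset.sum_congr rfl fun l _ => Finset.sum_comm, Finset.sum_comm]
          refine Finset.sum_congr rfl fun i _ => ?_
          rw [Finset.sum_mul_sum]
      _ = ∑ i, W.tr i 1 * W.tr i 1 := by
          refine Finset.sum_congr rfl fun i _ => ?_
          rw [← map_sum, hsum]
      _ = LinearMap.trace ℂ (MonoidAlgebra ℂ G) (LR 1 1) := by rw [W.trace_LR]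
      _ = _ := by
          have : LR (1 : MonoidAlgebra ℂ G) 1 = LinearMap.id := by
            refine LinearMap.ext fun x => ?_
            rw [LR_apply, one_mul, mul_one]; rfl
          rw [this, LinearMap.trace_id, finrank_groupAlgebra]
  exact_mod_cast h2

/-- The irreducible representation attached to the `i`-th block. -/
noncomputable def rep (i : Fin W.n) : Representation ℂ G (Fin (W.d i) → ℂ) where
  toFun g := Matrix.toLin' (W.e (o g) i)
  map_one' := by
    rw [o_one, map_one, Pi.one_apply, Matrix.toLin'_one]; rfl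
  map_mul' g h := by
    rw [o_mul, map_mul, Pi.mul_apply, Matrix.toLin'_mul]; rfl

lemma rep_apply (i : Fin W.n) (g : G) : W.rep i g = Matrix.toLin' (W.e (o g) i) := rfl

lemma rep_character (i : Fin W.n) (g : G) : (W.rep i).character g = W.tr i (o g) := by
  rw [Representation.character, rep_apply, Matrix.trace_toLin'_eq, tr_apply]

/-- Every matrix of block `i` is the image of an element of the group algebra. -/
lemma exists_block (i : Fin W.n) (X : Matrix (Fin (W.d i)) (Fin (W.d i)) ℂ) :
    ∃ x : MonoidAlgebra ℂ G, W.e x = Pi.single i X :=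
  ⟨W.e.symm (Pi.single i X), W.e.apply_symm_apply _⟩

lemma mem_of_invariant (i : Fin W.n) (S : Submodule ℂ (Fin (W.d i) → ℂ))
    (hS : ∀ g : G, ∀ v ∈ S, W.rep i g v ∈ S) (x : MonoidAlgebra ℂ G) (v : Fin (W.d i) → ℂ)
    (hv : v ∈ S) : (W.e x i) *ᵥ v ∈ S := by
  induction x using alg_induction with
  | h1 g => exact hS g v hv
  | hadd x y hx hy =>
    rw [map_add, Pi.add_apply, Matrix.add_mulVec]
    exact S.add_mem hx hy
  | hsmul c x hx =>
    rw [map_smul, Pi.smul_apply, Matrix.smul_mulVec]
    exact S.smul_mem c hx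

instance rep_irreducible (i : Fin W.n) : (W.rep i).IsIrreducible := by
  have : Nonempty (Fin (W.d i)) := ⟨⟨0, W.dpos i⟩⟩
  have hnt : Nontrivial (Subrepresentation (W.rep i)) := by
    refine ⟨⊥, ⊤, fun h => ?_⟩
    have h2 : (⊥ : Submodule ℂ (Fin (W.d i) → ℂ)) = ⊤ :=
      congrArg Subrepresentation.toSubmodule h
    exact bot_ne_top h2
  refine { toNontrivial := hnt, eq_bot_or_eq_top := fun S => ?_ }
  by_cases hS : S.toSubmodule = ⊥
  · left
    exact Subrepresentation.toSubmodule_injective hS
  · right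
    apply Subrepresentation.toSubmodule_injective
    obtain ⟨v, hvS, hv0⟩ := Submodule.exists_mem_ne_zero_of_ne_bot hS
    obtain ⟨k, hk⟩ : ∃ k, v k ≠ 0 := Function.ne_iff.1 hv0
    change S.toSubmodule = ⊤
    rw [eq_top_iff]
    intro y _
    obtain ⟨x, hx⟩ := W.exists_block i (Matrix.of fun a c => if c = k then y a / v k else 0)
    have := W.mem_of_invariant i S.toSubmodule
      (fun g v hv => S.apply_mem_toSubmodule g hv) x v hvS
    rw [hx, Pi.single_eq_same] at this
    convert this using 1
    funext a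
    simp [Matrix.mulVec, dotProduct, hk]

section decomposition

variable {V : Type*} [AddCommGroup V] [Module ℂ V] [FiniteDimensional ℂ V]
  (σ : Representation ℂ G V)

/-- Multiplicity of the `i`-th irreducible representation in `σ`. -/
noncomputable def mult (i : Fin W.n) : ℕ := finrank ℂ ((W.rep i).IntertwiningMap σ)

lemma character_eq_sum [Finite G] (h : G) :
    σ.character h = ∑ i, (W.mult σ i : ℂ) * W.tr i (o h) := by
  classical
  have : Fintype G := Fintype.ofFinite G
  have hne : (Nat.card G : ℂ) ≠ 0 := by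
    rw [Nat.card_eq_fintype_card]; exact_mod_cast Fintype.card_ne_zero
  let _ : Invertible (Nat.card G : ℂ) := invertibleOfNonzero hne
  have h1 : ∀ i, (W.mult σ i : ℂ)
      = (Nat.card G : ℂ)⁻¹ * ∑ g : G, σ.character g * W.tr i (o g⁻¹) := by
    intro i
    rw [mult, ← Representation.card_inv_mul_sum_char_mul_char_eq_finrank]
    simp only [rep_character]
  simp_rw [h1]
  calc σ.character h
      = (Nat.card G : ℂ)⁻¹ * ∑ g : G, σ.character g *
          ((Finset.univ.filter fun x : G => g⁻¹ * x * h = x).card : ℂ) := by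
        have h2 : ∀ g : G, σ.character g *
            ((Finset.univ.filter fun x : G => g⁻¹ * x * h = x).card : ℂ)
            = ∑ x : G, if g = x * h * x⁻¹ then σ.character h else 0 := by
          intro g
          rw [Finset.card_filter, Nat.cast_sum, Finset.mul_sum]
          refine Finset.sum_congr rfl fun x _ => ?_
          have h3 : g⁻¹ * x * h = x ↔ g = x * h * x⁻¹ := by
            rw [mul_assoc, inv_mul_eq_iff_eq_mul, eq_mul_inv_iff_mul_eq, eq_comm]
          by_cases hg : g = x * h * x⁻¹
          · rw [if_pos (h3.2 hg), if_pos hg, Nat.cast_one, mul_one, hg,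
              Representation.char_conj]
          · rw [if_neg (fun h' => hg (h3.1 h')), if_neg hg, Nat.cast_zero, mul_zero]
        rw [Finset.sum_congr rfl fun g _ => h2 g, Finset.sum_comm]
        simp only [Finset.sum_ite_eq', Finset.mem_univ, if_true, Finset.sum_const,
          Finset.card_univ, nsmul_eq_mul]
        rw [Nat.card_eq_fintype_card, ← mul_assoc, inv_mul_cancel₀, one_mul]
        rw [← Nat.card_eq_fintype_card]; exact hne
    _ = (Nat.card G : ℂ)⁻¹ * ∑ g : G, σ.character g *
          ∑ i, W.tr i (o g⁻¹) * W.tr i (o h) := by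
        congr 1
        refine Finset.sum_congr rfl fun g _ => ?_
        rw [W.sum_tr_mul_tr]
    _ = _ := by
        simp_rw [Finset.mul_sum, Finset.sum_mul]
        rw [Finset.sum_comm]
        refine Finset.sum_congr rfl fun i _ => Finset.sum_congr rfl fun g _ => ?_
        ring

lemma trace_asAlgebraHom [Finite G] (x : MonoidAlgebra ℂ G) :
    LinearMap.trace ℂ V (σ.asAlgebraHom x) = ∑ i, (W.mult σ i : ℂ) * W.tr i x := by
  induction x using alg_induction with
  | h1 g =>
    rw [← W.character_eq_sum σ g]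
    rw [o, Representation.asAlgebraHom_of]; rfl
  | hadd x y hx hy =>
    rw [map_add, map_add, hx, hy, ← Finset.sum_add_distrib]
    exact Finset.sum_congr rfl fun i _ => by rw [map_add, mul_add]
  | hsmul c x hx =>
    rw [map_smul, map_smul, hx, Finset.smul_sum]
    exact Finset.sum_congr rfl fun i _ => by rw [map_smul, smul_eq_mul, smul_eq_mul]; ring

lemma finrank_eq_sum [Finite G] : finrank ℂ V = ∑ i, W.mult σ i * W.d i := by
  have h := W.trace_asAlgebraHom σ 1
  rw [map_one, LinearMap.trace_one] at h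
  simp_rw [tr_one] at h
  exact_mod_cast h

lemma exists_equiv_of_irreducible [Finite G] [σ.IsIrreducible] :
    ∃ i, Nonempty ((W.rep i).Equiv σ) := by
  have hV : 0 < finrank ℂ V := by
    have : Nontrivial V := by
      by_contra h
      rw [not_nontrivial_iff_subsingleton] at h
      have h2 : Subsingleton (Subrepresentation σ) := by
        refine ⟨fun S T => Subrepresentation.toSubmodule_injective ?_⟩
        exact Subsingleton.elim _ _
      exact not_subsingleton (Subrepresentation σ) h2
    exact finrank_pos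
  rw [W.finrank_eq_sum σ] at hV
  obtain ⟨i, hi⟩ : ∃ i, W.mult σ i ≠ 0 := by
    by_contra h
    push Not at h
    simp [h] at hV
  have : Nontrivial ((W.rep i).IntertwiningMap σ) := by
    apply Module.nontrivial_of_finrank_pos (R := ℂ)
    exact Nat.pos_of_ne_zero hi
  obtain ⟨f, hf⟩ := exists_ne (0 : (W.rep i).IntertwiningMap σ)
  have hb := (Representation.IsIrreducible.bijective_or_eq_zero f).resolve_right hf
  exact ⟨i, ⟨f.ofBijective hb⟩⟩

end decomposition

/-- Character degrees. -/
def cd (G : Type) [Group G] : Set ℕ :=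
  {n | ∃ ρ : Representation ℂ G (Fin n → ℂ), ρ.IsIrreducible}

lemma cd_eq_range [Finite G] : cd G = Set.range W.d := by
  ext n
  constructor
  · rintro ⟨ρ, hρ⟩
    obtain ⟨i, ⟨f⟩⟩ := W.exists_equiv_of_irreducible ρ
    refine ⟨i, ?_⟩
    have := f.toLinearEquiv.finrank_eq
    simpa using this
  · rintro ⟨i, rfl⟩
    exact ⟨W.rep i, W.rep_irreducible i⟩

lemma n_le_of_classes {N : ℕ} (r : Fin N → G)
    (hr : ∀ g : G, ∃ k x, g = x * r k * x⁻¹) : W.n ≤ N := by
  let L : (Fin W.n → ℂ) →ₗ[ℂ] (Fin N → ℂ) :=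
    { toFun := fun c k => ∑ i, c i * W.tr i (o (r k))
      map_add' := fun c c' => by
        funext k
        simp only [Pi.add_apply, add_mul, Finset.sum_add_distrib]
      map_smul' := fun a c => by
        funext k
        simp only [Pi.smul_apply, smul_eq_mul, RingHom.id_apply, Finset.mul_sum, mul_assoc] }
  have hL : Function.Injective L := by
    rw [injective_iff_map_eq_zero]
    intro c hc
    have h1 : ∀ g : G, ∑ i, c i * W.tr i (o g) = 0 := by
      intro g
      obtain ⟨k, x, hx⟩ := hr g
      have h2 : ∀ i, W.tr i (o g) = W.tr i (o (r k)) := by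
        intro i
        rw [hx, o_mul, W.tr_mul_comm, ← o_mul, ← mul_assoc, inv_mul_cancel, one_mul]
      simp_rw [h2]
      exact congrFun hc k
    have h3 : ∀ x : MonoidAlgebra ℂ G, ∑ i, c i * W.tr i x = 0 := by
      intro x
      induction x using alg_induction with
      | h1 g => exact h1 g
      | hadd x y hx hy =>
        simp_rw [map_add, mul_add, Finset.sum_add_distrib]
        rw [hx, hy, add_zero]
      | hsmul a x hx =>
        simp_rw [map_smul, smul_eq_mul, mul_left_comm _ a]
        rw [← Finset.mul_sum, hx, mul_zero]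
    funext i
    have : Nonempty (Fin (W.d i)) := ⟨⟨0, W.dpos i⟩⟩
    obtain ⟨k⟩ := this
    obtain ⟨x, hx⟩ := W.exists_block i (Matrix.single k k 1)
    have h4 := h3 x
    rw [Finset.sum_eq_single i] at h4
    · rw [tr_apply, hx, Pi.single_eq_same, Matrix.trace_single_eq_same, mul_one] at h4
      exact h4
    · intro j _ hj
      rw [tr_apply, hx, Pi.single_eq_of_ne hj, Matrix.trace_zero, mul_zero]
    · simp
  have := LinearMap.finrank_le_finrank_of_injective hL
  simpa using this

end WD

end Pool.Agent.Lib_helper3
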