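import Mathlib
import Pool.Agent.Lib_helper3.Wedd

/-!
Idempotents attached to characters of an abelian subgroup.
-/

open Matrix Module

namespace Pool.Agent.Lib_helper3

section idem

variable {G : Type} [Group G] {V : Type} [CommRing V] [Fintype V] [DecidableEq V]
  (ψ : AddChar V ℂ) (v : V → G)

/-- The idempotent of the character `x ↦ ψ (b * x)`. -/
noncomputable def ide (b : V) : MonoidAlgebra ℂ G :=
  ((Fintype.card V : ℂ)⁻¹) • ∑ x, ψ (-(b * x)) • o (v x)

variable {ψ v}

omit [DecidableEq V] in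
lemma ide_mul_o (hadd : ∀ x y, v (x + y) = v x * v y) (b x : V) :
    ide ψ v b * o (v x) = ψ (b * x) • ide ψ v b := by
  have h : ∑ y, (ψ (-(b * y)) • o (v y)) * o (v x)
      = ∑ y, ψ (b * x) • ψ (-(b * y)) • o (v y) := by
    refine Fintype.sum_equiv (Equiv.addRight x) _ _ fun y => ?_
    rw [Equiv.coe_addRight, smul_mul_assoc, ← o_mul, ← hadd, smul_smul]
    congr 1
    rw [← AddChar.map_add_eq_mul]
    congr 1
    ring
  rw [ide, smul_mul_assoc, Finset.sum_mul, h, ← Finset.smul_sum,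
    smul_comm (ψ (b * x)) ((Fintype.card V : ℂ)⁻¹)]

omit [DecidableEq V] in
lemma o_mul_ide (hadd : ∀ x y, v (x + y) = v x * v y) (b x : V) :
    o (v x) * ide ψ v b = ψ (b * x) • ide ψ v b := by
  rw [← ide_mul_o hadd, ide, mul_smul_comm, smul_mul_assoc, Finset.mul_sum, Finset.sum_mul]
  congr 1
  refine Finset.sum_congr rfl fun y _ => ?_
  rw [smul_mul_assoc, mul_smul_comm, ← o_mul, ← o_mul, ← hadd, ← hadd, add_comm]

lemma ide_mul_ide (hψ : ψ.IsPrimitive) (hadd : ∀ x y, v (x + y) = v x * v y) (b b' : V) :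
    ide ψ v b * ide ψ v b' = if b = b' then ide ψ v b else 0 := by
  have h1 : ide ψ v b * ide ψ v b'
      = ((Fintype.card V : ℂ)⁻¹ * ∑ x, ψ (x * (b' - b))) • ide ψ v b' := by
    conv_lhs => rw [ide]
    rw [smul_mul_assoc, Finset.sum_mul, mul_smul, Finset.sum_smul]
    congr 1
    refine Finset.sum_congr rfl fun x _ => ?_
    rw [smul_mul_assoc, o_mul_ide hadd, smul_smul, ← AddChar.map_add_eq_mul]
    congr 2
    ring
  rw [h1, AddChar.sum_mulShift _ hψ]
  by_cases h : b = b'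
  · subst h
    rw [if_pos (sub_self _), if_pos rfl, inv_mul_cancel₀, one_smul]
    exact_mod_cast Fintype.card_ne_zero
  · rw [if_neg (fun h' => h (sub_eq_zero.1 h').symm), if_neg h]
    simp

lemma sum_ide (hψ : ψ.IsPrimitive) (h0 : v 0 = 1) : ∑ b, ide ψ v b = 1 := by
  simp only [ide]
  rw [← Finset.smul_sum, Finset.sum_comm]
  have h1 : ∀ x : V, ∑ b : V, ψ (-(b * x)) • o (v x)
      = if x = 0 then ((Fintype.card V : ℂ)) • (1 : MonoidAlgebra ℂ G) else 0 := by
    intro x
    rw [← Finset.sum_smul]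
    have h2 : ∑ b : V, ψ (-(b * x)) = ∑ b : V, ψ (b * (-x)) :=
      Finset.sum_congr rfl fun b _ => by rw [mul_neg]
    rw [h2, AddChar.sum_mulShift _ hψ]
    by_cases hx : x = 0
    · rw [if_pos (by rw [hx, neg_zero]), if_pos hx, hx, h0, o_one]
    · rw [if_neg (by simpa using hx), if_neg hx, Nat.cast_zero, zero_smul]
  rw [Finset.sum_congr rfl fun x _ => h1 x, Finset.sum_ite_eq' Finset.univ (0 : V),
    if_pos (Finset.mem_univ _), smul_smul, inv_mul_cancel₀, one_smul]
  exact_mod_cast Fintype.card_ne_zero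

omit [DecidableEq V] in
/-- Moving a normalizing element past an idempotent. -/
lemma ide_mul_o_conj {g : G} {ρ : V → V} (hρ : Function.Bijective ρ)
    (hg : ∀ x, g * v x = v (ρ x) * g) {b b' : V} (hb : ∀ x, ψ (b * ρ x) = ψ (b' * x)) :
    ide ψ v b * o g = o g * ide ψ v b' := by
  have h1 : ide ψ v b = ((Fintype.card V : ℂ)⁻¹) • ∑ x, ψ (-(b * ρ x)) • o (v (ρ x)) := by
    rw [ide]
    congr 1
    exact (Fintype.sum_bijective ρ hρ _ _ fun x => rfl).symm
  rw [h1, ide, smul_mul_assoc, mul_smul_comm, Finset.sum_mul, Finset.mul_sum]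
  congr 1
  refine Finset.sum_congr rfl fun x _ => ?_
  rw [smul_mul_assoc, mul_smul_comm, ← o_mul, ← o_mul, hg x, AddChar.map_neg_eq_inv,
    AddChar.map_neg_eq_inv, hb]

end idem

end Pool.Agent.Lib_helper3
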