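import Mathlib
import Pool.Agent.Lib_helper3.Idem

/-!
Dimension counts for groups with a Bruhat-type decomposition over a field with 25 elements.
-/

open Matrix Module

namespace Pool.Agent.Lib_helper3

/-- The data of a Bruhat-type decomposition. -/
structure BData (G : Type) [Group G] {F : Type} [Field F] [Fintype F] [DecidableEq F]
    (ψ : AddChar F ℂ) where
  R : Type
  fR : Fintype R
  dR : DecidableEq R
  u : F → G
  t : ZMod 12 → G
  w : G
  r : R → G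
  κ : R → ZMod 12
  γ : ZMod 12 → F
  ρ : R → F → F
  st : R → F → F
  τ : F → ZMod 12
  r1 : G
  r2 : G
  u_zero : u 0 = 1
  u_add : ∀ x y, u (x + y) = u x * u y
  t_zero : t 0 = 1
  t_add : ∀ x y, t (x + y) = t x * t y
  ww : w * w = 1
  wt : ∀ k, w * t k = t (-k) * w
  rt : ∀ s k, r s * t k = t (κ s * k) * r s
  κκ : ∀ s, κ s * κ s = 1
  tu : ∀ k x, t k * u x = u (γ k * x) * t k
  γ0 : ∀ k, γ k ≠ 0
  ru : ∀ s x, r s * u x = u (ρ s x) * r s
  ρbij : ∀ s, Function.Bijective (ρ s)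
  ψst : ∀ s b x, ψ (b * ρ s x) = ψ (st s b * x)
  st0 : ∀ s b, b ≠ 0 → st s b ≠ 0
  trans : ∀ b, b ≠ 0 → ∃ s l, γ l * st s 1 = b
  wuw : ∀ x, x ≠ 0 → w * u x * w = u x⁻¹ * t (τ x) * w * u x⁻¹
  τ1 : ∃ x y, x ≠ 0 ∧ y ≠ 0 ∧ τ x = τ y + 1
  bruhat : ∀ g, (∃ x s l, g = u x * r s * t l) ∨ ∃ x s l y, g = u x * w * r s * t l * u y
  card_eq : Nat.card G = 7800 * Fintype.card R
  rgen : ∀ s, ∃ a b : ℕ, r s = r1 ^ a * r2 ^ b
  r1t : ∀ k, ∃ k', t k * r1 = r1 * t k'
  r2t : ∀ k, ∃ k', t k * r2 = r2 * t k'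
  r1u : ∀ x, ∃ x', u x * r1 = r1 * u x'
  r2u : ∀ x, ∃ x', u x * r2 = r2 * u x'
  r1sq : ∃ k, r1 * r1 = t k
  r2sq : ∃ k, r2 * r2 = t k
  r12 : ∃ k, r1 * r2 = r2 * r1 * t k

attribute [instance] BData.fR BData.dR

/-- The standard primitive character of `ZMod 12`. -/
noncomputable abbrev α12 : AddChar (ZMod 12) ℂ := ZMod.stdAddChar

lemma α12_primitive : (α12).IsPrimitive := ZMod.isPrimitive_stdAddChar 12

namespace BData

variable {G : Type} [Group G] {F : Type} [Field F] [Fintype F] [DecidableEq F]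
  {ψ : AddChar F ℂ} (B : BData G ψ)

/-- Idempotents of `U`. -/
noncomputable def E (b : F) : MonoidAlgebra ℂ G := ide ψ B.u b

/-- Idempotents of the torus. -/
noncomputable def f (j : ZMod 12) : MonoidAlgebra ℂ G := ide α12 B.t j

/-- Idempotents of `U T` trivial on `U`. -/
noncomputable def P (j : ZMod 12) : MonoidAlgebra ℂ G := B.E 0 * B.f j

lemma E_mul_u (b x : F) : B.E b * o (B.u x) = ψ (b * x) • B.E b := ide_mul_o B.u_add b x

lemma u_mul_E (b x : F) : o (B.u x) * B.E b = ψ (b * x) • B.E b := o_mul_ide B.u_add b x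

lemma f_mul_t (j k : ZMod 12) : B.f j * o (B.t k) = α12 (j * k) • B.f j :=
  ide_mul_o B.t_add j k

lemma t_mul_f (j k : ZMod 12) : o (B.t k) * B.f j = α12 (j * k) • B.f j :=
  o_mul_ide B.t_add j k

lemma E_mul_E (hψ : ψ.IsPrimitive) (b b' : F) :
    B.E b * B.E b' = if b = b' then B.E b else 0 := ide_mul_ide hψ B.u_add b b'

lemma f_mul_f (j k : ZMod 12) : B.f j * B.f k = if j = k then B.f j else 0 :=
  ide_mul_ide α12_primitive B.t_add j k

lemma sum_E (hψ : ψ.IsPrimitive) : ∑ b, B.E b = 1 := sum_ide hψ B.u_zero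

lemma sum_f : ∑ j, B.f j = 1 := sum_ide α12_primitive B.t_zero

lemma E_mul_r (b : F) (s : B.R) : B.E b * o (B.r s) = o (B.r s) * B.E (B.st s b) :=
  ide_mul_o_conj (B.ρbij s) (B.ru s) (B.ψst s b)

lemma E0_mul_r (s : B.R) : B.E 0 * o (B.r s) = o (B.r s) * B.E 0 :=
  ide_mul_o_conj (B.ρbij s) (B.ru s) (fun x => by rw [zero_mul, zero_mul])

lemma E_mul_t (b : F) (k : ZMod 12) : B.E b * o (B.t k) = o (B.t k) * B.E (B.γ k * b) :=
  ide_mul_o_conj (ρ := fun x => B.γ k * x) (mulLeft_bijective₀ _ (B.γ0 k)) (B.tu k)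
    (fun x => by congr 1; ring)

lemma f_mul_r (j : ZMod 12) (s : B.R) : B.f j * o (B.r s) = o (B.r s) * B.f (B.κ s * j) := by
  refine ide_mul_o_conj (ρ := fun x => B.κ s * x) ?_ (B.rt s) (fun x => by congr 1; ring)
  refine Function.bijective_iff_has_inverse.2 ⟨fun x => B.κ s * x, fun x => ?_, fun x => ?_⟩
  · simp only [← mul_assoc, B.κκ, one_mul]
  · simp only [← mul_assoc, B.κκ, one_mul]

lemma f_mul_w (j : ZMod 12) : B.f j * o B.w = o B.w * B.f (-j) := by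
  refine ide_mul_o_conj (ρ := fun x => -x) neg_involutive.bijective B.wt
    (fun x => by congr 1; ring)

lemma E0_mul_f (j : ZMod 12) : B.E 0 * B.f j = B.f j * B.E 0 := by
  have h : ∀ k, B.E 0 * o (B.t k) = o (B.t k) * B.E 0 := by
    intro k
    rw [B.E_mul_t, mul_zero]
  rw [f, ide, mul_smul_comm, smul_mul_assoc, Finset.mul_sum, Finset.sum_mul]
  congr 1
  refine Finset.sum_congr rfl fun k _ => ?_
  rw [mul_smul_comm, smul_mul_assoc, h]

lemma P_mul_P (hψ : ψ.IsPrimitive) (j k : ZMod 12) :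
    B.P j * B.P k = if j = k then B.P j else 0 := by
  have h : B.P j * B.P k = (B.E 0 * B.E 0) * (B.f j * B.f k) := by
    rw [P, P, mul_assoc, ← mul_assoc (B.f j), ← B.E0_mul_f, mul_assoc, ← mul_assoc, mul_assoc]
  rw [h, B.E_mul_E hψ, if_pos rfl, B.f_mul_f]
  split_ifs
  · rfl
  · rw [mul_zero]

lemma sum_P : ∑ j, B.P j = B.E 0 := by
  simp only [P]
  rw [← Finset.mul_sum, B.sum_f, mul_one]

lemma P_mul_u (j : ZMod 12) (x : F) : B.P j * o (B.u x) = B.P j := by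
  rw [P, B.E0_mul_f, mul_assoc, B.E_mul_u, zero_mul, AddChar.map_zero_eq_one, one_smul]

lemma u_mul_P (j : ZMod 12) (x : F) : o (B.u x) * B.P j = B.P j := by
  rw [P, ← mul_assoc, B.u_mul_E, zero_mul, AddChar.map_zero_eq_one, one_smul]

lemma P_mul_t (j k : ZMod 12) : B.P j * o (B.t k) = α12 (j * k) • B.P j := by
  rw [P, mul_assoc, B.f_mul_t, mul_smul_comm]

lemma t_mul_P (j k : ZMod 12) : o (B.t k) * B.P j = α12 (j * k) • B.P j := by
  rw [P, B.E0_mul_f, ← mul_assoc, B.t_mul_f, smul_mul_assoc]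

lemma P_mul_r (j : ZMod 12) (s : B.R) : B.P j * o (B.r s) = o (B.r s) * B.P (B.κ s * j) := by
  rw [P, P, mul_assoc, B.f_mul_r, ← mul_assoc, B.E0_mul_r, mul_assoc]

lemma P_mul_E (hψ : ψ.IsPrimitive) (j : ZMod 12) {b : F} (hb : b ≠ 0) : B.P j * B.E b = 0 := by
  rw [P, B.E0_mul_f, mul_assoc, B.E_mul_E hψ, if_neg hb.symm, mul_zero]

lemma E_mul_P (hψ : ψ.IsPrimitive) (j : ZMod 12) {b : F} (hb : b ≠ 0) : B.E b * B.P j = 0 := by
  rw [P, ← mul_assoc, B.E_mul_E hψ, if_neg hb, zero_mul]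

/-! ### Spanning sets -/

lemma range_LR_le {p q : MonoidAlgebra ℂ G} {S : Submodule ℂ (MonoidAlgebra ℂ G)}
    (h : ∀ g, p * (o g * q) ∈ S) : LinearMap.range (LR p q) ≤ S := by
  rintro _ ⟨x, rfl⟩
  rw [LR_apply]
  induction x using alg_induction with
  | h1 g => exact h g
  | hadd x y hx hy => rw [add_mul, mul_add]; exact S.add_mem hx hy
  | hsmul c x hx => rw [smul_mul_assoc, mul_smul_comm]; exact S.smul_mem c hx

lemma finrank_LR_le {p q : MonoidAlgebra ℂ G} [Finite G] (S : Finset (MonoidAlgebra ℂ G))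
    (h : ∀ g, p * (o g * q) ∈ Submodule.span ℂ (S : Set (MonoidAlgebra ℂ G))) :
    finrank ℂ (LinearMap.range (LR p q)) ≤ S.card :=
  (Submodule.finrank_mono (range_LR_le h)).trans (finrank_span_finset_le_card S)

lemma case1_PP (hψ : ψ.IsPrimitive) (j k : ZMod 12) (x : F) (s : B.R) (l : ZMod 12) :
    B.P j * (o (B.u x * B.r s * B.t l) * B.P k)
      = if B.κ s * j = k then α12 (k * l) • (o (B.r s) * B.P k) else 0 := by
  rw [o_mul, o_mul, mul_assoc (o (B.u x) * o (B.r s)), B.t_mul_P, mul_smul_comm, mul_smul_comm,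
    mul_assoc (o (B.u x)), ← mul_assoc (B.P j), B.P_mul_u, ← mul_assoc, B.P_mul_r, mul_assoc,
    B.P_mul_P hψ]
  split_ifs with h
  · rw [h]
  · rw [mul_zero, smul_zero]

lemma w_mul_w : o B.w * o B.w = 1 := by rw [← o_mul, B.ww, o_one]

lemma case2_PP (j k : ZMod 12) (x : F) (s : B.R) (l : ZMod 12) (y : F) :
    B.P j * (o (B.u x * B.w * B.r s * B.t l * B.u y) * B.P k)
      = if j = -(B.κ s * k) then α12 (k * l) • (B.P j * (o B.w * (o (B.r s) * B.P k))) else 0 := by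
  rw [o_mul, o_mul, o_mul, o_mul, mul_assoc _ (o (B.u y)), B.u_mul_P,
    mul_assoc _ (o (B.t l)), B.t_mul_P, mul_smul_comm, mul_smul_comm,
    mul_assoc, mul_assoc (o (B.u x)), ← mul_assoc (B.P j), B.P_mul_u]
  split_ifs with h
  · rfl
  · have h1 : o (B.r s) * B.P k = B.f (B.κ s * k) * o (B.r s) * B.E 0 := by
      rw [B.f_mul_r, ← mul_assoc (B.κ s), B.κκ, one_mul, mul_assoc, ← B.E0_mul_f, P]
    have h2 : o B.w * B.f (B.κ s * k) = B.f (-(B.κ s * k)) * o B.w := by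
      rw [B.f_mul_w, neg_neg]
    have h3 : B.P j * B.f (-(B.κ s * k)) = 0 := by
      rw [P, mul_assoc, B.f_mul_f, if_neg h, mul_zero]
    rw [h1, ← mul_assoc (o B.w), ← mul_assoc (o B.w), h2, ← mul_assoc, ← mul_assoc,
      ← mul_assoc, h3, zero_mul, zero_mul, zero_mul, smul_zero]

end BData

end Pool.Agent.Lib_helper3
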