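import Mathlib
import Pool.Agent.Lib_helper3.Engine

open Matrix Module

namespace Pool.Agent.Lib_helper3
namespace BData

variable {G : Type} [Group G] {F : Type} [Field F] [Fintype F] [DecidableEq F]
  {ψ : AddChar F ℂ} (B : BData G ψ)

lemma case1_EP (hψ : ψ.IsPrimitive) {b : F} (hb : b ≠ 0) (k : ZMod 12) (x : F) (s : B.R)
    (l : ZMod 12) : B.E b * (o (B.u x * B.r s * B.t l) * B.P k) = 0 := by
  rw [o_mul, o_mul, mul_assoc (o (B.u x) * o (B.r s)), B.t_mul_P, mul_smul_comm, mul_smul_comm,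
    mul_assoc (o (B.u x)), ← mul_assoc (B.E b), B.E_mul_u, smul_mul_assoc, ← mul_assoc,
    B.E_mul_r, mul_assoc, B.E_mul_P hψ k (B.st0 s b hb), mul_zero, smul_zero, smul_zero]

lemma case2_EP (b : F) (k : ZMod 12) (x : F) (s : B.R) (l : ZMod 12) (y : F) :
    B.E b * (o (B.u x * B.w * B.r s * B.t l * B.u y) * B.P k)
      = (α12 (k * l) * ψ (b * x)) • (B.E b * (o B.w * (o (B.r s) * B.P k))) := by
  rw [o_mul, o_mul, o_mul, o_mul, mul_assoc _ (o (B.u y)), B.u_mul_P,
    mul_assoc _ (o (B.t l)), B.t_mul_P, mul_smul_comm, mul_smul_comm,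
    mul_assoc, mul_assoc (o (B.u x)), ← mul_assoc (B.E b), B.E_mul_u, smul_mul_assoc, smul_smul]

lemma case1_PE (hψ : ψ.IsPrimitive) {b : F} (hb : b ≠ 0) (j : ZMod 12) (x : F) (s : B.R)
    (l : ZMod 12) : B.P j * (o (B.u x * B.r s * B.t l) * B.E b) = 0 := by
  rw [← mul_assoc, o_mul, o_mul, ← mul_assoc, ← mul_assoc, B.P_mul_u, B.P_mul_r,
    mul_assoc (o (B.r s)), B.P_mul_t, mul_smul_comm, smul_mul_assoc, mul_assoc (o (B.r s)),
    B.P_mul_E hψ _ hb, mul_zero, smul_zero]

lemma case2_PE (b : F) (j : ZMod 12) (x : F) (s : B.R) (l : ZMod 12) (y : F) :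
    B.P j * (o (B.u x * B.w * B.r s * B.t l * B.u y) * B.E b)
      = (α12 (j * (-(B.κ s * l))) * ψ (b * y)) • (B.P j * (o B.w * (o (B.r s) * B.E b))) := by
  have h1 : B.u x * B.w * B.r s * B.t l * B.u y
      = B.u x * B.t (-(B.κ s * l)) * B.w * B.r s * B.u y := by
    rw [mul_assoc (B.u x * B.w), B.rt, ← mul_assoc, mul_assoc (B.u x), B.wt]
    simp only [mul_assoc]
  rw [h1, o_mul, o_mul, o_mul, o_mul, mul_assoc _ (o (B.u y)), B.u_mul_E, mul_smul_comm,
    mul_smul_comm, mul_assoc, mul_assoc, mul_assoc, ← mul_assoc (B.P j), B.P_mul_u,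
    ← mul_assoc, B.P_mul_t, smul_mul_assoc, smul_smul, mul_comm (ψ (b * y))]

lemma case1_EE (hψ : ψ.IsPrimitive) (b b' : F) (x : F) (s : B.R) (l : ZMod 12) :
    B.E b * (o (B.u x * B.r s * B.t l) * B.E b')
      = if B.γ l * B.st s b = b' then ψ (b * x) • (o (B.r s) * (o (B.t l) * B.E b')) else 0 := by
  rw [o_mul, o_mul, ← mul_assoc, ← mul_assoc, ← mul_assoc, B.E_mul_u, smul_mul_assoc,
    B.E_mul_r, smul_mul_assoc, mul_assoc (o (B.r s)), B.E_mul_t, smul_mul_assoc, mul_assoc,
    mul_assoc, B.E_mul_E hψ]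
  split_ifs with h
  · rw [h]
  · rw [mul_zero, mul_zero, smul_zero]

lemma case2_EE (b b' : F) (x : F) (s : B.R) (l : ZMod 12) (y : F) :
    B.E b * (o (B.u x * B.w * B.r s * B.t l * B.u y) * B.E b')
      = (ψ (b' * y) * ψ (b * x)) • (B.E b * (o B.w * (o (B.r s) * (o (B.t l) * B.E b')))) := by
  rw [o_mul, o_mul, o_mul, o_mul, mul_assoc _ (o (B.u y)), B.u_mul_E, mul_smul_comm,
    mul_smul_comm, mul_assoc, mul_assoc, mul_assoc, ← mul_assoc (B.E b), B.E_mul_u,
    smul_mul_assoc, smul_smul]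

/-- The index set of the decomposition of `1`. -/
abbrev Λ (F : Type) [Field F] := ZMod 12 ⊕ {b : F // b ≠ 0}

/-- The idempotents. -/
noncomputable def p : Λ F → MonoidAlgebra ℂ G
  | .inl j => B.P j
  | .inr b => B.E b.1

lemma p_idem (hψ : ψ.IsPrimitive) (l : Λ F) : B.p l * B.p l = B.p l := by
  rcases l with j | b
  · exact (B.P_mul_P hψ j j).trans (if_pos rfl)
  · exact (B.E_mul_E hψ b.1 b.1).trans (if_pos rfl)

lemma sum_p (hψ : ψ.IsPrimitive) : ∑ l, B.p l = 1 := by
  rw [Fintype.sum_sum_type]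
  change ∑ j, B.P j + ∑ b : {b : F // b ≠ 0}, B.E b.1 = 1
  rw [B.sum_P, ← B.sum_E hψ, ← Finset.add_sum_erase Finset.univ B.E (Finset.mem_univ (0 : F))]
  congr 1
  rw [← Finset.sum_subtype (Finset.univ.erase (0 : F)) (p := fun b => b ≠ 0) (by simp) B.E]

/-- The predicted dimensions. -/
def D : Λ F → Λ F → ℕ
  | .inl j, .inl k => (Finset.univ.filter fun s : B.R => B.κ s * j = k).card +
      (Finset.univ.filter fun s : B.R => j = -(B.κ s * k)).card
  | .inl _, .inr _ => Fintype.card B.R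
  | .inr _, .inl _ => Fintype.card B.R
  | .inr b, .inr b' =>
      (Finset.univ.filter fun s : B.R × ZMod 12 => B.γ s.2 * B.st s.1 b.1 = b'.1).card
      + Fintype.card (B.R × ZMod 12)

open Classical in
lemma finrank_le_D [Finite G] (hψ : ψ.IsPrimitive) (l m : Λ F) :
    finrank ℂ (LinearMap.range (LR (B.p l) (B.p m))) ≤ B.D l m := by
  rcases l with j | b <;> rcases m with k | b'
  · refine (finrank_LR_le (p := B.P j) (q := B.P k)
      ((Finset.univ.filter fun s : B.R => B.κ s * j = k).image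
        (fun s => o (B.r s) * B.P k) ∪
       (Finset.univ.filter fun s : B.R => j = -(B.κ s * k)).image
        (fun s => B.P j * (o B.w * (o (B.r s) * B.P k)))) fun g => ?_).trans
      ((Finset.card_union_le _ _).trans (add_le_add Finset.card_image_le Finset.card_image_le))
    rcases B.bruhat g with ⟨x, s, l, rfl⟩ | ⟨x, s, l, y, rfl⟩
    · rw [B.case1_PP hψ]
      split_ifs with h
      · refine Submodule.smul_mem _ _ (Submodule.subset_span ?_)
        rw [Finset.mem_coe, Finset.mem_union]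
        exact Or.inl (Finset.mem_image_of_mem _ (by simpa using h))
      · exact Submodule.zero_mem _
    · rw [B.case2_PP]
      split_ifs with h
      · refine Submodule.smul_mem _ _ (Submodule.subset_span ?_)
        rw [Finset.mem_coe, Finset.mem_union]
        refine Or.inr (Finset.mem_image_of_mem _ ?_)
        rw [Finset.mem_filter]
        exact ⟨Finset.mem_univ _, h⟩
      · exact Submodule.zero_mem _
  · refine (finrank_LR_le (p := B.P j) (q := B.E b'.1)
      (Finset.univ.image (fun s => B.P j * (o B.w * (o (B.r s) * B.E b'.1))))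
        fun g => ?_).trans Finset.card_image_le
    rcases B.bruhat g with ⟨x, s, l, rfl⟩ | ⟨x, s, l, y, rfl⟩
    · rw [B.case1_PE hψ b'.2]; exact Submodule.zero_mem _
    · rw [B.case2_PE]
      refine Submodule.smul_mem _ _ (Submodule.subset_span ?_)
      rw [Finset.mem_coe]
      exact Finset.mem_image_of_mem _ (Finset.mem_univ _)
  · refine (finrank_LR_le (p := B.E b.1) (q := B.P k)
      (Finset.univ.image (fun s => B.E b.1 * (o B.w * (o (B.r s) * B.P k))))
        fun g => ?_).trans Finset.card_image_le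
    rcases B.bruhat g with ⟨x, s, l, rfl⟩ | ⟨x, s, l, y, rfl⟩
    · rw [B.case1_EP hψ b.2]; exact Submodule.zero_mem _
    · rw [B.case2_EP]
      refine Submodule.smul_mem _ _ (Submodule.subset_span ?_)
      rw [Finset.mem_coe]
      exact Finset.mem_image_of_mem _ (Finset.mem_univ _)
  · refine (finrank_LR_le (p := B.E b.1) (q := B.E b'.1)
      ((Finset.univ.filter fun s : B.R × ZMod 12 => B.γ s.2 * B.st s.1 b.1 = b'.1).image
        (fun s => o (B.r s.1) * (o (B.t s.2) * B.E b'.1)) ∪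
       Finset.univ.image
        (fun s : B.R × ZMod 12 =>
          B.E b.1 * (o B.w * (o (B.r s.1) * (o (B.t s.2) * B.E b'.1))))) fun g => ?_).trans
      ((Finset.card_union_le _ _).trans (add_le_add Finset.card_image_le Finset.card_image_le))
    rcases B.bruhat g with ⟨x, s, l, rfl⟩ | ⟨x, s, l, y, rfl⟩
    · rw [B.case1_EE hψ]
      split_ifs with h
      · refine Submodule.smul_mem _ _ (Submodule.subset_span ?_)
        rw [Finset.mem_coe, Finset.mem_union]
        refine Or.inl (Finset.mem_image.2 ⟨(s, l), ?_, rfl⟩)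
        rw [Finset.mem_filter]
        exact ⟨Finset.mem_univ _, h⟩
      · exact Submodule.zero_mem _
    · rw [B.case2_EE]
      refine Submodule.smul_mem _ _ (Submodule.subset_span ?_)
      rw [Finset.mem_coe, Finset.mem_union]
      exact Or.inr (Finset.mem_image.2 ⟨(s, l), Finset.mem_univ _, rfl⟩)


lemma card_subtype (hF : Fintype.card F = 25) : Fintype.card {b : F // b ≠ 0} = 24 := by
  rw [Fintype.card_subtype_compl, Fintype.card_subtype_eq, hF]

lemma sum_D (hF : Fintype.card F = 25) : ∑ l, ∑ m, B.D l m = 7800 * Fintype.card B.R := by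
  have e1 : ∀ j : ZMod 12, ∑ k : ZMod 12,
      (Finset.univ.filter fun s : B.R => B.κ s * j = k).card = Fintype.card B.R := by
    intro j
    simp_rw [Finset.card_filter]
    rw [Finset.sum_comm]
    simp
  have e2 : ∀ k : ZMod 12, ∑ j : ZMod 12,
      (Finset.univ.filter fun s : B.R => j = -(B.κ s * k)).card = Fintype.card B.R := by
    intro j
    simp_rw [Finset.card_filter]
    rw [Finset.sum_comm]
    simp
  have e3 : ∀ b : {b : F // b ≠ 0}, ∑ b' : {b : F // b ≠ 0},
      (Finset.univ.filter fun s : B.R × ZMod 12 => B.γ s.2 * B.st s.1 b.1 = b'.1).card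
        = Fintype.card (B.R × ZMod 12) := by
    intro b
    simp_rw [Finset.card_filter]
    rw [Finset.sum_comm]
    have : ∀ s : B.R × ZMod 12, ∑ b' : {b : F // b ≠ 0},
        (if B.γ s.2 * B.st s.1 b.1 = b'.1 then 1 else 0) = 1 := by
      intro s
      have hv : B.γ s.2 * B.st s.1 b.1 ≠ 0 := mul_ne_zero (B.γ0 _) (B.st0 _ _ b.2)
      rw [Finset.sum_eq_single (⟨_, hv⟩ : {b : F // b ≠ 0})]
      · simp
      · intro b' _ hb'
        rw [if_neg]
        intro h
        exact hb' (Subtype.ext h.symm)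
      · simp
    rw [Finset.sum_congr rfl fun s _ => this s]
    simp
  rw [Fintype.sum_sum_type]
  simp_rw [Fintype.sum_sum_type]
  have d1 : ∀ j k : ZMod 12, B.D (.inl j : Λ F) (.inl k) =
      (Finset.univ.filter fun s : B.R => B.κ s * j = k).card +
      (Finset.univ.filter fun s : B.R => j = -(B.κ s * k)).card := fun _ _ => rfl
  have d2 : ∀ (j : ZMod 12) (b : {b : F // b ≠ 0}), B.D (.inl j) (.inr b) = Fintype.card B.R :=
    fun _ _ => rfl
  have d3 : ∀ (j : ZMod 12) (b : {b : F // b ≠ 0}), B.D (.inr b) (.inl j) = Fintype.card B.R :=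
    fun _ _ => rfl
  have d4 : ∀ b b' : {b : F // b ≠ 0}, B.D (.inr b) (.inr b') =
      (Finset.univ.filter fun s : B.R × ZMod 12 => B.γ s.2 * B.st s.1 b.1 = b'.1).card
      + Fintype.card (B.R × ZMod 12) := fun _ _ => rfl
  simp_rw [d1, d2, d3, d4, Finset.sum_add_distrib, e1, e3]
  rw [Finset.sum_comm (s := (Finset.univ : Finset (ZMod 12)))
    (f := fun j k => (Finset.univ.filter fun s : B.R => j = -(B.κ s * k)).card)]
  simp_rw [e2]
  simp only [Finset.sum_const, Finset.card_univ, smul_eq_mul, Fintype.card_prod, ZMod.card,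
    card_subtype hF]
  ring

lemma finrank_eq_D [Finite G] (hψ : ψ.IsPrimitive) (hF : Fintype.card F = 25) (l m : Λ F) :
    finrank ℂ (LinearMap.range (LR (B.p l) (B.p m))) = B.D l m := by
  have : Fintype G := Fintype.ofFinite G
  have h1 := WD.sum_trace_LR_eq_card B.p (B.p_idem hψ) (B.sum_p hψ)
  rw [← Nat.card_eq_fintype_card, B.card_eq, ← B.sum_D hF, ← Fintype.sum_prod_type',
    ← Fintype.sum_prod_type'] at h1
  have h2 := (Finset.sum_eq_sum_iff_of_le
    (s := (Finset.univ : Finset (Λ F × Λ F)))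
    (f := fun x => finrank ℂ (LinearMap.range (LR (B.p x.1) (B.p x.2))))
    (g := fun x => B.D x.1 x.2)
    (fun x _ => B.finrank_le_D hψ x.1 x.2)).1 h1
  exact h2 (l, m) (Finset.mem_univ _)

end BData
end Pool.Agent.Lib_helper3
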