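import Mathlib
import Pool.Agent.Lib_helper3.Engine2

open Matrix Module

namespace Pool.Agent.Lib_helper3
namespace BData

variable {G : Type} [Group G] {F : Type} [Field F] [Fintype F] [DecidableEq F]
  {ψ : AddChar F ℂ} (B : BData G ψ) (W : WD G)

/-- The nonzero element `1` of the index set. -/
def one' : {b : F // b ≠ 0} := ⟨1, one_ne_zero⟩

/-- Rank of `P j` in block `i`. -/
noncomputable def xr (i : Fin W.n) (j : ZMod 12) : ℕ := W.rk i (B.P j)

/-- Rank of `E 1` in block `i`. -/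
noncomputable def mr (i : Fin W.n) : ℕ := W.rk i (B.E 1)

lemma N1 [Finite G] (hψ : ψ.IsPrimitive) (hF : Fintype.card F = 25) (j k : ZMod 12) :
    ∑ i, B.xr W i j * B.xr W i k
      = (Finset.univ.filter fun s : B.R => B.κ s * j = k).card +
      (Finset.univ.filter fun s : B.R => j = -(B.κ s * k)).card := by
  have h := B.finrank_eq_D hψ hF (.inl j) (.inl k)
  rw [W.finrank_LR (B.p_idem hψ _) (B.p_idem hψ _)] at h
  exact h

lemma N2 [Finite G] (hψ : ψ.IsPrimitive) (hF : Fintype.card F = 25) (j : ZMod 12) :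
    ∑ i, B.mr W i * B.xr W i j = Fintype.card B.R := by
  have h := B.finrank_eq_D hψ hF (.inr one') (.inl j)
  rw [W.finrank_LR (B.p_idem hψ _) (B.p_idem hψ _)] at h
  exact h

lemma E_conj {b : F} (hb : b ≠ 0) : ∃ g : G, B.E b = o g⁻¹ * B.E 1 * o g := by
  obtain ⟨s, l, h⟩ := B.trans b hb
  refine ⟨B.r s * B.t l, ?_⟩
  have h1 : B.E 1 * o (B.r s * B.t l) = o (B.r s * B.t l) * B.E b := by
    rw [o_mul, ← mul_assoc, B.E_mul_r, mul_assoc, B.E_mul_t, h, mul_assoc]
  rw [mul_assoc, h1, ← mul_assoc, ← o_mul, inv_mul_cancel, o_one, one_mul]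

lemma rk_E (hψ : ψ.IsPrimitive) {b : F} (hb : b ≠ 0) (i : Fin W.n) :
    W.rk i (B.E b) = B.mr W i := by
  have h1 : ∀ c, B.E c * B.E c = B.E c := fun c => (B.E_mul_E hψ c c).trans (if_pos rfl)
  have h2 : (W.rk i (B.E b) : ℂ) = (W.rk i (B.E 1) : ℂ) := by
    rw [← W.tr_eq_rk i (h1 b), ← W.tr_eq_rk i (h1 1)]
    obtain ⟨g, hg⟩ := B.E_conj hb
    rw [hg, W.tr_mul_comm, ← mul_assoc, ← o_mul, mul_inv_cancel, o_one, one_mul]
  exact_mod_cast h2

lemma N3 [Finite G] (hψ : ψ.IsPrimitive) (hF : Fintype.card F = 25) :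
    2 * ∑ i, B.mr W i * B.mr W i = 25 * Fintype.card B.R := by
  have h : ∀ b b' : {b : F // b ≠ 0}, ∑ i, B.mr W i * B.mr W i
      = B.D (.inr b) (.inr b') := by
    intro b b'
    have h := B.finrank_eq_D hψ hF (.inr b) (.inr b')
    rw [W.finrank_LR (B.p_idem hψ _) (B.p_idem hψ _)] at h
    rw [← h]
    refine Finset.sum_congr rfl fun i _ => ?_
    change _ = W.rk i (B.E b.1) * W.rk i (B.E b'.1)
    rw [B.rk_E W hψ b.2, B.rk_E W hψ b'.2]
  have e3 : ∑ b' : {b : F // b ≠ 0}, B.D (.inr one') (.inr b')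
        = 25 * Fintype.card (B.R × ZMod 12) := by
    have d4 : ∀ b b' : {b : F // b ≠ 0}, B.D (.inr b) (.inr b') =
      (Finset.univ.filter fun s : B.R × ZMod 12 => B.γ s.2 * B.st s.1 b.1 = b'.1).card
      + Fintype.card (B.R × ZMod 12) := fun _ _ => rfl
    simp_rw [d4, Finset.card_filter]
    rw [Finset.sum_add_distrib, Finset.sum_comm]
    have : ∀ s : B.R × ZMod 12, ∑ b' : {b : F // b ≠ 0},
        (if B.γ s.2 * B.st s.1 (one' : {b : F // b ≠ 0}).1 = b'.1 then 1 else 0) = 1 := by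
      intro s
      have hv : B.γ s.2 * B.st s.1 (one' : {b : F // b ≠ 0}).1 ≠ 0 :=
        mul_ne_zero (B.γ0 _) (B.st0 _ _ one'.2)
      rw [Finset.sum_eq_single (⟨_, hv⟩ : {b : F // b ≠ 0})]
      · simp
      · intro b' _ hb'
        rw [if_neg]
        intro h
        exact hb' (Subtype.ext h.symm)
      · simp
    rw [Finset.sum_congr rfl fun s _ => this s]
    simp only [Finset.sum_const, Finset.card_univ, smul_eq_mul, card_subtype hF]
    ring
  have h5 : 24 * ∑ i, B.mr W i * B.mr W i = 25 * Fintype.card (B.R × ZMod 12) := by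
    rw [← e3, ← card_subtype hF, ← Finset.card_univ, ← smul_eq_mul, ← Finset.sum_const]
    exact Finset.sum_congr rfl fun b' _ => h one' b'
  rw [Fintype.card_prod, ZMod.card] at h5
  omega

lemma N4 (hψ : ψ.IsPrimitive) (hF : Fintype.card F = 25) (i : Fin W.n) :
    W.d i = ∑ j, B.xr W i j + 24 * B.mr W i := by
  have h : (W.d i : ℂ) = ((∑ j, B.xr W i j + 24 * B.mr W i : ℕ) : ℂ) := by
    rw [← W.tr_one, ← B.sum_p hψ, map_sum, Fintype.sum_sum_type, Nat.cast_add, Nat.cast_sum]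
    congr 1
    · refine Finset.sum_congr rfl fun j _ => ?_
      exact W.tr_eq_rk i (B.p_idem hψ (.inl j))
    · rw [← card_subtype hF, ← Finset.card_univ, ← smul_eq_mul, ← Finset.sum_const, Nat.cast_sum]
      refine Finset.sum_congr rfl fun b _ => ?_
      rw [W.tr_eq_rk i (B.p_idem hψ (.inr b))]
      congr 1
      exact B.rk_E W hψ b.2 i
  exact_mod_cast h

end BData
end Pool.Agent.Lib_helper3
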