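import Mathlib
import Pool.Agent.Lib_helper3.Engine3

open Matrix Module

namespace Pool.Agent.Lib_helper3

lemma matrix_eq_zero_of_rank {m : ℕ} {M : Matrix (Fin m) (Fin m) ℂ} (h : M.rank = 0) :
    M = 0 := by
  rw [Matrix.rank, Submodule.finrank_eq_zero] at h
  have h2 := LinearMap.range_eq_bot.1 h
  apply Matrix.toLin'.injective
  rw [map_zero, Matrix.toLin'_apply', h2]

/-- If all images of group elements commute, the block has size `1`. -/
lemma WD.d_eq_one {G : Type} [Group G] (W : WD G) (i : Fin W.n)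
    (h : ∀ g g' : G, W.e (o g) i * W.e (o g') i = W.e (o g') i * W.e (o g) i) : W.d i = 1 := by
  have h1 : ∀ (g : G) (x : MonoidAlgebra ℂ G), W.e (o g) i * W.e x i = W.e x i * W.e (o g) i := by
    intro g x
    induction x using alg_induction with
    | h1 g' => exact h g g'
    | hadd x y hx hy => rw [map_add, Pi.add_apply, mul_add, add_mul, hx, hy]
    | hsmul c x hx => rw [map_smul, Pi.smul_apply, mul_smul_comm, smul_mul_assoc, hx]
  have h2 : ∀ x y : MonoidAlgebra ℂ G, W.e y i * W.e x i = W.e x i * W.e y i := by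
    intro x y
    induction y using alg_induction with
    | h1 g' => exact h1 g' x
    | hadd y z hx hy => rw [map_add, Pi.add_apply, mul_add, add_mul, hx, hy]
    | hsmul c y hx => rw [map_smul, Pi.smul_apply, mul_smul_comm, smul_mul_assoc, hx]
  have hd := W.dpos i
  by_contra hne
  have hlt : 1 < W.d i := by omega
  let a : Fin (W.d i) := ⟨0, hd⟩
  let b : Fin (W.d i) := ⟨1, hlt⟩
  have hab : a ≠ b := by simp [a, b, Fin.ext_iff]
  obtain ⟨x, hx⟩ := W.exists_block i (Matrix.single a b 1)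
  obtain ⟨y, hy⟩ := W.exists_block i (Matrix.single b a 1)
  have h3 := h2 x y
  rw [hx, hy, Pi.single_eq_same, Pi.single_eq_same] at h3
  have h4 := congrFun (congrFun h3 a) a
  rw [Matrix.single_mul_single_same, Matrix.single_mul_single_same] at h4
  simp [Matrix.single_apply, hab.symm] at h4

namespace BData

variable {G : Type} [Group G] {F : Type} [Field F] [Fintype F] [DecidableEq F]
  {ψ : AddChar F ℂ} (B : BData G ψ) (W : WD G)

lemma e_mul (i : Fin W.n) (x y : MonoidAlgebra ℂ G) : W.e (x * y) i = W.e x i * W.e y i := by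
  rw [map_mul, Pi.mul_apply]

lemma e_one (i : Fin W.n) : W.e 1 i = 1 := by rw [map_one, Pi.one_apply]

section N5
variable {B W} {i : Fin W.n} (hψ : ψ.IsPrimitive) (hm : B.mr W i = 0)
include hψ hm

lemma e_E_zero {b : F} (hb : b ≠ 0) : W.e (B.E b) i = 0 :=
  matrix_eq_zero_of_rank ((B.rk_E W hψ hb i).trans hm)

lemma e_E0 : W.e (B.E 0) i = 1 := by
  have h := congrFun (congrArg W.e (B.sum_E hψ)) i
  rw [map_sum, Finset.sum_apply, map_one, Pi.one_apply,
    ← Finset.add_sum_erase Finset.univ _ (Finset.mem_univ (0 : F)), Finset.sum_eq_zero,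
    add_zero] at h
  · exact h
  · intro b hb
    exact e_E_zero hψ hm (Finset.ne_of_mem_erase hb)

lemma e_u (x : F) : W.e (o (B.u x)) i = 1 := by
  have h : W.e (o (B.u x)) i * W.e (B.E 0) i = W.e (B.E 0) i := by
    rw [← e_mul, B.u_mul_E, zero_mul, AddChar.map_zero_eq_one, one_smul]
  rwa [e_E0 hψ hm, mul_one] at h

lemma e_tw {x : F} (hx : x ≠ 0) : W.e (o (B.t (B.τ x))) i * W.e (o B.w) i = 1 := by
  have h := congrArg (fun g => W.e (o g) i) (B.wuw x hx)
  simp only [o_mul, e_mul, e_u hψ hm, mul_one, one_mul] at h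
  rw [← h, ← e_mul, ← o_mul, B.ww, o_one, e_one]

lemma e_t (k : ZMod 12) : W.e (o (B.t k)) i = 1 := by
  obtain ⟨x, y, hx, hy, hxy⟩ := B.τ1
  have h1 : W.e (o (B.t 1)) i = 1 := by
    have h2 := e_tw hψ hm (B := B) hx
    have h3 := e_tw hψ hm (B := B) hy
    rw [hxy, B.t_add, o_mul, e_mul] at h2
    -- T_{τ y} T_1 W = 1 and T_{τ y} W = 1
    have h4 : W.e (o (B.t (B.τ y))) i * W.e (o (B.t 1)) i
        = W.e (o (B.t (B.τ y))) i := by
      have hw : W.e (o B.w) i * W.e (o B.w) i = 1 := by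
        rw [← e_mul, ← o_mul, B.ww, o_one, e_one]
      calc _ = (W.e (o (B.t (B.τ y))) i * W.e (o (B.t 1)) i)
            * (W.e (o B.w) i * W.e (o B.w) i) := by rw [hw, mul_one]
        _ = W.e (o B.w) i := by rw [← mul_assoc, h2, one_mul]
        _ = (W.e (o (B.t (B.τ y))) i * W.e (o B.w) i) * W.e (o B.w) i := by rw [h3, one_mul]
        _ = _ := by rw [mul_assoc, hw, mul_one]
    have h5 : W.e (o (B.t (-(B.τ y)))) i * W.e (o (B.t (B.τ y))) i = 1 := by
      rw [← e_mul, ← o_mul, ← B.t_add, neg_add_cancel, B.t_zero, o_one, e_one]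
    calc W.e (o (B.t 1)) i = (W.e (o (B.t (-(B.τ y)))) i * W.e (o (B.t (B.τ y))) i)
          * W.e (o (B.t 1)) i := by rw [h5, one_mul]
      _ = _ := by rw [mul_assoc, h4, h5]
  have h6 : ∀ n : ℕ, W.e (o (B.t (n : ZMod 12))) i = 1 := by
    intro n
    induction n with
    | zero => rw [Nat.cast_zero, B.t_zero, o_one, e_one]
    | succ n ih => rw [Nat.cast_succ, B.t_add, o_mul, e_mul, ih, h1, one_mul]
  rw [← ZMod.natCast_zmod_val k]
  exact h6 _

lemma e_w : W.e (o B.w) i = 1 := by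
  obtain ⟨x, y, hx, hy, hxy⟩ := B.τ1
  have := e_tw hψ hm (B := B) hx
  rwa [e_t hψ hm, one_mul] at this

lemma N5x {j : ZMod 12} (hj : j ≠ 0) : B.xr W i j = 0 := by
  have h1 : W.e (B.P j) i = 0 := by
    have h := congrFun (congrArg W.e (B.P_mul_t j 1)) i
    rw [e_mul, e_t hψ hm, mul_one, map_smul, Pi.smul_apply, mul_one] at h
    have h2 : (1 - α12 j) • W.e (B.P j) i = 0 := by
      rw [sub_smul, one_smul, ← h, sub_self]
    rcases smul_eq_zero.1 h2 with h3 | h3
    · exfalso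
      apply hj
      have h4 : α12 j = α12 0 := by
        rw [AddChar.map_zero_eq_one]
        exact (sub_eq_zero.1 h3).symm
      exact ZMod.injective_stdAddChar h4
    · exact h3
  rw [xr, WD.rk, h1, Matrix.rank_zero]

lemma N5d : W.d i = 1 := by
  apply W.d_eq_one
  have h1 : ∀ g : G, ∃ a b : ℕ, W.e (o g) i = W.e (o B.r1) i ^ a * W.e (o B.r2) i ^ b := by
    intro g
    have hr : ∀ s : B.R, ∃ a b : ℕ,
        W.e (o (B.r s)) i = W.e (o B.r1) i ^ a * W.e (o B.r2) i ^ b := by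
      intro s
      obtain ⟨a, b, h⟩ := B.rgen s
      refine ⟨a, b, ?_⟩
      have hp : ∀ (g : G) (n : ℕ), W.e (o (g ^ n)) i = W.e (o g) i ^ n := by
        intro g n
        induction n with
        | zero => rw [pow_zero, pow_zero, o_one, e_one]
        | succ n ih => rw [pow_succ, pow_succ, o_mul, e_mul, ih]
      rw [h, o_mul, e_mul, hp, hp]
    rcases B.bruhat g with ⟨x, s, l, rfl⟩ | ⟨x, s, l, y, rfl⟩
    · obtain ⟨a, b, h⟩ := hr s
      refine ⟨a, b, ?_⟩
      rw [o_mul, o_mul, e_mul, e_mul, e_u hψ hm, e_t hψ hm, one_mul, mul_one, h]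
    · obtain ⟨a, b, h⟩ := hr s
      refine ⟨a, b, ?_⟩
      simp only [o_mul, e_mul, e_u hψ hm, e_t hψ hm, e_w hψ hm, one_mul, mul_one, h]
  have h2 : Commute (W.e (o B.r1) i) (W.e (o B.r2) i) := by
    obtain ⟨k, hk⟩ := B.r12
    have h3 := congrArg (fun g => W.e (o g) i) hk
    simp only [o_mul, e_mul, e_t hψ hm, mul_one] at h3
    exact h3
  intro g g'
  obtain ⟨a, b, h⟩ := h1 g
  obtain ⟨a', b', h'⟩ := h1 g'
  rw [h, h']
  have c11 : ∀ a a', Commute (W.e (o B.r1) i ^ a) (W.e (o B.r1) i ^ a') :=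
    fun a a' => (Commute.refl _).pow_pow a a'
  have c22 : ∀ a a', Commute (W.e (o B.r2) i ^ a) (W.e (o B.r2) i ^ a') :=
    fun a a' => (Commute.refl _).pow_pow a a'
  have c12 : ∀ a a', Commute (W.e (o B.r1) i ^ a) (W.e (o B.r2) i ^ a') :=
    fun a a' => h2.pow_pow a a'
  exact ((c11 a a').mul_right (c12 a b')).mul_left (((c12 a' b).symm).mul_right (c22 b b'))

end N5

end BData
end Pool.Agent.Lib_helper3
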