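import Mathlib
import Pool.Agent.Lib_helper3.Engine4

open Matrix Module

namespace Pool.Agent.Lib_helper3

lemma span_smul_two {d : ℕ} (M : Matrix (Fin d) (Fin d) ℂ) (S : Finset (Fin d → ℂ))
    (h : ∀ v, M *ᵥ v ∈ Submodule.span ℂ (S : Set (Fin d → ℂ))) : M.rank ≤ S.card := by
  rw [Matrix.rank]
  refine (Submodule.finrank_mono ?_).trans (finrank_span_finset_le_card S)
  rintro _ ⟨v, rfl⟩
  exact h v

namespace BData

variable {G : Type} [Group G] {F : Type} [Field F] [Fintype F] [DecidableEq F]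
  {ψ : AddChar F ℂ} (B : BData G ψ) (W : WD G)

/-- Vectors of block `i` fixed by `U` and the torus. -/
def Fix (i : Fin W.n) (v : Fin (W.d i) → ℂ) : Prop :=
  (∀ x, W.e (o (B.u x)) i *ᵥ v = v) ∧ ∀ k, W.e (o (B.t k)) i *ᵥ v = v

variable {B W}

lemma act_mul (i : Fin W.n) (x y : MonoidAlgebra ℂ G) (v : Fin (W.d i) → ℂ) :
    W.e (x * y) i *ᵥ v = W.e x i *ᵥ (W.e y i *ᵥ v) := by
  rw [e_mul, Matrix.mulVec_mulVec]

lemma Fix.smul_mem {i : Fin W.n} {v : Fin (W.d i) → ℂ} (h : B.Fix W i v) {g : G}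
    (hu : ∀ x, ∃ x', B.u x * g = g * B.u x') (ht : ∀ k, ∃ k', B.t k * g = g * B.t k') :
    B.Fix W i (W.e (o g) i *ᵥ v) := by
  refine ⟨fun x => ?_, fun k => ?_⟩
  · obtain ⟨x', hx'⟩ := hu x
    rw [← act_mul, ← o_mul, hx', o_mul, act_mul, h.1]
  · obtain ⟨k', hk'⟩ := ht k
    rw [← act_mul, ← o_mul, hk', o_mul, act_mul, h.2]

lemma Fix.add {i : Fin W.n} {v v' : Fin (W.d i) → ℂ} (h : B.Fix W i v) (h' : B.Fix W i v') :
    B.Fix W i (v + v') :=
  ⟨fun x => by rw [Matrix.mulVec_add, h.1, h'.1], fun k => by rw [Matrix.mulVec_add, h.2, h'.2]⟩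

lemma Fix.smul {i : Fin W.n} {v : Fin (W.d i) → ℂ} (h : B.Fix W i v) (c : ℂ) :
    B.Fix W i (c • v) :=
  ⟨fun x => by rw [Matrix.mulVec_smul, h.1], fun k => by rw [Matrix.mulVec_smul, h.2]⟩

/-- One step of the construction of a common eigenvector. -/
lemma exists_eig {i : Fin W.n} {v : Fin (W.d i) → ℂ} (hv : v ≠ 0) (h : B.Fix W i v) {g : G}
    (hu : ∀ x, ∃ x', B.u x * g = g * B.u x') (ht : ∀ k, ∃ k', B.t k * g = g * B.t k')
    (hsq : ∃ k, g * g = B.t k) :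
    ∃ ε : ℂ, ε * ε = 1 ∧ v + ε • (W.e (o g) i *ᵥ v) ≠ 0 ∧
      W.e (o g) i *ᵥ (v + ε • (W.e (o g) i *ᵥ v)) = ε • (v + ε • (W.e (o g) i *ᵥ v)) ∧
      B.Fix W i (v + ε • (W.e (o g) i *ᵥ v)) := by
  obtain ⟨k, hk⟩ := hsq
  have hgg : W.e (o g) i *ᵥ (W.e (o g) i *ᵥ v) = v := by
    rw [← act_mul, ← o_mul, hk, h.2]
  have key : ∀ ε : ℂ, ε * ε = 1 →
      W.e (o g) i *ᵥ (v + ε • (W.e (o g) i *ᵥ v)) = ε • (v + ε • (W.e (o g) i *ᵥ v)) := by
    intro ε hε
    rw [Matrix.mulVec_add, Matrix.mulVec_smul, hgg, smul_add, smul_smul, hε, one_smul, add_comm]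
  have hfix : ∀ ε : ℂ, B.Fix W i (v + ε • (W.e (o g) i *ᵥ v)) :=
    fun ε => h.add ((h.smul_mem hu ht).smul ε)
  by_cases h0 : v + (1 : ℂ) • (W.e (o g) i *ᵥ v) = 0
  · refine ⟨-1, by norm_num, ?_, key _ (by norm_num), hfix _⟩
    rw [one_smul] at h0
    have h1 : W.e (o g) i *ᵥ v = -v := (neg_eq_of_add_eq_zero_right h0).symm
    rw [h1, smul_neg, neg_smul, one_smul, neg_neg]
    intro h2
    apply hv
    have h3 : (2 : ℂ) • v = 0 := by rw [two_smul]; exact h2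
    exact (smul_eq_zero.1 h3).resolve_left (by norm_num)
  · exact ⟨1, by norm_num, h0, key _ (by norm_num), hfix _⟩

lemma exists_common_eig {i : Fin W.n} {v : Fin (W.d i) → ℂ} (hv : v ≠ 0) (h : B.Fix W i v) :
    ∃ v' : Fin (W.d i) → ℂ, v' ≠ 0 ∧ B.Fix W i v' ∧
      ∀ s, ∃ ε : ℂ, W.e (o (B.r s)) i *ᵥ v' = ε • v' := by
  obtain ⟨ε1, hε1, hv1, he1, hf1⟩ := exists_eig hv h B.r1u B.r1t B.r1sq
  obtain ⟨v1, hv1def⟩ : ∃ v1, v1 = v + ε1 • (W.e (o B.r1) i *ᵥ v) := ⟨_, rfl⟩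
  rw [← hv1def] at hv1 he1 hf1
  obtain ⟨ε2, hε2, hv2, he2, hf2⟩ := exists_eig hv1 hf1 B.r2u B.r2t B.r2sq
  obtain ⟨v2, hv2def⟩ : ∃ v2, v2 = v1 + ε2 • (W.e (o B.r2) i *ᵥ v1) := ⟨_, rfl⟩
  have h12 : W.e (o B.r1) i *ᵥ v2 = ε1 • v2 := by
    obtain ⟨k, hk⟩ := B.r12
    have : W.e (o B.r1) i *ᵥ (W.e (o B.r2) i *ᵥ v1) = ε1 • (W.e (o B.r2) i *ᵥ v1) := by
      rw [← act_mul, ← o_mul, hk, o_mul, o_mul, act_mul, act_mul, hf1.2, he1,
        Matrix.mulVec_smul]
    rw [hv2def, Matrix.mulVec_add, Matrix.mulVec_smul, this, he1, smul_add, smul_comm]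
  rw [← hv2def] at hv2 he2 hf2
  refine ⟨v2, hv2, hf2, fun s => ?_⟩
  obtain ⟨a, b, hab⟩ := B.rgen s
  have hp : ∀ (g : G) (ε : ℂ), W.e (o g) i *ᵥ v2 = ε • v2 → ∀ n : ℕ,
      W.e (o (g ^ n)) i *ᵥ v2 = ε ^ n • v2 := by
    intro g ε hg n
    induction n with
    | zero => rw [pow_zero, pow_zero, o_one, e_one, Matrix.one_mulVec, one_smul]
    | succ n ih =>
      rw [pow_succ, o_mul, act_mul, hg, Matrix.mulVec_smul, ih, smul_smul, pow_succ, mul_comm]
  refine ⟨ε1 ^ a * ε2 ^ b, ?_⟩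
  rw [hab, o_mul, act_mul, hp _ _ he2, Matrix.mulVec_smul, hp _ _ h12, smul_smul, mul_comm]

lemma Fix.E0 {i : Fin W.n} {v : Fin (W.d i) → ℂ} (h : B.Fix W i v) :
    W.e (B.E 0) i *ᵥ v = v := by
  have h1 : ∀ x : MonoidAlgebra ℂ G, W.e x i *ᵥ v = Matrix.mulVec (W.e x i) v := fun _ => rfl
  rw [E, ide, map_smul, Pi.smul_apply, map_sum, Finset.sum_apply, Matrix.smul_mulVec,
    Matrix.sum_mulVec]
  have h2 : ∀ x : F, W.e (ψ (-(0 * x)) • o (B.u x)) i *ᵥ v = v := by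
    intro x
    rw [map_smul, Pi.smul_apply, Matrix.smul_mulVec, h.1, zero_mul, neg_zero,
      AddChar.map_zero_eq_one, one_smul]
  rw [Finset.sum_congr rfl fun x _ => h2 x, Finset.sum_const, Finset.card_univ,
    ← Nat.cast_smul_eq_nsmul ℂ, smul_smul, inv_mul_cancel₀, one_smul]
  exact_mod_cast Fintype.card_ne_zero

/-- All vectors of the block are reached from a nonzero vector. -/
lemma exists_act (i : Fin W.n) {v : Fin (W.d i) → ℂ} (hv : v ≠ 0) (y : Fin (W.d i) → ℂ) :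
    ∃ x : MonoidAlgebra ℂ G, W.e x i *ᵥ v = y := by
  obtain ⟨k, hk⟩ : ∃ k, v k ≠ 0 := Function.ne_iff.1 hv
  obtain ⟨x, hx⟩ := W.exists_block i (Matrix.of fun a c => if c = k then y a / v k else 0)
  refine ⟨x, ?_⟩
  rw [hx, Pi.single_eq_same]
  funext a
  simp [Matrix.mulVec, dotProduct, hk]

lemma act_E_u (i : Fin W.n) (b x : F) (v : Fin (W.d i) → ℂ) :
    W.e (B.E b) i *ᵥ (W.e (o (B.u x)) i *ᵥ v) = ψ (b * x) • (W.e (B.E b) i *ᵥ v) := by
  rw [← act_mul, B.E_mul_u, map_smul, Pi.smul_apply, Matrix.smul_mulVec]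

variable (B W) in
lemma N6 (hψ : ψ.IsPrimitive) (i : Fin W.n) (hx : 1 ≤ B.xr W i 0) :
    B.mr W i ≤ 1 ∧ ∑ j, B.xr W i j ≤ 2 := by
  classical
  -- a nonzero fixed vector
  obtain ⟨v0, hv0⟩ : ∃ v0, W.e (B.P 0) i *ᵥ v0 ≠ 0 := by
    by_contra h
    push Not at h
    have h0 : W.e (B.P 0) i = 0 := by
      apply Matrix.toLin'.injective
      refine LinearMap.ext fun v => ?_
      rw [Matrix.toLin'_apply, h, map_zero, LinearMap.zero_apply]
    rw [xr, WD.rk, h0, Matrix.rank_zero] at hx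
    omega
  have hfix0 : B.Fix W i (W.e (B.P 0) i *ᵥ v0) := by
    refine ⟨fun x => ?_, fun k => ?_⟩
    · rw [← act_mul, B.u_mul_P]
    · rw [← act_mul, B.t_mul_P, zero_mul, AddChar.map_zero_eq_one, one_smul]
  obtain ⟨v, hv, hfix, heig⟩ := exists_common_eig hv0 hfix0
  have hE1 : W.e (B.E 1) i *ᵥ v = 0 := by
    rw [← hfix.E0, ← act_mul, B.E_mul_E hψ, if_neg one_ne_zero, map_zero, Pi.zero_apply,
      Matrix.zero_mulVec]
  -- the rank of `E 1`
  have h1 : B.mr W i ≤ ({W.e (B.E 1) i *ᵥ (W.e (o B.w) i *ᵥ v)} : Finset _).card := by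
    rw [mr, WD.rk]
    refine span_smul_two _ _ fun y => ?_
    obtain ⟨x, rfl⟩ := exists_act i hv y
    induction x using alg_induction with
    | h1 g =>
      rcases B.bruhat g with ⟨x, s, l, rfl⟩ | ⟨x, s, l, y, rfl⟩
      · obtain ⟨ε, hε⟩ := heig s
        rw [o_mul, o_mul, act_mul, hfix.2, act_mul, hε, Matrix.mulVec_smul, Matrix.mulVec_smul,
          act_E_u, hE1, smul_zero, smul_zero]
        exact Submodule.zero_mem _
      · obtain ⟨ε, hε⟩ := heig s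
        rw [o_mul, o_mul, o_mul, o_mul, act_mul, hfix.1, act_mul, hfix.2, act_mul, hε,
          Matrix.mulVec_smul, Matrix.mulVec_smul, act_mul, act_E_u]
        refine Submodule.smul_mem _ _ (Submodule.smul_mem _ _ (Submodule.subset_span ?_))
        simp
    | hadd x y hx hy =>
      rw [map_add, Pi.add_apply, Matrix.add_mulVec, Matrix.mulVec_add]
      exact Submodule.add_mem _ hx hy
    | hsmul c x hx =>
      rw [map_smul, Pi.smul_apply, Matrix.smul_mulVec, Matrix.mulVec_smul]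
      exact Submodule.smul_mem _ _ hx
  have h2 : W.rk i (B.E 0) ≤ ({v, W.e (B.E 0) i *ᵥ (W.e (o B.w) i *ᵥ v)} : Finset _).card := by
    rw [WD.rk]
    refine span_smul_two _ _ fun y => ?_
    obtain ⟨x, rfl⟩ := exists_act i hv y
    induction x using alg_induction with
    | h1 g =>
      rcases B.bruhat g with ⟨x, s, l, rfl⟩ | ⟨x, s, l, y, rfl⟩
      · obtain ⟨ε, hε⟩ := heig s
        rw [o_mul, o_mul, act_mul, hfix.2, act_mul, hε, Matrix.mulVec_smul, Matrix.mulVec_smul,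
          hfix.1, hfix.E0]
        refine Submodule.smul_mem _ _ (Submodule.subset_span ?_)
        simp
      · obtain ⟨ε, hε⟩ := heig s
        rw [o_mul, o_mul, o_mul, o_mul, act_mul, hfix.1, act_mul, hfix.2, act_mul, hε,
          Matrix.mulVec_smul, Matrix.mulVec_smul, act_mul, act_E_u]
        refine Submodule.smul_mem _ _ (Submodule.smul_mem _ _ (Submodule.subset_span ?_))
        simp
    | hadd x y hx hy =>
      rw [map_add, Pi.add_apply, Matrix.add_mulVec, Matrix.mulVec_add]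
      exact Submodule.add_mem _ hx hy
    | hsmul c x hx =>
      rw [map_smul, Pi.smul_apply, Matrix.smul_mulVec, Matrix.mulVec_smul]
      exact Submodule.smul_mem _ _ hx
  have h3 : ∑ j, B.xr W i j = W.rk i (B.E 0) := by
    have hE : B.E 0 * B.E 0 = B.E 0 := (B.E_mul_E hψ 0 0).trans (if_pos rfl)
    have h4 : ((∑ j, B.xr W i j : ℕ) : ℂ) = (W.rk i (B.E 0) : ℂ) := by
      rw [← W.tr_eq_rk i hE, ← B.sum_P, map_sum, Nat.cast_sum]
      refine Finset.sum_congr rfl fun j _ => ?_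
      exact (W.tr_eq_rk i (B.p_idem hψ (.inl j))).symm
    exact_mod_cast h4
  refine ⟨h1.trans (by simp), ?_⟩
  rw [h3]
  exact h2.trans Finset.card_le_two

variable (B W) in
/-- The trivial representation. -/
lemma N7 [Finite G] (hψ : ψ.IsPrimitive) : ∃ i, B.xr W i 0 = 1 ∧ B.mr W i = 0 := by
  let σ : Representation ℂ G ℂ := 1
  have hone : ∀ g : G, σ.asAlgebraHom (o g) = 1 := by
    intro g
    rw [o, Representation.asAlgebraHom_of]; rfl
  have hfin := W.finrank_eq_sum σ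
  rw [Module.finrank_self] at hfin
  -- exactly one index with multiplicity one
  obtain ⟨i, hi⟩ : ∃ i, W.mult σ i ≠ 0 := by
    by_contra h
    push Not at h
    simp [h] at hfin
  have hle : ∀ k, W.mult σ k ≤ W.mult σ k * W.d k := fun k => Nat.le_mul_of_pos_right _ (W.dpos k)
  have hi1 : W.mult σ i * W.d i ≤ 1 := by
    rw [hfin]
    exact Finset.single_le_sum (f := fun k => W.mult σ k * W.d k) (fun _ _ => Nat.zero_le _)
      (Finset.mem_univ i)
  have hmi : W.mult σ i = 1 := by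
    have := hle i
    omega
  have hother : ∀ k, k ≠ i → W.mult σ k = 0 := by
    intro k hk
    by_contra hk0
    have h2 : W.mult σ i * W.d i + W.mult σ k * W.d k ≤ 1 := by
      rw [hfin, ← Finset.add_sum_erase Finset.univ _ (Finset.mem_univ i)]
      refine Nat.add_le_add_left ?_ _
      exact Finset.single_le_sum (f := fun k => W.mult σ k * W.d k) (fun _ _ => Nat.zero_le _)
        (Finset.mem_erase.2 ⟨hk, Finset.mem_univ k⟩)
    have := hle i
    have := hle k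
    omega
  have htr : ∀ x : MonoidAlgebra ℂ G, W.tr i x = LinearMap.trace ℂ ℂ (σ.asAlgebraHom x) := by
    intro x
    rw [W.trace_asAlgebraHom σ x, Finset.sum_eq_single i, hmi, Nat.cast_one, one_mul]
    · intro k _ hk
      rw [hother k hk, Nat.cast_zero, zero_mul]
    · simp
  have hide : ∀ (V : Type) [CommRing V] [Fintype V] [DecidableEq V] (χ : AddChar V ℂ)
      (hχ : χ.IsPrimitive) (v : V → G) (b : V),
      σ.asAlgebraHom (ide χ v b) = if b = 0 then 1 else 0 := by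
    intro V _ _ _ χ hχ v b
    rw [ide, map_smul, map_sum]
    have h3 : ∀ x : V, σ.asAlgebraHom (χ (-(b * x)) • o (v x)) = χ (x * (-b)) • 1 := by
      intro x
      rw [map_smul, hone]
      congr 2
      ring
    rw [Finset.sum_congr rfl fun x _ => h3 x, ← Finset.sum_smul, AddChar.sum_mulShift _ hχ,
      smul_smul]
    by_cases hb : b = 0
    · rw [if_pos (by rw [hb, neg_zero]), if_pos hb, inv_mul_cancel₀, one_smul]
      exact_mod_cast Fintype.card_ne_zero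
    · rw [if_neg (by simpa using hb), if_neg hb, Nat.cast_zero, mul_zero, zero_smul]
  refine ⟨i, ?_, ?_⟩
  · have h4 : (B.xr W i 0 : ℂ) = 1 := by
      rw [xr, ← W.tr_eq_rk i (x := B.P 0) (B.p_idem hψ (.inl 0)), htr, P, map_mul, E, f, hide F ψ hψ B.u 0, hide _ α12 α12_primitive B.t 0, if_pos rfl,
        if_pos rfl, one_mul, LinearMap.trace_one, Module.finrank_self, Nat.cast_one]
    exact_mod_cast h4
  · have h4 : (B.mr W i : ℂ) = 0 := by
      rw [mr, ← W.tr_eq_rk i (x := B.E 1) (B.p_idem hψ (.inr one')), htr, E, hide F ψ hψ B.u 1, if_neg one_ne_zero, map_zero]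
    exact_mod_cast h4

end BData
end Pool.Agent.Lib_helper3
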