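import Mathlib
import Pool.Agent.Lib_helper3.Engine5

/-!
The Hecke algebra of a nondegenerate character of `U` is commutative for the index two subgroup,
hence the multiplicities `mr` are at most two.
-/

open Matrix Module

namespace Pool.Agent.Lib_helper3
namespace BData

variable {G : Type} [Group G] {F : Type} [Field F] [Fintype F] [DecidableEq F]
  {ψ : AddChar F ℂ} {B : BData G ψ} {W : WD G}

/-- Additional data: a full torus inside a subgroup of index two. -/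
structure CData (B : BData G ψ) where
  mm : F → G
  phi : G
  σ : F → F
  mm_mul : ∀ a b, a ≠ 0 → b ≠ 0 → mm (a * b) = mm a * mm b
  mu : ∀ a x, a ≠ 0 → mm a * B.u x = B.u (a * x) * mm a
  wm : ∀ a, a ≠ 0 → B.w * mm a = mm a⁻¹ * B.w
  wuw' : ∀ x, x ≠ 0 → B.w * B.u x * B.w = B.u x⁻¹ * mm (-(x * x)⁻¹) * B.w * B.u x⁻¹
  phiu : ∀ x, phi * B.u x = B.u (σ x) * phi
  σbij : Function.Bijective σ
  ψσ : ∀ x, ψ (σ x) = ψ x
  cover : ∀ g, ∃ p, (g = p ∨ g = phi * p) ∧
    ((∃ x a, a ≠ 0 ∧ p = B.u x * mm a) ∨ ∃ x a y, a ≠ 0 ∧ p = B.u x * B.w * mm a * B.u y)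

namespace CData

variable (C : CData B)

lemma mm_one : C.mm 1 = 1 := by
  have h := C.mm_mul 1 1 one_ne_zero one_ne_zero
  rw [mul_one] at h
  exact (left_eq_mul.1 h)

/-- The Hecke operators. -/
noncomputable def T (a : F) : MonoidAlgebra ℂ G := B.E 1 * o (B.w * C.mm a) * B.E 1

lemma E_mul_mm (b a : F) (ha : a ≠ 0) : B.E b * o (C.mm a) = o (C.mm a) * B.E (a * b) :=
  ide_mul_o_conj (ρ := fun x => a * x) (mulLeft_bijective₀ _ ha) (fun x => C.mu a x ha)
    (fun x => by congr 1; ring)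

lemma E_mul_phi : B.E 1 * o C.phi = o C.phi * B.E 1 :=
  ide_mul_o_conj (ρ := C.σ) C.σbij C.phiu (fun x => by rw [one_mul, one_mul, C.ψσ])

lemma E_mm_E (hψ : ψ.IsPrimitive) (a : F) (ha : a ≠ 0) :
    B.E 1 * o (C.mm a) * B.E 1 = if a = 1 then B.E 1 else 0 := by
  rw [C.E_mul_mm _ _ ha, mul_assoc, B.E_mul_E hψ, mul_one]
  split_ifs with h
  · rw [h, C.mm_one, o_one, one_mul]
  · rw [mul_zero]

lemma um (x a : F) (ha : a ≠ 0) : B.u x * C.mm a = C.mm a * B.u (a⁻¹ * x) := by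
  rw [C.mu a _ ha, ← mul_assoc, mul_inv_cancel₀ ha, one_mul]

lemma key {a b y : F} (ha : a ≠ 0) (hb : b ≠ 0) (hy : y ≠ 0) :
    B.w * C.mm a * B.u y * (B.w * C.mm b)
      = B.u (a * y)⁻¹ * (B.w * C.mm (-(a * b * y * y))) * B.u (b * y)⁻¹ := by
  have hay : a * y ≠ 0 := mul_ne_zero ha hy
  have hc : -((a * y) * (a * y))⁻¹ ≠ 0 := neg_ne_zero.2 (inv_ne_zero (mul_ne_zero hay hay))
  have hc' : -((a * y) * (a * y)) ≠ 0 := neg_ne_zero.2 (mul_ne_zero hay hay)
  have hai : a⁻¹ ≠ 0 := inv_ne_zero ha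
  have hab : a⁻¹ * b ≠ 0 := mul_ne_zero hai hb
  calc B.w * C.mm a * B.u y * (B.w * C.mm b)
      = B.w * (C.mm a * B.u y) * B.w * C.mm b := by simp only [mul_assoc]
    _ = B.w * B.u (a * y) * (C.mm a * B.w) * C.mm b := by
        rw [C.mu a _ ha]; simp only [mul_assoc]
    _ = B.w * B.u (a * y) * (B.w * C.mm a⁻¹) * C.mm b := by
        rw [C.wm _ hai, inv_inv]
    _ = (B.w * B.u (a * y) * B.w) * (C.mm (a⁻¹ * b)) := by
        rw [C.mm_mul _ _ hai hb]; simp only [mul_assoc]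
    _ = B.u (a * y)⁻¹ * (C.mm (-((a * y) * (a * y))⁻¹) * B.w) * (B.u (a * y)⁻¹
          * C.mm (a⁻¹ * b)) := by
        rw [C.wuw' _ hay]; simp only [mul_assoc]
    _ = B.u (a * y)⁻¹ * (B.w * C.mm (-((a * y) * (a * y)))) * (C.mm (a⁻¹ * b)
          * B.u (b * y)⁻¹) := by
        rw [C.wm _ hc', C.um _ _ hab, inv_neg]
        congr 3
        field_simp
    _ = B.u (a * y)⁻¹ * (B.w * (C.mm (-((a * y) * (a * y))) * C.mm (a⁻¹ * b)))
          * B.u (b * y)⁻¹ := by simp only [mul_assoc]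
    _ = _ := by
        rw [← C.mm_mul _ _ hc' hab]
        congr 5
        field_simp

lemma T_mul_T (hψ : ψ.IsPrimitive) {a b : F} (ha : a ≠ 0) (hb : b ≠ 0) :
    C.T a * C.T b = ((Fintype.card F : ℂ)⁻¹) • ((if a = b then B.E 1 else 0) +
      ∑ y ∈ Finset.univ.erase (0 : F), ψ (-(1 * y)) • ((ψ (a * y)⁻¹ * ψ (b * y)⁻¹) •
        C.T (-(a * b * y * y)))) := by
  have h0 : C.T a * C.T b
      = B.E 1 * o (B.w * C.mm a) * B.E 1 * (o (B.w * C.mm b) * B.E 1) := by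
    simp only [T]
    rw [mul_assoc _ (B.E 1) (B.E 1 * o (B.w * C.mm b) * B.E 1), mul_assoc (B.E 1) (o _) (B.E 1),
      ← mul_assoc (B.E 1) (B.E 1) _, B.E_mul_E hψ, if_pos rfl]
    simp only [mul_assoc]
  have h1 : C.T a * C.T b = ((Fintype.card F : ℂ)⁻¹) • ∑ y, ψ (-(1 * y)) •
      (B.E 1 * o (B.w * C.mm a * B.u y * (B.w * C.mm b)) * B.E 1) := by
    rw [h0]
    have h2 : B.E 1 * o (B.w * C.mm a) * B.E 1 = B.E 1 * o (B.w * C.mm a) *
        (((Fintype.card F : ℂ)⁻¹) • ∑ y, ψ (-(1 * y)) • o (B.u y)) := rfl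
    rw [h2, mul_smul_comm, smul_mul_assoc, Finset.mul_sum, Finset.sum_mul]
    congr 1
    refine Finset.sum_congr rfl fun y _ => ?_
    rw [mul_smul_comm, smul_mul_assoc, o_mul _ (B.w * C.mm b), o_mul (B.w * C.mm a)]
    simp only [mul_assoc]
  rw [h1, ← Finset.add_sum_erase Finset.univ _ (Finset.mem_univ (0 : F))]
  congr 2
  · rw [mul_zero, neg_zero, AddChar.map_zero_eq_one, one_smul, B.u_zero, mul_one]
    have h3 : B.w * C.mm a * (B.w * C.mm b) = C.mm (a⁻¹ * b) := by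
      rw [C.wm a ha, mul_assoc, ← mul_assoc B.w B.w, B.ww, one_mul,
        C.mm_mul _ _ (inv_ne_zero ha) hb]
    rw [h3, C.E_mm_E hψ _ (mul_ne_zero (inv_ne_zero ha) hb)]
    have h4 : a⁻¹ * b = 1 ↔ a = b := by
      rw [inv_mul_eq_one₀ ha]
    simp only [h4]
  · refine Finset.sum_congr rfl fun y hy => ?_
    have hy' : y ≠ 0 := Finset.ne_of_mem_erase hy
    congr 1
    rw [C.key ha hb hy', o_mul, o_mul, ← mul_assoc, ← mul_assoc, B.E_mul_u, smul_mul_assoc,
      smul_mul_assoc, smul_mul_assoc, mul_assoc _ (o (B.u _)), B.u_mul_E, mul_smul_comm,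
      smul_smul, one_mul, one_mul]
    rfl

lemma T_comm (hψ : ψ.IsPrimitive) {a b : F} (ha : a ≠ 0) (hb : b ≠ 0) :
    C.T a * C.T b = C.T b * C.T a := by
  rw [C.T_mul_T hψ ha hb, C.T_mul_T hψ hb ha]
  refine congrArg _ (congrArg₂ _ ?_ ?_)
  · by_cases h : a = b
    · rw [h]
    · rw [if_neg h, if_neg (fun h' => h h'.symm)]
  · refine Finset.sum_congr rfl fun y _ => ?_
    rw [mul_comm (ψ (a * y)⁻¹), mul_comm a b]

lemma E_mul_T (hψ : ψ.IsPrimitive) (a : F) : B.E 1 * C.T a = C.T a := by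
  rw [T, ← mul_assoc, ← mul_assoc, B.E_mul_E hψ, if_pos rfl]

/-- A common eigenvector for the Hecke operators. -/
lemma exists_eig_T (hψ : ψ.IsPrimitive) (i : Fin W.n) (hm : 1 ≤ B.mr W i) (S : Finset F)
    (hS : ∀ a ∈ S, a ≠ 0) :
    ∃ (lam : F → ℂ) (v : Fin (W.d i) → ℂ), v ≠ 0 ∧ W.e (B.E 1) i *ᵥ v = v ∧
      ∀ a ∈ S, W.e (C.T a) i *ᵥ v = lam a • v := by
  classical
  induction S using Finset.induction_on with
  | empty =>
    obtain ⟨v0, hv0⟩ : ∃ v0, W.e (B.E 1) i *ᵥ v0 ≠ 0 := by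
      by_contra h
      push Not at h
      have h0 : W.e (B.E 1) i = 0 := by
        apply Matrix.toLin'.injective
        refine LinearMap.ext fun v => ?_
        rw [Matrix.toLin'_apply, h, map_zero, LinearMap.zero_apply]
      rw [mr, WD.rk, h0, Matrix.rank_zero] at hm
      omega
    refine ⟨fun _ => 0, _, hv0, ?_, by simp⟩
    rw [← act_mul, B.E_mul_E hψ, if_pos rfl]
  | insert b S hb ih =>
    obtain ⟨lam, v, hv, hE, hT⟩ := ih (fun a ha => hS a (Finset.mem_insert_of_mem ha))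
    have hb0 : b ≠ 0 := hS b (Finset.mem_insert_self b S)
    let N : Submodule ℂ (Fin (W.d i) → ℂ) :=
      { carrier := {v | W.e (B.E 1) i *ᵥ v = v ∧ ∀ a ∈ S, W.e (C.T a) i *ᵥ v = lam a • v}
        add_mem' := by
          rintro v v' ⟨h1, h2⟩ ⟨h1', h2'⟩
          refine ⟨by rw [Matrix.mulVec_add, h1, h1'], fun a ha => ?_⟩
          rw [Matrix.mulVec_add, h2 a ha, h2' a ha, smul_add]
        zero_mem' := ⟨by simp, fun a _ => by simp⟩
        smul_mem' := by
          rintro c v ⟨h1, h2⟩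
          refine ⟨by rw [Matrix.mulVec_smul, h1], fun a ha => ?_⟩
          rw [Matrix.mulVec_smul, h2 a ha, smul_comm] }
    have hvN : v ∈ N := ⟨hE, hT⟩
    have hnt : Nontrivial N := ⟨⟨v, hvN⟩, 0, fun h => hv (congrArg Subtype.val h)⟩
    have hstab : ∀ v ∈ N, Matrix.toLin' (W.e (C.T b) i) v ∈ N := by
      rintro v ⟨h1, h2⟩
      rw [Matrix.toLin'_apply]
      refine ⟨by rw [← act_mul, C.E_mul_T hψ], fun a ha => ?_⟩
      rw [← act_mul, C.T_comm hψ (hS a (Finset.mem_insert_of_mem ha)) hb0, act_mul, h2 a ha,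
        Matrix.mulVec_smul]
    obtain ⟨μ, hμ⟩ := Module.End.exists_eigenvalue
      (K := ℂ) (V := N) ((Matrix.toLin' (W.e (C.T b) i)).restrict hstab)
    obtain ⟨v', hv'⟩ := hμ.exists_hasEigenvector
    have hne : v' ≠ 0 := hv'.2
    have heq := hv'.apply_eq_smul
    have heq2 : W.e (C.T b) i *ᵥ (v' : Fin (W.d i) → ℂ) = μ • (v' : Fin (W.d i) → ℂ) := by
      have := congrArg Subtype.val heq
      simpa [Matrix.toLin'_apply] using this
    refine ⟨Function.update lam b μ, v', fun h => hne (Subtype.ext h), v'.2.1, fun a ha => ?_⟩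
    rcases Finset.mem_insert.1 ha with rfl | ha'
    · rw [Function.update_self, heq2]
    · have hne : a ≠ b := fun h => hb (by rw [← h]; exact ha')
      rw [Function.update_of_ne hne, v'.2.2 a ha']

include C in
/-- The multiplicities are at most two. -/
lemma N8 (hψ : ψ.IsPrimitive) (i : Fin W.n) : B.mr W i ≤ 2 := by
  classical
  rcases Nat.eq_zero_or_pos (B.mr W i) with h0 | h0
  · omega
  obtain ⟨lam, v, hv, hE, hT⟩ := C.exists_eig_T hψ i h0 (Finset.univ.erase (0 : F))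
    (fun a ha => Finset.ne_of_mem_erase ha)
  have hp : ∀ p, ((∃ x a, a ≠ 0 ∧ p = B.u x * C.mm a) ∨
      ∃ x a y, a ≠ 0 ∧ p = B.u x * B.w * C.mm a * B.u y) →
      ∃ μ : ℂ, W.e (B.E 1) i *ᵥ (W.e (o p) i *ᵥ v) = μ • v := by
    intro p hp
    have h1 : W.e (B.E 1) i *ᵥ (W.e (o p) i *ᵥ v) = W.e (B.E 1 * o p * B.E 1) i *ᵥ v := by
      rw [act_mul, hE, act_mul]
    rw [h1]
    rcases hp with ⟨x, a, ha, rfl⟩ | ⟨x, a, y, ha, rfl⟩
    · rw [o_mul, ← mul_assoc, B.E_mul_u, smul_mul_assoc, smul_mul_assoc, C.E_mm_E hψ a ha,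
        map_smul, Pi.smul_apply, Matrix.smul_mulVec]
      split_ifs
      · exact ⟨_, by rw [hE]⟩
      · exact ⟨0, by rw [map_zero, Pi.zero_apply, Matrix.zero_mulVec, smul_zero, zero_smul]⟩
    · refine ⟨ψ (1 * y) * (ψ (1 * x) * lam a), ?_⟩
      have h2 : B.E 1 * o (B.u x * B.w * C.mm a * B.u y) * B.E 1
          = ψ (1 * y) • (ψ (1 * x) • C.T a) := by
        rw [mul_assoc (B.u x), o_mul _ (B.u y), o_mul (B.u x), mul_assoc (B.E 1),
          mul_assoc _ (o (B.u y)), B.u_mul_E, mul_smul_comm, mul_smul_comm, ← mul_assoc,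
          ← mul_assoc, B.E_mul_u, smul_mul_assoc, smul_mul_assoc]
        rfl
      rw [h2, map_smul, map_smul, Pi.smul_apply, Pi.smul_apply, Matrix.smul_mulVec,
        Matrix.smul_mulVec, hT a (Finset.mem_erase.2 ⟨ha, Finset.mem_univ a⟩), smul_smul,
        smul_smul, mul_assoc]
  have h1 : B.mr W i ≤ ({v, W.e (o C.phi) i *ᵥ v} : Finset _).card := by
    rw [mr, WD.rk]
    refine span_smul_two _ _ fun y => ?_
    obtain ⟨x, rfl⟩ := exists_act i hv y
    induction x using alg_induction with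
    | h1 g =>
      obtain ⟨p, hg, hp'⟩ := C.cover g
      obtain ⟨μ, hμ⟩ := hp p hp'
      rcases hg with rfl | rfl
      · rw [hμ]
        refine Submodule.smul_mem _ _ (Submodule.subset_span ?_)
        simp
      · rw [o_mul, act_mul, ← act_mul, C.E_mul_phi, act_mul, hμ, Matrix.mulVec_smul]
        refine Submodule.smul_mem _ _ (Submodule.subset_span ?_)
        simp
    | hadd x y hx hy =>
      rw [map_add, Pi.add_apply, Matrix.add_mulVec, Matrix.mulVec_add]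
      exact Submodule.add_mem _ hx hy
    | hsmul c x hx =>
      rw [map_smul, Pi.smul_apply, Matrix.smul_mulVec, Matrix.mulVec_smul]
      exact Submodule.smul_mem _ _ hx
  exact h1.trans Finset.card_le_two

end CData
end BData
end Pool.Agent.Lib_helper3
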