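import Mathlib

/-!
Purely numerical part of the classification of degrees.
-/

namespace Pool.Agent.Lib_helper3

/-- Incidence numbers of the orbits of `{±1, ±5}` on `ZMod 12`. -/
def ee (j k : ZMod 12) : ℕ :=
  (if k = j then 1 else 0) + (if k = 5 * j then 1 else 0) + (if k = -j then 1 else 0)
    + (if k = -(5 * j) then 1 else 0)

lemma ee_cases (j : ZMod 12) : ee j j = 1 ∨ ee j j = 2 ∨ ee j j = 4 := by
  revert j; decide

lemma ee_same (j k : ZMod 12) : ee j k = 0 ∨ (ee j k = ee j j ∧ ee k k = ee j j) := by
  revert j k; decide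

lemma ee_card (j : ZMod 12) : (Finset.univ.filter fun k => ee j k ≠ 0).card * ee j j = 4 := by
  revert j; decide

lemma ee_zero (k : ZMod 12) (hk : k ≠ 0) : ee 0 k = 0 := by
  revert k; decide

lemma ee_zero_zero : ee 0 0 = 4 := by decide

section

variable {ι : Type} [Fintype ι]

lemma term_le {f : ι → ℕ} {T : ℕ} (h : ∑ i, f i = T) (i : ι) : f i ≤ T := by
  rw [← h]; exact Finset.single_le_sum (fun _ _ => Nat.zero_le _) (Finset.mem_univ i)

lemma two_terms_le [DecidableEq ι] {f : ι → ℕ} {T : ℕ} (h : ∑ i, f i = T) {i k : ι}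
    (hik : k ≠ i) : f i + f k ≤ T := by
  rw [← h, ← Finset.add_sum_erase Finset.univ _ (Finset.mem_univ i)]
  refine Nat.add_le_add_left ?_ _
  exact Finset.single_le_sum (f := f) (fun _ _ => Nat.zero_le _)
    (Finset.mem_erase.2 ⟨hik, Finset.mem_univ k⟩)

lemma eq_of_sum_eq {f g : ι → ℕ} (hle : ∀ i, f i ≤ g i) (h : ∑ i, f i = ∑ i, g i) (i : ι) :
    f i = g i :=
  (Finset.sum_eq_sum_iff_of_le (fun i _ => hle i)).1 h i (Finset.mem_univ i)

lemma num {c e : ℕ} (hc : c = 1 ∨ c = 2) (he : e = 1 ∨ e = 2 ∨ e = 4) {y m : ι → ℕ}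
    (h1 : ∑ i, y i * y i = c * e) (h2 : ∑ i, m i * y i = 2 * c)
    (h3 : ∀ i, 1 ≤ y i → 1 ≤ m i) (h4 : c = 2 → ∀ i, m i ≤ 2) (i : ι) (hi : 1 ≤ y i) :
    (e = 1 ∧ y i = 1 ∧ m i = 2) ∨ (e = 2 ∧ ((y i = 1 ∧ m i = 1) ∨ (y i = 2 ∧ m i = 2 ∧ c = 2)))
      ∨ (e = 4 ∧ y i = 2 ∧ m i = 1) := by
  classical
  have hyle := fun k => term_le h1 k
  rcases he with rfl | rfl | rfl
  · left
    rcases hc with rfl | rfl
    · -- c = 1
      have hyi : y i = 1 := by have := hyle i; nlinarith
      have hother : ∀ k, k ≠ i → y k = 0 := by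
        intro k hk
        have := two_terms_le h1 hk
        rw [hyi] at this
        nlinarith [Nat.zero_le (y k)]
      rw [Finset.sum_eq_single i (fun k _ hk => by rw [hother k hk, mul_zero]) (by simp),
        hyi] at h2
      exact ⟨rfl, hyi, by omega⟩
    · have h5 : ∀ k, m k * y k ≤ 2 * (y k * y k) := by
        intro k
        have := h4 rfl k
        nlinarith [Nat.zero_le (y k), Nat.le_mul_self (y k)]
      have h6 := eq_of_sum_eq h5 (by rw [h2, ← Finset.mul_sum, h1]) i
      have h7 := h4 rfl i
      have h8 := hyle i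
      have hyi : y i = 1 := by nlinarith
      rw [hyi] at h6
      exact ⟨rfl, hyi, by omega⟩
  · right; left
    refine ⟨rfl, ?_⟩
    by_cases h2' : y i = 2
    · right
      have h8 := hyle i
      rw [h2'] at h8
      have hc2 : c = 2 := by omega
      have hother : ∀ k, k ≠ i → y k = 0 := by
        intro k hk
        have := two_terms_le h1 hk
        rw [h2', hc2] at this
        nlinarith [Nat.zero_le (y k)]
      rw [Finset.sum_eq_single i (fun k _ hk => by rw [hother k hk, mul_zero]) (by simp),
        h2'] at h2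
      exact ⟨h2', by omega, hc2⟩
    · left
      have hyi : y i = 1 := by
        have h8 := hyle i
        have hc2 : c ≤ 2 := by omega
        have : y i ≤ 2 := by
          by_contra h
          have : 3 ≤ y i := by omega
          nlinarith
        omega
      have hall : ∀ k, y k ≤ 1 := by
        intro k
        by_cases hk : k = i
        · rw [hk, hyi]
        · have := two_terms_le h1 hk
          rw [hyi] at this
          by_contra h
          have hc2 : c ≤ 2 := by omega
          have : 2 ≤ y k := by omega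
          nlinarith
      have h5 : ∀ k, y k * y k ≤ m k * y k := by
        intro k
        have h6 := hall k
        rcases Nat.eq_zero_or_pos (y k) with h7 | h7
        · rw [h7]; simp
        · have := h3 k h7
          nlinarith
      have h6 := eq_of_sum_eq h5 (by rw [h1, h2]; ring) i
      rw [hyi] at h6
      exact ⟨hyi, by omega⟩
  · right; right
    have h5 : ∀ k, y k ≤ 2 := by
      intro k
      by_contra h
      have hc2 : c ≤ 2 := by omega
      have : 3 ≤ y k := by omega
      have := hyle k
      nlinarith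
    have h6 : ∀ k, y k * y k ≤ 2 * (m k * y k) := by
      intro k
      have h6 := h5 k
      rcases Nat.eq_zero_or_pos (y k) with h7 | h7
      · rw [h7]; simp
      · have := h3 k h7
        nlinarith
    have h7 := eq_of_sum_eq h6 (by rw [h1, ← Finset.mul_sum, h2]; ring) i
    have h8 := h5 i
    have h9 := h3 i hi
    have hy2 : y i = 2 := by nlinarith
    rw [hy2] at h7
    exact ⟨rfl, hy2, by omega⟩

lemma three_squares {S : Finset ι} {f : ι → ℕ} (hS : S.card ≤ 3)
    (hsum : ∑ i ∈ S, f i * f i = 12) : ∀ i ∈ S, f i = 2 := by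
  classical
  have hle : ∀ i ∈ S, f i ≤ 3 := by
    intro i hi
    have h := Finset.single_le_sum (f := fun i => f i * f i) (fun _ _ => Nat.zero_le _) hi
    rw [hsum] at h
    by_contra h2
    have : 4 ≤ f i := by omega
    nlinarith
  have hcard : S.card = 0 ∨ S.card = 1 ∨ S.card = 2 ∨ S.card = 3 := by omega
  rcases hcard with h | h | h | h
  · rw [Finset.card_eq_zero] at h
    subst h
    simp at hsum
  · obtain ⟨a, rfl⟩ := Finset.card_eq_one.1 h
    rw [Finset.sum_singleton] at hsum
    have ha := hle a (by simp)
    interval_cases f a <;> omega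
  · obtain ⟨a, b, hab, rfl⟩ := Finset.card_eq_two.1 h
    rw [Finset.sum_pair hab] at hsum
    have ha := hle a (by simp)
    have hb := hle b (by simp)
    interval_cases f a <;> interval_cases f b <;> omega
  · obtain ⟨a, b, c, hab, hac, hbc, rfl⟩ := Finset.card_eq_three.1 h
    rw [Finset.sum_insert (by simp [hab, hac]), Finset.sum_pair hbc] at hsum
    have ha := hle a (by simp)
    have hb := hle b (by simp)
    have hc := hle c (by simp)
    intro i hi
    simp only [Finset.mem_insert, Finset.mem_singleton] at hi
    have key : f a = 2 ∧ f b = 2 ∧ f c = 2 := by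
      generalize f a = u at *
      generalize f b = v at *
      generalize f c = w at *
      interval_cases u <;> interval_cases v <;> interval_cases w <;> omega
    rcases hi with rfl | rfl | rfl
    · exact key.1
    · exact key.2.1
    · exact key.2.2

end

end Pool.Agent.Lib_helper3
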