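import Mathlib
import Pool.Agent.Lib_helper3.Numeric

/-!
Numerical consequences of the dimension counts.
-/

namespace Pool.Agent.Lib_helper3

/-- Numerical data attached to the irreducible representations. -/
structure NumData {ι : Type} [Fintype ι] (c : ℕ) (x : ι → ZMod 12 → ℕ) (m : ι → ℕ) : Prop where
  hc : c = 1 ∨ c = 2
  n1 : ∀ j k, ∑ i, x i j * x i k = c * ee j k
  n2 : ∀ j, ∑ i, m i * x i j = 2 * c
  n3 : ∑ i, m i * m i = 25 * c
  n5 : ∀ i, m i = 0 → ∀ j, j ≠ 0 → x i j = 0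
  n5' : ∀ i, m i = 0 → ∑ j, x i j = 1
  n6 : ∀ i, 1 ≤ x i 0 → m i ≤ 1 ∧ ∑ j, x i j ≤ 2
  n7 : ∃ i, x i 0 = 1 ∧ m i = 0
  n8 : c = 2 → ∀ i, m i ≤ 2

namespace NumData

variable {ι : Type} [Fintype ι] {c : ℕ} {x : ι → ZMod 12 → ℕ} {m : ι → ℕ}
  (h : NumData c x m)
include h

lemma zero_of_ee {j k : ZMod 12} (hjk : ee j k = 0) {i : ι} (hi : 1 ≤ x i j) : x i k = 0 := by
  have h1 := h.n1 j k
  rw [hjk, mul_zero] at h1
  have h2 := (Finset.sum_eq_zero_iff.1 h1) i (Finset.mem_univ i)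
  rcases Nat.mul_eq_zero.1 h2 with h3 | h3
  · omega
  · exact h3

lemma eq_of_ee {j k : ZMod 12} (hjk : ee j k ≠ 0) (i : ι) : x i k = x i j := by
  obtain ⟨e1, e2⟩ := (ee_same j k).resolve_left hjk
  have h1 : ∑ i, ((x i j : ℤ) - x i k) * ((x i j : ℤ) - x i k) = 0 := by
    have a1 : (∑ i, (x i j : ℤ) * x i j) = c * ee j j := by exact_mod_cast h.n1 j j
    have a2 : (∑ i, (x i j : ℤ) * x i k) = c * ee j k := by exact_mod_cast h.n1 j k
    have a3 : (∑ i, (x i k : ℤ) * x i k) = c * ee k k := by exact_mod_cast h.n1 k k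
    have : ∑ i, ((x i j : ℤ) - x i k) * ((x i j : ℤ) - x i k)
        = (∑ i, (x i j : ℤ) * x i j) - 2 * (∑ i, (x i j : ℤ) * x i k)
          + (∑ i, (x i k : ℤ) * x i k) := by
      rw [Finset.mul_sum, ← Finset.sum_sub_distrib, ← Finset.sum_add_distrib]
      refine Finset.sum_congr rfl fun i _ => ?_
      ring
    rw [this, a1, a2, a3, e1, e2]
    ring
  have h2 := (Finset.sum_eq_zero_iff_of_nonneg (fun i _ => mul_self_nonneg _)).1 h1 i
    (Finset.mem_univ i)
  have h3 := mul_self_eq_zero.1 h2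
  omega

lemma x_eq {i : ι} {j : ZMod 12} (hi : 1 ≤ x i j) (k : ZMod 12) :
    x i k = if ee j k ≠ 0 then x i j else 0 := by
  split_ifs with hk
  · exact h.eq_of_ee hk i
  · exact h.zero_of_ee (not_not.1 hk) hi

lemma sum_x {i : ι} {j : ZMod 12} (hi : 1 ≤ x i j) :
    ∑ k, x i k = (Finset.univ.filter fun k => ee j k ≠ 0).card * x i j := by
  rw [Finset.sum_congr rfl fun k _ => h.x_eq hi k, ← Finset.sum_filter, Finset.sum_const,
    smul_eq_mul]

lemma num' {j : ZMod 12} (hj : j ≠ 0) {i : ι} (hi : 1 ≤ x i j) :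
    (ee j j = 1 ∧ x i j = 1 ∧ m i = 2) ∨
    (ee j j = 2 ∧ ((x i j = 1 ∧ m i = 1) ∨ (x i j = 2 ∧ m i = 2 ∧ c = 2)))
      ∨ (ee j j = 4 ∧ x i j = 2 ∧ m i = 1) := by
  refine num (y := fun i => x i j) (m := m) h.hc (ee_cases j) (h.n1 j j) (h.n2 j) ?_ h.n8 i hi
  intro i hi
  by_contra h0
  have := h.n5 i (by omega) j hj
  change 1 ≤ x i j at hi
  omega

lemma nc_cases {i : ι} {j : ZMod 12} (hi : 1 ≤ x i j) :
    (m i = 0 ∧ ∑ k, x i k = 1) ∨ (m i = 1 ∧ ∑ k, x i k = 1) ∨ (m i = 1 ∧ ∑ k, x i k = 2) ∨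
      (m i = 2 ∧ ∑ k, x i k = 4) := by
  have hs := h.sum_x hi
  have hcard := ee_card j
  by_cases hj : j = 0
  · subst hj
    obtain ⟨h1, h2⟩ := h.n6 i hi
    by_cases hm : m i = 0
    · exact Or.inl ⟨hm, h.n5' i hm⟩
    · have hm1 : m i = 1 := by omega
      rw [ee_zero_zero] at hcard
      have hc1 : (Finset.univ.filter fun k => ee 0 k ≠ 0).card = 1 := by omega
      rw [hc1, one_mul] at hs
      have : ∑ k, x i k = 1 ∨ ∑ k, x i k = 2 := by omega
      rcases this with h3 | h3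
      · exact Or.inr (Or.inl ⟨hm1, h3⟩)
      · exact Or.inr (Or.inr (Or.inl ⟨hm1, h3⟩))
  · rcases h.num' hj hi with ⟨e, hx, hm⟩ | ⟨e, ⟨hx, hm⟩ | ⟨hx, hm, -⟩⟩ | ⟨e, hx, hm⟩
    · rw [e] at hcard
      have hc1 : (Finset.univ.filter fun k => ee j k ≠ 0).card = 4 := by omega
      rw [hc1, hx] at hs
      exact Or.inr (Or.inr (Or.inr ⟨hm, hs⟩))
    · rw [e] at hcard
      have hc1 : (Finset.univ.filter fun k => ee j k ≠ 0).card = 2 := by omega
      rw [hc1, hx] at hs
      exact Or.inr (Or.inr (Or.inl ⟨hm, hs⟩))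
    · rw [e] at hcard
      have hc1 : (Finset.univ.filter fun k => ee j k ≠ 0).card = 2 := by omega
      rw [hc1, hx] at hs
      exact Or.inr (Or.inr (Or.inr ⟨hm, hs⟩))
    · rw [e] at hcard
      have hc1 : (Finset.univ.filter fun k => ee j k ≠ 0).card = 1 := by omega
      rw [hc1, hx] at hs
      exact Or.inr (Or.inr (Or.inl ⟨hm, hs⟩))

lemma exists_pos (j : ZMod 12) : ∃ i, 1 ≤ x i j := by
  by_contra hcon
  push Not at hcon
  have h1 := h.n2 j
  rw [Finset.sum_eq_zero] at h1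
  · have := h.hc; omega
  · intro i _
    have := hcon i
    have h0 : x i j = 0 := by omega
    rw [h0, mul_zero]

lemma exists_52 : ∃ i, m i = 2 ∧ ∑ k, x i k = 4 := by
  obtain ⟨i, hi⟩ := h.exists_pos 1
  refine ⟨i, ?_⟩
  have hs := h.sum_x hi
  have e1 : ee 1 1 = 1 := by decide
  have hcard := ee_card 1
  rcases h.num' (by decide) hi with ⟨e, hx, hm⟩ | ⟨e, -⟩ | ⟨e, -⟩
  · rw [e] at hcard
    have hc1 : (Finset.univ.filter fun k => ee 1 k ≠ 0).card = 4 := by omega
    rw [hc1, hx] at hs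
    exact ⟨hm, hs⟩
  · omega
  · omega

lemma exists_26 : ∃ i, m i = 1 ∧ ∑ k, x i k = 2 := by
  obtain ⟨i, hi⟩ := h.exists_pos 6
  refine ⟨i, ?_⟩
  have hs := h.sum_x hi
  have e1 : ee 6 6 = 4 := by decide
  have hcard := ee_card 6
  rcases h.num' (by decide) hi with ⟨e, hx, hm⟩ | ⟨e, -⟩ | ⟨e, hx, hm⟩
  · omega
  · omega
  · rw [e] at hcard
    have hc1 : (Finset.univ.filter fun k => ee 6 k ≠ 0).card = 1 := by omega
    rw [hc1, hx] at hs
    exact ⟨hm, hs⟩

lemma sum_x0 {i : ι} (hi : 1 ≤ x i 0) : ∑ k, x i k = x i 0 := by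
  have hs := h.sum_x hi
  have hcard := ee_card 0
  rw [ee_zero_zero] at hcard
  have hc1 : (Finset.univ.filter fun k => ee 0 k ≠ 0).card = 1 := by omega
  rwa [hc1, one_mul] at hs

lemma exists_25 : ∃ i, m i = 1 ∧ ∑ k, x i k = 1 := by
  by_contra hcon
  push Not at hcon
  have h5 : ∀ i, 2 * (m i * x i 0) ≤ x i 0 * x i 0 := by
    intro i
    rcases Nat.eq_zero_or_pos (x i 0) with h0 | h0
    · rw [h0]; simp
    · obtain ⟨h1, h2⟩ := h.n6 i h0
      have h3 := h.sum_x0 h0
      rw [h3] at h2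
      have h4 := hcon i
      rw [h3] at h4
      have h6 : m i = 0 ∨ m i = 1 := by omega
      rcases h6 with h6 | h6
      · rw [h6]; simp
      · have h7 : x i 0 = 2 := by have := h4 h6; omega
        rw [h6, h7]
  obtain ⟨i, hi1, hi2⟩ := h.n7
  have h6 := eq_of_sum_eq h5 (by
    rw [h.n1 0 0, ← Finset.mul_sum, h.n2 0, ee_zero_zero]; ring) i
  rw [hi1, hi2] at h6
  omega

open Classical in
lemma exists_cusp : ∃ i, ∀ j, x i j = 0 := by
  by_contra hcon
  push Not at hcon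
  have h1 : ∀ i, m i * m i ≤ ∑ j, x i j * x i j := by
    intro i
    obtain ⟨j, hj⟩ := hcon i
    have h2 : ∑ j, x i j ≤ ∑ j, x i j * x i j :=
      Finset.sum_le_sum fun j _ => Nat.le_mul_self _
    rcases h.nc_cases (i := i) (j := j) (by omega) with ⟨h3, h4⟩ | ⟨h3, h4⟩ | ⟨h3, h4⟩ | ⟨h3, h4⟩ <;>
    · rw [h3]; omega
  have h2 : 25 * c ≤ 24 * c := by
    calc 25 * c = ∑ i, m i * m i := h.n3.symm
      _ ≤ ∑ i, ∑ j, x i j * x i j := Finset.sum_le_sum fun i _ => h1 i
      _ = ∑ j, ∑ i, x i j * x i j := Finset.sum_comm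
      _ = ∑ j, c * ee j j := Finset.sum_congr rfl fun j _ => h.n1 j j
      _ = c * ∑ j, ee j j := by rw [Finset.mul_sum]
      _ = c * 24 := by congr 1
      _ = 24 * c := mul_comm _ _
  have := h.hc
  omega

/-- weights -/
def Wt (j : ZMod 12) : ℕ := if j = 0 then 4 else if j = 6 then 1 else ee j j

/-- value -/
def yt (j : ZMod 12) : ℕ := if j = 6 then 2 else 1

omit h in
lemma sumWt : ∀ j : ZMod 12, ∑ k, Wt k * ((if ee j k ≠ 0 then yt j else 0) *
    (if ee j k ≠ 0 then yt j else 0)) = 4 := by decide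

lemma x_eq_yt (hc1 : c = 1) {i : ι} {j : ZMod 12} (hi : 1 ≤ x i j) : x i j = yt j := by
  classical
  by_cases hj : j = 0
  · subst hj
    obtain ⟨i0, h1, h2⟩ := h.n7
    have hy : yt 0 = 1 := by decide
    rw [hy]
    by_cases hii : i = i0
    · rw [hii, h1]
    · have h3 := two_terms_le (h.n1 0 0) hii
      rw [h1, ee_zero_zero, hc1] at h3
      by_contra h4
      have : 2 ≤ x i 0 := by omega
      nlinarith
  · have key : ∀ j : ZMod 12, j ≠ 0 → (ee j j = 4 ↔ j = 6) := by decide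
    rcases h.num' hj hi with ⟨e, hx, hm⟩ | ⟨e, ⟨hx, hm⟩ | ⟨hx, hm, h2⟩⟩ | ⟨e, hx, hm⟩
    · have h6 : j ≠ 6 := fun h6 => by have := (key j hj).2 h6; omega
      rw [hx, yt, if_neg h6]
    · have h6 : j ≠ 6 := fun h6 => by have := (key j hj).2 h6; omega
      rw [hx, yt, if_neg h6]
    · omega
    · have h6 := (key j hj).1 e
      rw [hx, yt, if_pos h6]

lemma two_mm (hc1 : c = 1) {i : ι} {j : ZMod 12} (hi : 1 ≤ x i j) :
    2 * (m i * m i) = m i * (∑ k, x i k) + m i * x i 0 := by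
  by_cases hj : j = 0
  · subst hj
    have h1 := h.sum_x0 hi
    have h2 := h.x_eq_yt hc1 hi
    have h3 := (h.n6 i hi).1
    have hy : yt 0 = 1 := by decide
    rw [h1, h2, hy]
    have h4 : m i = 0 ∨ m i = 1 := by omega
    rcases h4 with h4 | h4 <;> rw [h4]
  · have h0 : x i 0 = 0 := by
      have key : ∀ j : ZMod 12, j ≠ 0 → ee j 0 = 0 := by decide
      exact h.zero_of_ee (key j hj) hi
    rw [h0, mul_zero, add_zero]
    have hs := h.sum_x hi
    have hcard := ee_card j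
    rcases h.num' hj hi with ⟨e, hx, hm⟩ | ⟨e, ⟨hx, hm⟩ | ⟨hx, hm, h2⟩⟩ | ⟨e, hx, hm⟩
    · rw [e] at hcard
      have hc1 : (Finset.univ.filter fun k => ee j k ≠ 0).card = 4 := by omega
      rw [hc1, hx] at hs
      rw [hs, hm]
    · rw [e] at hcard
      have hc1 : (Finset.univ.filter fun k => ee j k ≠ 0).card = 2 := by omega
      rw [hc1, hx] at hs
      rw [hs, hm]
    · omega
    · rw [e] at hcard
      have hc1 : (Finset.univ.filter fun k => ee j k ≠ 0).card = 1 := by omega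
      rw [hc1, hx] at hs
      rw [hs, hm]

open Classical in
/-- In the smaller case, all cuspidal multiplicities are `2`. -/
lemma cusp_one (hc1 : c = 1) (hn : Fintype.card ι ≤ 15) {i : ι} (hi : ∀ j, x i j = 0) :
    m i = 2 := by
  -- split the index set
  set S : Finset ι := Finset.univ.filter fun i => ∀ j, x i j = 0 with hS
  set T : Finset ι := Finset.univ.filter fun i => ¬ ∀ j, x i j = 0 with hT
  have hcardST : S.card + T.card = Fintype.card ι := by
    rw [← Finset.card_univ]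
    exact Finset.card_filter_add_card_filter_not (s := Finset.univ) (fun i => ∀ j, x i j = 0)
  have hT12 : 4 * T.card = 48 := by
    have h1 : ∀ i, (∑ k, Wt k * (x i k * x i k)) = if ¬ ∀ j, x i j = 0 then 4 else 0 := by
      intro i
      split_ifs with h2
      · exact Finset.sum_eq_zero fun k _ => by rw [h2]; simp
      · push Not at h2
        obtain ⟨j, hj⟩ := h2
        have hj' : 1 ≤ x i j := by omega
        rw [← sumWt j]
        refine Finset.sum_congr rfl fun k _ => ?_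
        rw [h.x_eq hj' k, h.x_eq_yt hc1 hj']
    calc 4 * T.card = ∑ i, if ¬ ∀ j, x i j = 0 then 4 else 0 := by
          rw [← Finset.sum_filter, Finset.sum_const, smul_eq_mul, mul_comm]
      _ = ∑ i, ∑ k, Wt k * (x i k * x i k) := Finset.sum_congr rfl fun i _ => (h1 i).symm
      _ = ∑ k, ∑ i, Wt k * (x i k * x i k) := Finset.sum_comm
      _ = ∑ k, Wt k * ee k k := by
          refine Finset.sum_congr rfl fun k _ => ?_
          rw [← Finset.mul_sum, h.n1 k k, hc1, one_mul]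
      _ = 48 := by decide
  have hTm : 2 * ∑ i ∈ T, m i * m i = 26 := by
    calc 2 * ∑ i ∈ T, m i * m i = ∑ i ∈ T, (m i * (∑ k, x i k) + m i * x i 0) := by
          rw [Finset.mul_sum]
          refine Finset.sum_congr rfl fun i hi => ?_
          rw [hT, Finset.mem_filter] at hi
          obtain ⟨-, h2⟩ := hi
          push Not at h2
          obtain ⟨j, hj⟩ := h2
          exact h.two_mm hc1 (j := j) (by omega)
      _ = ∑ i, (m i * (∑ k, x i k) + m i * x i 0) := by
          refine Finset.sum_subset (Finset.subset_univ _) fun i _ hi => ?_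
          rw [hT, Finset.mem_filter] at hi
          have h2 : ∀ j, x i j = 0 := by
            by_contra h3
            exact hi ⟨Finset.mem_univ i, h3⟩
          rw [Finset.sum_eq_zero fun k _ => h2 k, h2, mul_zero, add_zero]
      _ = ∑ k, ∑ i, m i * x i k + ∑ i, m i * x i 0 := by
          rw [Finset.sum_add_distrib, Finset.sum_comm]
          congr 1
          exact Finset.sum_congr rfl fun i _ => Finset.mul_sum _ _ _
      _ = 26 := by
          rw [h.n2 0, Finset.sum_congr rfl fun k _ => h.n2 k, hc1]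
          simp
  have hSm : ∑ i ∈ S, m i * m i = 12 := by
    have h1 : ∑ i ∈ S, m i * m i + ∑ i ∈ T, m i * m i = ∑ i, m i * m i :=
      Finset.sum_filter_add_sum_filter_not _ _ _
    rw [h.n3, hc1] at h1
    omega
  exact three_squares (S := S) (f := m) (by omega) hSm i (by
    rw [hS, Finset.mem_filter]; exact ⟨Finset.mem_univ i, hi⟩)

end NumData

end Pool.Agent.Lib_helper3
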