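import Mathlib
import Pool.Agent.Lib_helper3.Engine6
import Pool.Agent.Lib_helper3.Numeric2

/-!
Degrees from the numerical data, and restriction to a subgroup of index two.
-/

open Matrix Module

namespace Pool.Agent.Lib_helper3
namespace BData

variable {G : Type} [Group G] {F : Type} [Field F] [Fintype F] [DecidableEq F]
  {ψ : AddChar F ℂ} (B : BData G ψ) (W : WD G)

/-- The compatibility of `κ` with the numbers `ee`. -/
def KCond (c : ℕ) : Prop := ∀ j k : ZMod 12,
  (Finset.univ.filter fun s : B.R => B.κ s * j = k).card +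
      (Finset.univ.filter fun s : B.R => j = -(B.κ s * k)).card = c * ee j k

lemma numData [Finite G] (hψ : ψ.IsPrimitive) (hF : Fintype.card F = 25) {c : ℕ}
    (hc : c = 1 ∨ c = 2) (hR : Fintype.card B.R = 2 * c) (hκ : B.KCond c)
    (h8 : c = 2 → ∀ i, B.mr W i ≤ 2) : NumData c (B.xr W) (B.mr W) where
  hc := hc
  n1 j k := by rw [B.N1 W hψ hF, hκ]
  n2 j := by rw [B.N2 W hψ hF, hR]
  n3 := by
    have := B.N3 W hψ hF
    rw [hR] at this
    omega
  n5 i hm j hj := N5x hψ hm hj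
  n5' i hm := by
    have h1 := B.N4 W hψ hF i
    have h2 := N5d hψ hm (B := B)
    rw [hm] at h1
    omega
  n6 i hx := B.N6 W hψ i hx
  n7 := B.N7 W hψ
  n8 := h8

lemma range_d [Finite G] (hψ : ψ.IsPrimitive) (hF : Fintype.card F = 25) {c : ℕ}
    (h : NumData c (B.xr W) (B.mr W))
    (hcusp : ∀ i, (∀ j, B.xr W i j = 0) → B.mr W i = 2) :
    Set.range W.d = {1, 25, 26, 48, 52} := by
  have hd := fun i => B.N4 W hψ hF i
  ext n
  constructor
  · rintro ⟨i, rfl⟩
    by_cases hi : ∀ j, B.xr W i j = 0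
    · have h1 := hcusp i hi
      have h2 := hd i
      rw [Finset.sum_eq_zero fun j _ => hi j, h1] at h2
      simp [h2]
    · push Not at hi
      obtain ⟨j, hj⟩ := hi
      have h2 := hd i
      rcases h.nc_cases (i := i) (j := j) (by omega) with ⟨h3, h4⟩ | ⟨h3, h4⟩ | ⟨h3, h4⟩ | ⟨h3, h4⟩ <;>
      · rw [h3, h4] at h2
        simp [h2]
  · intro hn
    simp only [Set.mem_insert_iff, Set.mem_singleton_iff] at hn
    rcases hn with rfl | rfl | rfl | rfl | rfl
    · obtain ⟨i, h1, h2⟩ := h.n7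
      refine ⟨i, ?_⟩
      have h3 := h.n5' i h2
      rw [hd i, h2, h3]
    · obtain ⟨i, h1, h2⟩ := h.exists_25
      exact ⟨i, by rw [hd i, h1, h2]⟩
    · obtain ⟨i, h1, h2⟩ := h.exists_26
      exact ⟨i, by rw [hd i, h1, h2]⟩
    · obtain ⟨i, h1⟩ := h.exists_cusp
      refine ⟨i, ?_⟩
      rw [hd i, Finset.sum_eq_zero fun j _ => h1 j, hcusp i h1]
    · obtain ⟨i, h1, h2⟩ := h.exists_52
      exact ⟨i, by rw [hd i, h1, h2]⟩

section restrict

variable {H : Type} [Group H] (BH : BData H ψ) (WH : WD H) (f : H →* G)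

lemma asAlgebraHom_comp {V : Type*} [AddCommGroup V] [Module ℂ V] (ρ : Representation ℂ G V)
    (x : MonoidAlgebra ℂ H) :
    Representation.asAlgebraHom (ρ.comp f) x
      = ρ.asAlgebraHom (MonoidAlgebra.mapDomainAlgHom ℂ ℂ f x) := by
  induction x using alg_induction with
  | h1 g =>
    rw [o, Representation.asAlgebraHom_of, MonoidAlgebra.of_apply,
      MonoidAlgebra.mapDomainAlgHom_apply, MonoidAlgebra.mapDomain_single]
    rw [← MonoidAlgebra.of_apply, Representation.asAlgebraHom_of]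
    rfl
  | hadd x y hx hy => rw [map_add, map_add, map_add, hx, hy]
  | hsmul c x hx => rw [map_smul, map_smul, map_smul, hx]

lemma map_o (g : H) : MonoidAlgebra.mapDomainAlgHom ℂ ℂ f (o g) = o (f g) := by
  rw [o, MonoidAlgebra.of_apply, MonoidAlgebra.mapDomainAlgHom_apply,
    MonoidAlgebra.mapDomain_single]
  rfl

lemma map_ide {V : Type} [CommRing V] [Fintype V] [DecidableEq V] (χ : AddChar V ℂ)
    {v : V → H} {v' : V → G} (hv : ∀ x, f (v x) = v' x) (b : V) :
    MonoidAlgebra.mapDomainAlgHom ℂ ℂ f (ide χ v b) = ide χ v' b := by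
  rw [ide, ide, map_smul, map_sum]
  congr 1
  refine Finset.sum_congr rfl fun x _ => ?_
  rw [map_smul, map_o, hv]

lemma trace_rep (i : Fin W.n) (x : MonoidAlgebra ℂ G) :
    LinearMap.trace ℂ _ ((W.rep i).asAlgebraHom x) = W.tr i x := by
  induction x using alg_induction with
  | h1 g =>
    rw [← W.rep_character, o, Representation.asAlgebraHom_of]; rfl
  | hadd x y hx hy => rw [map_add, map_add, map_add, hx, hy]
  | hsmul c x hx => rw [map_smul, map_smul, map_smul, hx]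

/-- Cuspidal multiplicities are at least two when this holds for a subgroup. -/
lemma cusp_restrict [Finite G] [Finite H] (hψ : ψ.IsPrimitive)
    (hu : ∀ x, f (BH.u x) = B.u x) (ht : ∀ k, f (BH.t k) = B.t k)
    (hH : ∀ i, (∀ j, BH.xr WH i j = 0) → BH.mr WH i = 2)
    (i : Fin W.n) (hi : ∀ j, B.xr W i j = 0) : 2 ≤ B.mr W i := by
  have htr : ∀ x : MonoidAlgebra ℂ H, W.tr i (MonoidAlgebra.mapDomainAlgHom ℂ ℂ f x)
      = ∑ k, (WH.mult (V := Fin (W.d i) → ℂ) ((W.rep i).comp f) k : ℂ) * WH.tr k x := by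
    intro x
    have h1 := WH.trace_asAlgebraHom (V := Fin (W.d i) → ℂ) ((W.rep i).comp f) x
    rw [asAlgebraHom_comp, trace_rep] at h1
    exact h1
  obtain ⟨μ, hμ⟩ : ∃ μ, μ = WH.mult (V := Fin (W.d i) → ℂ) ((W.rep i).comp f) := ⟨_, rfl⟩
  rw [← hμ] at htr
  have hE : ∀ b, MonoidAlgebra.mapDomainAlgHom ℂ ℂ f (BH.E b) = B.E b :=
    fun b => map_ide f ψ hu b
  have hf : ∀ j, MonoidAlgebra.mapDomainAlgHom ℂ ℂ f (BH.f j) = B.f j :=
    fun j => map_ide f α12 ht j
  have hP : ∀ j, MonoidAlgebra.mapDomainAlgHom ℂ ℂ f (BH.P j) = B.P j := by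
    intro j
    rw [P, map_mul, hE, hf, P]
  -- ranks
  have hx : ∀ j, B.xr W i j = ∑ k, μ k * BH.xr WH k j := by
    intro j
    have h1 := htr (BH.P j)
    have h0 : W.tr i (B.P j) = (B.xr W i j : ℂ) := W.tr_eq_rk i (B.p_idem hψ (.inl j))
    rw [hP, h0] at h1
    have h2 : ∀ k, WH.tr k (BH.P j) = (BH.xr WH k j : ℂ) :=
      fun k => WH.tr_eq_rk k (BH.p_idem hψ (.inl j))
    simp_rw [h2] at h1
    exact_mod_cast h1
  have hm : B.mr W i = ∑ k, μ k * BH.mr WH k := by
    have h1 := htr (BH.E 1)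
    have h0 : W.tr i (B.E 1) = (B.mr W i : ℂ) := W.tr_eq_rk i (B.p_idem hψ (.inr one'))
    rw [hE, h0] at h1
    have h2 : ∀ k, WH.tr k (BH.E 1) = (BH.mr WH k : ℂ) :=
      fun k => WH.tr_eq_rk k (BH.p_idem hψ (.inr one'))
    simp_rw [h2] at h1
    exact_mod_cast h1
  have hd : W.d i = ∑ k, μ k * WH.d k := by
    have h1 := htr 1
    rw [map_one, W.tr_one] at h1
    simp_rw [WH.tr_one] at h1
    exact_mod_cast h1
  obtain ⟨k, hk⟩ : ∃ k, μ k ≠ 0 := by
    by_contra h
    push Not at h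
    rw [Finset.sum_eq_zero (fun k _ => by rw [h k, zero_mul])] at hd
    have := W.dpos i
    omega
  have hk0 : ∀ j, BH.xr WH k j = 0 := by
    intro j
    have h1 := hx j
    rw [hi j] at h1
    have h2 := Finset.sum_eq_zero_iff.1 h1.symm k (Finset.mem_univ k)
    exact (Nat.mul_eq_zero.1 h2).resolve_left hk
  have h3 := hH k hk0
  rw [hm]
  calc 2 ≤ μ k * BH.mr WH k := by
        rw [h3]; omega
    _ ≤ _ := Finset.single_le_sum (f := fun k => μ k * BH.mr WH k) (fun _ _ => Nat.zero_le _)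
        (Finset.mem_univ k)

end restrict

/-- The degrees of the small group. -/
theorem cd_small [Finite G] (hψ : ψ.IsPrimitive) (hF : Fintype.card F = 25)
    (hR : Fintype.card B.R = 2) (hκ : B.KCond 1) {N : ℕ} (hN : N ≤ 15) (r : Fin N → G)
    (hr : ∀ g : G, ∃ k x, g = x * r k * x⁻¹) :
    WD.cd G = {1, 25, 26, 48, 52} ∧
      ∀ (W : WD G) (i), (∀ j, B.xr W i j = 0) → B.mr W i = 2 := by
  have key : ∀ (W : WD G), NumData 1 (B.xr W) (B.mr W) := fun W =>
    B.numData W hψ hF (Or.inl rfl) hR hκ (by omega)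
  have key2 : ∀ (W : WD G) (i), (∀ j, B.xr W i j = 0) → B.mr W i = 2 := by
    intro W i hi
    refine (key W).cusp_one rfl ?_ hi
    rw [Fintype.card_fin]
    exact (W.n_le_of_classes r hr).trans hN
  obtain ⟨W⟩ := exists_WD G
  refine ⟨?_, key2⟩
  rw [W.cd_eq_range]
  exact B.range_d W hψ hF (key W) (key2 W)

/-- The degrees of the big group. -/
theorem cd_big {H : Type} [Group H] [Finite G] [Finite H] (hψ : ψ.IsPrimitive)
    (hF : Fintype.card F = 25) (hR : Fintype.card B.R = 4) (hκ : B.KCond 2) (C : CData B)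
    (BH : BData H ψ) (f : H →* G) (hu : ∀ x, f (BH.u x) = B.u x) (ht : ∀ k, f (BH.t k) = B.t k)
    (hH : ∀ (W : WD H) (i), (∀ j, BH.xr W i j = 0) → BH.mr W i = 2) :
    WD.cd G = {1, 25, 26, 48, 52} := by
  obtain ⟨W⟩ := exists_WD G
  obtain ⟨WH⟩ := exists_WD H
  have h8 : ∀ i, B.mr W i ≤ 2 := fun i => C.N8 hψ i
  have key : NumData 2 (B.xr W) (B.mr W) :=
    B.numData W hψ hF (Or.inr rfl) (by rw [hR]) hκ (fun _ => h8)
  rw [W.cd_eq_range]
  refine B.range_d W hψ hF key fun i hi => ?_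
  exact le_antisymm (h8 i) (B.cusp_restrict W BH WH f hψ hu ht (hH WH) i hi)

end BData
end Pool.Agent.Lib_helper3
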