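import Mathlib

/-!
A concrete field with 25 elements.
-/

namespace Pool.Agent.Lib_helper3

instance : Fact (Nat.Prime 5) := ⟨by norm_num⟩

instance : Fact (∀ r : ZMod 5, r ^ 2 ≠ 2 + 0 * r) := ⟨by decide⟩

/-- The field with 25 elements, `ZMod 5` with a square root of `2` adjoined. -/
abbrev F25 : Type := QuadraticAlgebra (ZMod 5) 2 0

instance : Fintype F25 := Fintype.ofEquiv (ZMod 5 × ZMod 5) (QuadraticAlgebra.equivProd 2 0).symm

lemma card_F25 : Fintype.card F25 = 25 := by
  rw [Fintype.card_congr (QuadraticAlgebra.equivProd (2 : ZMod 5) 0)]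
  rfl

namespace F25

/-- A generator of the multiplicative group. -/
def om : F25 := ⟨1, 2⟩

/-- Powers of the square of the generator. -/
def tt (k : ZMod 12) : F25 := (om * om) ^ k.val

set_option maxRecDepth 100000

lemma tt_surj : ∀ x : F25, x = 0 ∨ ∃ k, x = tt k ∨ x = om * tt k := by decide

lemma tt_add : ∀ x y : ZMod 12, tt (x + y) = tt x * tt y := by decide

lemma tt_zero : tt 0 = 1 := by decide

lemma tt_ne : ∀ k : ZMod 12, tt k ≠ 0 := by decide

lemma tt_inj : ∀ k l : ZMod 12, tt k = tt l → k = l := by decide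

lemma tt_pow : ∀ k : ZMod 12, tt k ^ 12 = 1 := by decide

lemma om_pow : om ^ 12 = -1 := by decide

lemma om_ne : om ≠ 0 := by decide

lemma one_ne_neg_one : (1 : F25) ≠ -1 := by decide

lemma neg_one_pow : (-1 : F25) ^ 12 = 1 := by decide

lemma om_sq : om * om = tt 1 := by decide

lemma tt_neg_sq' : ∀ x : F25, x ≠ 0 → ∃ k, tt k * (x * x) = -1 := by decide

lemma tt_neg_sq (x : F25) (hx : x ≠ 0) : ∃ k, tt k = -(x * x)⁻¹ := by
  obtain ⟨k, hk⟩ := tt_neg_sq' x hx
  refine ⟨k, ?_⟩
  have hxx : x * x ≠ 0 := mul_ne_zero hx hx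
  field_simp
  rw [← hk]
  ring

lemma tt_neg (k : ZMod 12) : tt (-k) = (tt k)⁻¹ := by
  have h : tt (-k) * tt k = 1 := by rw [← tt_add, neg_add_cancel, tt_zero]
  exact eq_inv_of_mul_eq_one_left h

lemma pow_24 : ∀ x : F25, x ≠ 0 → x ^ 24 = 1 := by decide

/-- The Frobenius automorphism. -/
def sg : F25 →+* F25 where
  toFun z := ⟨z.re, -z.im⟩
  map_one' := by decide
  map_mul' := by decide
  map_zero' := by decide
  map_add' := by decide

lemma sg_sg (x : F25) : sg (sg x) = x := by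
  ext
  · rfl
  · change - - x.im = x.im
    exact neg_neg _

lemma sg_re (x : F25) : (sg x).re = x.re := rfl

lemma sg_bij : Function.Bijective sg :=
  Function.bijective_iff_has_inverse.2 ⟨sg, sg_sg, sg_sg⟩

lemma sg_tt : ∀ k : ZMod 12, sg (tt k) = tt (5 * k) := by decide

lemma sg_om : sg om = om * tt 2 := by decide

lemma sg_ne {x : F25} (hx : x ≠ 0) : sg x ≠ 0 := fun h => hx (by rw [← sg_sg x, h, map_zero])

lemma sg_one_one : sg ⟨1, 1⟩ ≠ ⟨1, 1⟩ ∧ sg ⟨1, 1⟩ ≠ -⟨1, 1⟩ := by decide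

/-- The real part as an additive map. -/
def reHom : F25 →+ ZMod 5 where
  toFun z := z.re
  map_zero' := rfl
  map_add' _ _ := rfl

/-- A primitive additive character. -/
noncomputable def ps : AddChar F25 ℂ := (ZMod.stdAddChar (N := 5)).compAddMonoidHom reHom

lemma ps_apply (x : F25) : ps x = ZMod.stdAddChar (N := 5) x.re := rfl

lemma ps_sg (x : F25) : ps (sg x) = ps x := rfl

lemma ps_primitive : ps.IsPrimitive := by
  apply AddChar.IsPrimitive.of_ne_one
  intro h
  have h1 : ps 1 = 1 := by rw [h]; rfl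
  rw [ps_apply] at h1
  have h2 : ZMod.stdAddChar (N := 5) (1 : F25).re = ZMod.stdAddChar (N := 5) 0 := by
    rw [h1, AddChar.map_zero_eq_one]
  have h3 := ZMod.injective_stdAddChar h2
  revert h3
  decide

end F25

end Pool.Agent.Lib_helper3
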