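import Mathlib
import Pool.Agent.Lib_helper3.Field25

/-!
Automorphisms of `PSL₂(25)` induced by `GL₂(25)` and by the Frobenius automorphism.
-/

open Matrix

namespace Pool.Agent.Lib_helper3

open F25

/-- `SL₂(25)`. -/
abbrev SL25 := Matrix.SpecialLinearGroup (Fin 2) F25

/-- `GL₂(25)`. -/
abbrev GL25 := Matrix.GeneralLinearGroup (Fin 2) F25

/-- `PSL₂(25)`. -/
abbrev PSL25 := Matrix.ProjectiveSpecialLinearGroup (Fin 2) F25

/-- Automorphisms pass to the quotient by the center. -/
def proj (X : Type) [Group X] : MulAut X →* MulAut (X ⧸ Subgroup.center X) where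
  toFun a := QuotientGroup.congr _ _ a (Subgroup.characteristic_iff_map_eq.1 inferInstance a)
  map_one' := by
    ext x
    induction x using QuotientGroup.induction_on
    rfl
  map_mul' a b := by
    ext x
    induction x using QuotientGroup.induction_on
    rfl

lemma proj_mk (X : Type) [Group X] (a : MulAut X) (x : X) :
    proj X a (QuotientGroup.mk x) = QuotientGroup.mk (a x) := rfl

/-- Conjugation of `SL` by `GL`. -/
def conjSL : GL25 →* MulAut SL25 where
  toFun g :=
    { toFun := fun s => ⟨(g : Matrix (Fin 2) (Fin 2) F25) * s.1 * (g⁻¹ : GL25).1, by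
        rw [Matrix.det_mul, Matrix.det_mul, s.2, mul_one, ← Matrix.det_mul, ← Units.val_mul,
          mul_inv_cancel, Units.val_one, Matrix.det_one]⟩
      invFun := fun s => ⟨(g⁻¹ : GL25).1 * s.1 * (g : Matrix (Fin 2) (Fin 2) F25), by
        rw [Matrix.det_mul, Matrix.det_mul, s.2, mul_one, ← Matrix.det_mul, ← Units.val_mul,
          inv_mul_cancel, Units.val_one, Matrix.det_one]⟩
      left_inv := fun s => by
        apply Subtype.ext
        change (g⁻¹ : GL25).1 * (g.1 * s.1 * (g⁻¹ : GL25).1) * g.1 = s.1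
        have : (g⁻¹ : GL25).1 * g.1 = 1 := by
          rw [← Units.val_mul, inv_mul_cancel, Units.val_one]
        calc _ = ((g⁻¹ : GL25).1 * g.1) * s.1 * ((g⁻¹ : GL25).1 * g.1) := by
              simp only [mul_assoc]
          _ = s.1 := by rw [this, one_mul, mul_one]
      right_inv := fun s => by
        apply Subtype.ext
        change g.1 * ((g⁻¹ : GL25).1 * s.1 * g.1) * (g⁻¹ : GL25).1 = s.1
        have : g.1 * (g⁻¹ : GL25).1 = 1 := by
          rw [← Units.val_mul, mul_inv_cancel, Units.val_one]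
        calc _ = (g.1 * (g⁻¹ : GL25).1) * s.1 * (g.1 * (g⁻¹ : GL25).1) := by
              simp only [mul_assoc]
          _ = s.1 := by rw [this, one_mul, mul_one]
      map_mul' := fun s s' => by
        apply Subtype.ext
        change g.1 * (s.1 * s'.1) * (g⁻¹ : GL25).1
          = (g.1 * s.1 * (g⁻¹ : GL25).1) * (g.1 * s'.1 * (g⁻¹ : GL25).1)
        have : (g⁻¹ : GL25).1 * g.1 = 1 := by
          rw [← Units.val_mul, inv_mul_cancel, Units.val_one]
        calc _ = g.1 * s.1 * 1 * s'.1 * (g⁻¹ : GL25).1 := by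
              rw [mul_one]; simp only [mul_assoc]
          _ = _ := by rw [← this]; simp only [mul_assoc] }
  map_one' := by
    refine MulEquiv.ext fun s => Subtype.ext ?_
    change (1 : GL25).1 * s.1 * ((1 : GL25)⁻¹).1 = s.1
    rw [inv_one, Units.val_one, one_mul, mul_one]
  map_mul' g h := by
    refine MulEquiv.ext fun s => Subtype.ext ?_
    change (g * h).1 * s.1 * ((g * h)⁻¹).1 = g.1 * (h.1 * s.1 * (h⁻¹).1) * (g⁻¹).1
    rw [_root_.mul_inv_rev, Units.val_mul, Units.val_mul]
    simp only [mul_assoc]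

lemma conjSL_val (g : GL25) (s : SL25) :
    (conjSL g s).1 = g.1 * s.1 * (g⁻¹ : GL25).1 := rfl

/-- The Frobenius automorphism of `SL₂(25)`. -/
def frSL : MulAut SL25 where
  toFun := Matrix.SpecialLinearGroup.map sg
  invFun := Matrix.SpecialLinearGroup.map sg
  left_inv s := by
    refine Subtype.ext (Matrix.ext fun i j => ?_)
    change sg (sg (s.1 i j)) = s.1 i j
    exact sg_sg _
  right_inv s := by
    refine Subtype.ext (Matrix.ext fun i j => ?_)
    change sg (sg (s.1 i j)) = s.1 i j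
    exact sg_sg _
  map_mul' := map_mul _

lemma frSL_val (s : SL25) : (frSL s).1 = s.1.map sg := rfl

/-- The Frobenius automorphism of `GL₂(25)`. -/
def frGL : GL25 →* GL25 := Matrix.GeneralLinearGroup.map sg

lemma frGL_val (g : GL25) : (frGL g).1 = g.1.map sg := rfl

lemma frGL_inv_val (g : GL25) : ((frGL g)⁻¹).1 = (g⁻¹).1.map sg := by
  rw [← map_inv, frGL_val]

/-- Conjugation action of `GL₂(25)` on `PSL₂(25)`. -/
def cc : GL25 →* MulAut PSL25 := (proj SL25).comp conjSL

/-- The Frobenius automorphism of `PSL₂(25)`. -/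
def ph : MulAut PSL25 := proj SL25 frSL

lemma ph_ph : ph * ph = 1 := by
  rw [ph, ← map_mul]
  have : frSL * frSL = 1 := by
    refine MulEquiv.ext fun s => Subtype.ext (Matrix.ext fun i j => ?_)
    change sg (sg (s.1 i j)) = s.1 i j
    exact sg_sg _
  rw [this, map_one]

lemma ph_cc (g : GL25) : ph * cc g = cc (frGL g) * ph := by
  rw [ph, cc, MonoidHom.comp_apply, MonoidHom.comp_apply, ← map_mul, ← map_mul]
  congr 1
  refine MulEquiv.ext fun s => Subtype.ext ?_
  change (g.1 * s.1 * (g⁻¹ : GL25).1).map sg = (frGL g).1 * (s.1.map sg) * ((frGL g)⁻¹).1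
  rw [frGL_inv_val, frGL_val, Matrix.map_mul, Matrix.map_mul]

/-- Proportional matrices act in the same way. -/
lemma cc_eq_of_smul {g g' : GL25} (c : F25) (h : g'.1 = c • g.1) : cc g' = cc g := by
  have hc : c ≠ 0 := by
    rintro rfl
    rw [zero_smul] at h
    have := GeneralLinearGroup.det_ne_zero g'
    rw [h] at this
    exact this (Matrix.det_zero)
  rw [cc, MonoidHom.comp_apply, MonoidHom.comp_apply]
  congr 1
  have hinv : (g'⁻¹).1 = c⁻¹ • (g⁻¹).1 := by
    have h1 : g'.1 * (c⁻¹ • (g⁻¹).1) = 1 := by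
      rw [h, Matrix.smul_mul, Matrix.mul_smul, smul_smul, mul_inv_cancel₀ hc, one_smul,
        ← Units.val_mul, mul_inv_cancel, Units.val_one]
    calc (g'⁻¹).1 = (g'⁻¹).1 * (g'.1 * (c⁻¹ • (g⁻¹).1)) := by rw [h1, mul_one]
      _ = _ := by
        rw [← mul_assoc, ← Units.val_mul, inv_mul_cancel, Units.val_one, one_mul]
  refine MulEquiv.ext fun s => Subtype.ext ?_
  rw [conjSL_val, conjSL_val, hinv, h, Matrix.smul_mul, Matrix.mul_smul, Matrix.smul_mul,
    smul_smul, inv_mul_cancel₀ hc, one_smul]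

/-- Center membership for `SL₂`. -/
lemma mk_eq_mk {s s' : SL25} (h : (QuotientGroup.mk s : PSL25) = QuotientGroup.mk s') :
    ∃ r : F25, r ^ 2 = 1 ∧ s'.1 = r • s.1 := by
  rw [QuotientGroup.eq, Matrix.SpecialLinearGroup.mem_center_iff] at h
  obtain ⟨r, hr, h2⟩ := h
  refine ⟨r, by simpa using hr, ?_⟩
  have h3 : s'.1 = s.1 * (s⁻¹ * s').1 := by
    change s' = (s * (s⁻¹ * s')).1
    rw [mul_inv_cancel_left]
  rw [h3, ← h2, Matrix.scalar_apply]
  refine Matrix.ext fun i j => ?_
  rw [Matrix.mul_diagonal, Matrix.smul_apply, smul_eq_mul, mul_comm]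

/-- upper unipotent -/
def uSL : SL25 := ⟨!![1, 1; 0, 1], by simp [Matrix.det_fin_two]⟩

/-- lower unipotent -/
def lSL : SL25 := ⟨!![1, 0; 1, 1], by simp [Matrix.det_fin_two]⟩

lemma commute_of_cc {g : GL25} (h : cc g = 1) (s : SL25) (hs : s.1.trace = 2) :
    g.1 * s.1 = s.1 * g.1 := by
  have h1 : (QuotientGroup.mk (conjSL g s) : PSL25) = QuotientGroup.mk s := by
    have := DFunLike.congr_fun h (QuotientGroup.mk s : PSL25)
    exact this
  obtain ⟨r, hr, h2⟩ := mk_eq_mk h1
  rw [conjSL_val] at h2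
  have h3 : s.1.trace = r * s.1.trace := by
    conv_lhs => rw [h2]
    rw [Matrix.trace_smul, Matrix.trace_mul_comm, ← mul_assoc, ← Units.val_mul, inv_mul_cancel,
      Units.val_one, one_mul, smul_eq_mul]
  rw [hs] at h3
  have h4 : r = 1 := by
    have h2 : (2 : F25) ≠ 0 := by decide
    have : (r - 1) * 2 = 0 := by linear_combination -h3
    rcases mul_eq_zero.1 this with h5 | h5
    · exact sub_eq_zero.1 h5
    · exact absurd h5 h2
  rw [h4, one_smul] at h2
  conv_rhs => rw [h2]
  rw [mul_assoc, ← Units.val_mul, inv_mul_cancel, Units.val_one, mul_one]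

lemma cc_eq_one_iff (g : GL25) : cc g = 1 ↔ g ∈ Subgroup.center GL25 := by
  rw [GeneralLinearGroup.mem_center_iff_val_mem_range_scalar]
  constructor
  · intro h
    have h1 := commute_of_cc h uSL (by simp [uSL, Matrix.trace_fin_two]; norm_num)
    have h2 := commute_of_cc h lSL (by simp [lSL, Matrix.trace_fin_two]; norm_num)
    refine ⟨g.1 0 0, ?_⟩
    have e1 := congrFun (congrFun h1 0) 0
    have e2 := congrFun (congrFun h1 0) 1
    have e3 := congrFun (congrFun h2 0) 0
    simp [uSL, lSL, Matrix.mul_apply] at e1 e2 e3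
    refine Matrix.ext fun i j => ?_
    rw [Matrix.scalar_apply]
    fin_cases i <;> fin_cases j
    · simp
    · simp [e3]
    · simp [e1]
    · simp only [Matrix.diagonal_apply]
      simp
      linear_combination e2
  · rintro ⟨a, ha⟩
    have h1 : g.1 = a • (1 : GL25).1 := by
      rw [← ha, Matrix.scalar_apply, Units.val_one]
      refine Matrix.ext fun i j => ?_
      rw [Matrix.smul_apply, Matrix.diagonal_apply, Matrix.one_apply]
      split_ifs <;> simp
    rw [cc_eq_of_smul a h1, map_one]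

/-- test element -/
def xSL : SL25 := ⟨!![⟨1, 1⟩, -1; 1, 0], by simp [Matrix.det_fin_two]⟩

lemma cc_mul_ph_ne (g : GL25) : cc g * ph ≠ 1 := by
  intro h
  have h1 : (QuotientGroup.mk (conjSL g (frSL xSL)) : PSL25) = QuotientGroup.mk xSL :=
    DFunLike.congr_fun h (QuotientGroup.mk xSL : PSL25)
  obtain ⟨r, hr, h2⟩ := mk_eq_mk h1
  have h3 : xSL.1.trace = r * (frSL xSL).1.trace := by
    conv_lhs => rw [h2, conjSL_val]
    rw [Matrix.trace_smul, Matrix.trace_mul_comm, ← mul_assoc, ← Units.val_mul, inv_mul_cancel,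
      Units.val_one, one_mul, smul_eq_mul]
  have e1 : xSL.1.trace = ⟨1, 1⟩ := by decide
  have e2 : (frSL xSL).1.trace = sg ⟨1, 1⟩ := by decide
  rw [e1, e2] at h3
  obtain ⟨n1, n2⟩ := sg_one_one
  have hr' : r = 1 ∨ r = -1 := by
    have : (r - 1) * (r + 1) = 0 := by linear_combination hr
    rcases mul_eq_zero.1 this with h5 | h5
    · exact Or.inl (sub_eq_zero.1 h5)
    · exact Or.inr (eq_neg_of_add_eq_zero_left h5)
  rcases hr' with rfl | rfl
  · exact n1 (h3.trans (one_mul _)).symm
  · rw [neg_one_mul] at h3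
    exact n2 (neg_eq_iff_eq_neg.1 h3.symm)

end Pool.Agent.Lib_helper3
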