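import Mathlib
import Pool.Agent.Lib_helper3.Model

/-!
Relations between the standard elements of `Aut (PSL₂(25))`.
-/

open Matrix

namespace Pool.Agent.Lib_helper3

open F25

/-- A `2 × 2` matrix with nonzero determinant, as element of `GL`. -/
noncomputable def mkG (a b c d : F25) (h : a * d - b * c ≠ 0) : GL25 :=
  GeneralLinearGroup.mkOfDetNeZero !![a, b; c, d] (by rw [Matrix.det_fin_two_of]; exact h)

lemma mkG_val (a b c d : F25) (h : a * d - b * c ≠ 0) : (mkG a b c d h).1 = !![a, b; c, d] := rfl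

lemma mul_det_ne {a b c d : F25} (h : a * d - b * c ≠ 0) {a' b' c' d' : F25}
    (h' : a' * d' - b' * c' ≠ 0) :
    (a * a' + b * c') * (c * b' + d * d') - (a * b' + b * d') * (c * a' + d * c') ≠ 0 := by
  have h3 : (a * a' + b * c') * (c * b' + d * d') - (a * b' + b * d') * (c * a' + d * c')
      = (a * d - b * c) * (a' * d' - b' * c') := by ring
  rw [h3]
  exact mul_ne_zero h h'

lemma mkG_mul {a b c d : F25} (h : a * d - b * c ≠ 0) {a' b' c' d' : F25}
    (h' : a' * d' - b' * c' ≠ 0) : mkG a b c d h * mkG a' b' c' d' h'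
      = mkG (a * a' + b * c') (a * b' + b * d') (c * a' + d * c') (c * b' + d * d')
        (mul_det_ne h h') := by
  apply Units.ext
  rw [Units.val_mul, mkG_val, mkG_val, mkG_val, Matrix.mul_fin_two]

/-- Equality criterion for actions. -/
lemma cc_mkG_eq {a b c d : F25} {h : a * d - b * c ≠ 0} {a' b' c' d' : F25}
    {h' : a' * d' - b' * c' ≠ 0} (r : F25) (h1 : a' = r * a) (h2 : b' = r * b) (h3 : c' = r * c)
    (h4 : d' = r * d) : cc (mkG a' b' c' d' h') = cc (mkG a b c d h) := by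
  refine cc_eq_of_smul r ?_
  rw [mkG_val, mkG_val, h1, h2, h3, h4, Matrix.smul_of]
  simp

lemma frGL_mkG (a b c d : F25) (h : a * d - b * c ≠ 0) (h') :
    frGL (mkG a b c d h) = mkG (sg a) (sg b) (sg c) (sg d) h' := by
  apply Units.ext
  rw [frGL_val, mkG_val, mkG_val]
  refine Matrix.ext fun i j => ?_
  fin_cases i <;> fin_cases j <;> rfl

lemma det_mkG (a b c d : F25) (h : a * d - b * c ≠ 0) : (mkG a b c d h).1.det = a * d - b * c := by
  rw [mkG_val, Matrix.det_fin_two_of]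

/-- Unipotent elements. -/
noncomputable def uA (x : F25) : MulAut PSL25 := cc (mkG 1 x 0 1 (by simp))

/-- Diagonal elements. -/
noncomputable def mA (a : F25) : MulAut PSL25 :=
  if h : a = 0 then 1 else cc (mkG a 0 0 1 (by simpa using h))

/-- The Weyl element. -/
noncomputable def wA : MulAut PSL25 := cc (mkG 0 1 1 0 (by simp))

lemma mA_def {a : F25} (h : a ≠ 0) : mA a = cc (mkG a 0 0 1 (by simpa using h)) := dif_neg h

lemma uA_zero : uA 0 = 1 := by
  rw [uA, ← map_one cc]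
  congr 1
  apply Units.ext
  rw [mkG_val, Units.val_one, Matrix.one_fin_two]

lemma uA_add (x y : F25) : uA (x + y) = uA x * uA y := by
  rw [uA, uA, uA, ← map_mul, mkG_mul]
  refine cc_mkG_eq 1 ?_ ?_ ?_ ?_ <;> ring

lemma mA_one : mA 1 = 1 := by
  rw [mA_def one_ne_zero, ← map_one cc]
  congr 1
  apply Units.ext
  rw [mkG_val, Units.val_one, Matrix.one_fin_two]

lemma mA_mul {a b : F25} (ha : a ≠ 0) (hb : b ≠ 0) : mA (a * b) = mA a * mA b := by
  rw [mA_def ha, mA_def hb, mA_def (mul_ne_zero ha hb), ← map_mul,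
    mkG_mul]
  refine cc_mkG_eq 1 ?_ ?_ ?_ ?_ <;> ring

lemma mA_uA {a : F25} (x : F25) (ha : a ≠ 0) : mA a * uA x = uA (a * x) * mA a := by
  rw [mA_def ha, uA, uA, ← map_mul, ← map_mul, mkG_mul,
    mkG_mul]
  refine cc_mkG_eq 1 ?_ ?_ ?_ ?_ <;> ring

lemma wA_wA : wA * wA = 1 := by
  rw [wA, ← map_mul, ← map_one cc, mkG_mul]
  congr 1
  apply Units.ext
  rw [mkG_val, Units.val_one, Matrix.one_fin_two]
  simp

lemma wA_mA {a : F25} (ha : a ≠ 0) : wA * mA a = mA a⁻¹ * wA := by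
  rw [mA_def ha, mA_def (inv_ne_zero ha), wA, ← map_mul, ← map_mul,
    mkG_mul,
    mkG_mul]
  refine cc_mkG_eq a ?_ ?_ ?_ ?_ <;> simp [ha]

lemma wA_uA_wA {x : F25} (hx : x ≠ 0) :
    wA * uA x * wA = uA x⁻¹ * mA (-(x * x)⁻¹) * wA * uA x⁻¹ := by
  have h1 : -(x * x)⁻¹ ≠ 0 := neg_ne_zero.2 (inv_ne_zero (mul_ne_zero hx hx))
  have h2 : x * x ≠ 0 := mul_ne_zero hx hx
  rw [mA_def h1, wA, uA, uA, ← map_mul, ← map_mul, ← map_mul, ← map_mul, ← map_mul,
    mkG_mul,
    mkG_mul,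
    mkG_mul,
    mkG_mul,
    mkG_mul]
  refine cc_mkG_eq x ?_ ?_ ?_ ?_ <;> field_simp <;> ring

lemma ph_uA (x : F25) : ph * uA x = uA (sg x) * ph := by
  rw [uA, ph_cc, frGL_mkG _ _ _ _ _ (by simp), uA]
  refine congrArg (· * ph) ?_
  refine cc_mkG_eq 1 ?_ ?_ ?_ ?_ <;> simp

lemma ph_mA {a : F25} (ha : a ≠ 0) : ph * mA a = mA (sg a) * ph := by
  rw [mA_def ha, ph_cc, frGL_mkG _ _ _ _ _ (by simpa using ha), mA_def (sg_ne ha)]
  refine congrArg (· * ph) ?_
  refine cc_mkG_eq 1 ?_ ?_ ?_ ?_ <;> simp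

lemma ph_wA : ph * wA = wA * ph := by
  rw [wA, ph_cc, frGL_mkG _ _ _ _ _ (by simp)]
  refine congrArg (· * ph) ?_
  refine cc_mkG_eq 1 ?_ ?_ ?_ ?_ <;> simp

lemma uA_mem (x : F25) : ∃ g : GL25, g.1.det = 1 ∧ uA x = cc g :=
  ⟨_, by rw [det_mkG]; simp, rfl⟩

lemma exists_mkG (g : GL25) : ∃ a b c d, ∃ h, g = mkG a b c d h := by
  have hdet : g.1 0 0 * g.1 1 1 - g.1 0 1 * g.1 1 0 ≠ 0 := by
    have := GeneralLinearGroup.det_ne_zero g
    rwa [Matrix.det_fin_two] at this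
  refine ⟨_, _, _, _, hdet, ?_⟩
  apply Units.ext
  rw [mkG_val]
  exact Matrix.eta_fin_two _

/-- Bruhat decomposition, with control of the determinant. -/
lemma bruhat_cc (g : GL25) :
    (∃ x e, e ≠ 0 ∧ e ^ 12 = g.1.det ^ 12 ∧ cc g = uA x * mA e) ∨
    ∃ x e y, e ≠ 0 ∧ e ^ 12 = g.1.det ^ 12 ∧ cc g = uA x * wA * mA e * uA y := by
  obtain ⟨a, b, c, d, hdet, rfl⟩ := exists_mkG g
  have h24 : ∀ x : F25, x ≠ 0 → (x ^ 2) ^ 12 = 1 := fun x hx => by
    rw [← pow_mul]; exact pow_24 x hx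
  rw [det_mkG]
  by_cases h0 : c = 0
  · left
    subst h0
    have hd0 : d ≠ 0 := by rintro rfl; simp at hdet
    have ha0 : a ≠ 0 := by rintro rfl; simp at hdet
    have he : a / d ≠ 0 := div_ne_zero ha0 hd0
    refine ⟨b / d, a / d, he, ?_, ?_⟩
    · have : (a * d - b * 0) ^ 12 = (a / d) ^ 12 * (d ^ 2) ^ 12 := by
        rw [← mul_pow]; congr 1; field_simp; ring
      rw [this, h24 d hd0, mul_one]
    · rw [uA, mA_def he, ← map_mul, mkG_mul]
      refine cc_mkG_eq d ?_ ?_ ?_ ?_ <;> field_simp <;> ring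
  · right
    have he : -(c * c) / (a * d - b * c) ≠ 0 :=
      div_ne_zero (neg_ne_zero.2 (mul_ne_zero h0 h0)) hdet
    refine ⟨a / c, -(c * c) / (a * d - b * c), d / c, he, ?_, ?_⟩
    · have h1 : (-(c * c) / (a * d - b * c)) ^ 12
          = (-1) ^ 12 * (c ^ 2) ^ 12 / (a * d - b * c) ^ 12 := by
        rw [div_pow, ← mul_pow]; congr 2; ring
      have h2 : ((a * d - b * c) ^ 12) * ((a * d - b * c) ^ 12) = 1 := by
        rw [← pow_add]; exact pow_24 _ hdet
      rw [h1, neg_one_pow, h24 c h0, one_mul, one_div]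
      exact inv_eq_of_mul_eq_one_left h2
    · obtain ⟨D, hD⟩ : ∃ D, D = a * d - b * c := ⟨_, rfl⟩
      have hD0 : D ≠ 0 := by rw [hD]; exact hdet
      have hb' : b = (a * d - D) / c := by rw [hD]; field_simp; ring
      have he' : -(c * c) / D ≠ 0 := by rw [hD]; exact he
      have e1 : (-(c * c) / (a * d - b * c)) = -(c * c) / D := by rw [hD]
      rw [e1, uA, uA, mA_def he', wA, ← map_mul, ← map_mul, ← map_mul,
        mkG_mul,
        mkG_mul,
        mkG_mul]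
      refine cc_mkG_eq (-(D / c)) ?_ ?_ ?_ ?_
      · field_simp; ring
      · rw [hb']; field_simp; ring
      · field_simp; ring
      · field_simp; ring

end Pool.Agent.Lib_helper3
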