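import Mathlib
import Pool.Agent.Lib_helper3.Rel
import Pool.Agent.Lib_helper3.Engine7

/-!
The two groups: `KK`, generated by `PGL₂(25)` and the Frobenius automorphism, and its subgroup
`HH` of index two containing the product of a diagonal automorphism and the Frobenius
automorphism.
-/

open Matrix

namespace Pool.Agent.Lib_helper3

open F25

lemma det_frGL (g : GL25) : (frGL g).1.det = sg g.1.det := by
  obtain ⟨a, b, c, d, h, rfl⟩ := exists_mkG g
  have h' : sg a * sg d - sg b * sg c ≠ 0 := by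
    rw [← map_mul, ← map_mul, ← map_sub]; exact sg_ne h
  rw [frGL_mkG _ _ _ _ _ h', det_mkG, det_mkG, map_sub, map_mul, map_mul]

lemma ph_inv : ph⁻¹ = ph := inv_eq_of_mul_eq_one_left ph_ph

/-- The large group. -/
def KK : Subgroup (MulAut PSL25) where
  carrier := {a | ∃ g : GL25, a = cc g ∨ a = cc g * ph}
  mul_mem' := by
    rintro a b ⟨g, rfl | rfl⟩ ⟨g', rfl | rfl⟩
    · exact ⟨g * g', Or.inl (map_mul _ _ _).symm⟩
    · exact ⟨g * g', Or.inr (by rw [map_mul, mul_assoc])⟩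
    · exact ⟨g * frGL g', Or.inr (by rw [mul_assoc, ph_cc, map_mul, mul_assoc])⟩
    · refine ⟨g * frGL g', Or.inl ?_⟩
      rw [mul_assoc, ← mul_assoc ph, ph_cc, mul_assoc, ph_ph, mul_one, map_mul]
  one_mem' := ⟨1, Or.inl (map_one _).symm⟩
  inv_mem' := by
    rintro a ⟨g, rfl | rfl⟩
    · exact ⟨g⁻¹, Or.inl (map_inv _ _).symm⟩
    · refine ⟨frGL g⁻¹, Or.inr ?_⟩
      rw [_root_.mul_inv_rev, ph_inv, ← map_inv, ph_cc]

/-- The small group. -/
def HH : Subgroup (MulAut PSL25) where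
  carrier := {a | ∃ g : GL25, (g.1.det ^ 12 = 1 ∧ a = cc g) ∨ (g.1.det ^ 12 = -1 ∧ a = cc g * ph)}
  mul_mem' := by
    rintro a b ⟨g, ⟨h, rfl⟩ | ⟨h, rfl⟩⟩ ⟨g', ⟨h', rfl⟩ | ⟨h', rfl⟩⟩
    · exact ⟨g * g', Or.inl ⟨by rw [Units.val_mul, det_mul, mul_pow, h, h', one_mul],
        (map_mul _ _ _).symm⟩⟩
    · exact ⟨g * g', Or.inr ⟨by rw [Units.val_mul, det_mul, mul_pow, h, h', one_mul],
        by rw [map_mul, mul_assoc]⟩⟩
    · exact ⟨g * frGL g', Or.inr ⟨by
        rw [Units.val_mul, det_mul, mul_pow, h, det_frGL, ← map_pow, h', map_one, mul_one],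
        by rw [mul_assoc, ph_cc, map_mul, mul_assoc]⟩⟩
    · refine ⟨g * frGL g', Or.inl ⟨?_, ?_⟩⟩
      · rw [Units.val_mul, det_mul, mul_pow, h, det_frGL, ← map_pow, h', map_neg, map_one]
        ring
      · rw [mul_assoc, ← mul_assoc ph, ph_cc, mul_assoc, ph_ph, mul_one, map_mul]
  one_mem' := ⟨1, Or.inl ⟨by rw [Units.val_one, det_one, one_pow], (map_one _).symm⟩⟩
  inv_mem' := by
    have hinv : ∀ g : GL25, (g⁻¹).1.det * g.1.det = 1 := fun g => by
      rw [← det_mul, ← Units.val_mul, inv_mul_cancel, Units.val_one, det_one]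
    rintro a ⟨g, ⟨h, rfl⟩ | ⟨h, rfl⟩⟩
    · refine ⟨g⁻¹, Or.inl ⟨?_, (map_inv _ _).symm⟩⟩
      have h1 := congrArg (· ^ 12) (hinv g)
      simp only [mul_pow, h, mul_one, one_pow] at h1
      exact h1
    · refine ⟨frGL g⁻¹, Or.inr ⟨?_, ?_⟩⟩
      · have h1 := congrArg (· ^ 12) (hinv g)
        simp only [mul_pow, h, one_pow] at h1
        have h2 : (g⁻¹).1.det ^ 12 = -1 := by linear_combination -h1
        rw [det_frGL, ← map_pow, h2, map_neg, map_one]
      · rw [_root_.mul_inv_rev, ph_inv, ← map_inv, ph_cc]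

lemma HH_le_KK : HH ≤ KK := by
  rintro a ⟨g, ⟨-, rfl⟩ | ⟨-, rfl⟩⟩
  · exact ⟨g, Or.inl rfl⟩
  · exact ⟨g, Or.inr rfl⟩

lemma det_pow (g : GL25) : g.1.det ^ 12 = 1 ∨ g.1.det ^ 12 = -1 := by
  have h : g.1.det ^ 12 * g.1.det ^ 12 = 1 := by
    rw [← pow_add]; exact pow_24 _ (GeneralLinearGroup.det_ne_zero g)
  have h2 : (g.1.det ^ 12 - 1) * (g.1.det ^ 12 + 1) = 0 := by linear_combination h
  rcases mul_eq_zero.1 h2 with h3 | h3
  · exact Or.inl (sub_eq_zero.1 h3)
  · exact Or.inr (eq_neg_of_add_eq_zero_left h3)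

instance : Finite PSL25 := by
  have : Finite SL25 := by
    unfold SL25 Matrix.SpecialLinearGroup
    infer_instance
  infer_instance

instance : Finite (MulAut PSL25) :=
  Finite.of_injective (fun a : MulAut PSL25 => (a : PSL25 → PSL25)) DFunLike.coe_injective

lemma card_units : Nat.card F25ˣ = 24 := by
  rw [Nat.card_units, Nat.card_eq_fintype_card, card_F25]

lemma card_GL25 : Nat.card GL25 = 374400 := by
  have h := Matrix.card_GL_field (𝔽 := F25) 2
  rw [h, Fin.prod_univ_two, card_F25]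
  norm_num

lemma card_ker : Nat.card cc.ker = 24 := by
  have h1 : cc.ker = (GeneralLinearGroup.scalar (Fin 2) : F25ˣ →* GL25).range := by
    rw [← GeneralLinearGroup.center_eq_range_scalar]
    ext g
    rw [MonoidHom.mem_ker, cc_eq_one_iff]
  have h2 : Function.Injective (GeneralLinearGroup.scalar (Fin 2) : F25ˣ →* GL25) := by
    intro a b h
    have := congrArg (fun g : GL25 => g.1 0 0) h
    simp only [GeneralLinearGroup.coe_scalar, Matrix.scalar_apply, Matrix.diagonal_apply_eq]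
      at this
    exact Units.ext this
  rw [h1, ← card_units]
  exact (Nat.card_congr (MonoidHom.ofInjective h2).toEquiv).symm

lemma card_range : Nat.card cc.range = 15600 := by
  have h1 := Subgroup.card_mul_index cc.ker
  rw [Subgroup.index_ker, card_ker, card_GL25] at h1
  omega

lemma ph_not_range (g g' : GL25) (h : cc g = cc g' * ph) : False := by
  apply cc_mul_ph_ne (g⁻¹ * g')
  rw [map_mul, mul_assoc, ← h, map_inv, inv_mul_cancel]

lemma card_KK : Nat.card KK = 31200 := by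
  let f : cc.range × Bool → KK := fun p => ⟨p.1.1 * (cond p.2 ph 1), by
    obtain ⟨⟨a, g, rfl⟩, b⟩ := p
    cases b
    · exact ⟨g, Or.inl (mul_one _)⟩
    · exact ⟨g, Or.inr rfl⟩⟩
  have hf : Function.Bijective f := by
    constructor
    · rintro ⟨⟨a, g, rfl⟩, b⟩ ⟨⟨a', g', rfl⟩, b'⟩ h
      have h1 : cc g * (cond b ph 1) = cc g' * (cond b' ph 1) := congrArg Subtype.val h
      cases b <;> cases b'
      · simp only [cond_false, mul_one] at h1
        simp only [h1]
      · simp only [cond_false, cond_true, mul_one] at h1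
        exact (ph_not_range _ _ h1).elim
      · simp only [cond_false, cond_true, mul_one] at h1
        exact (ph_not_range _ _ h1.symm).elim
      · simp only [cond_true] at h1
        simp only [mul_right_cancel h1]
    · rintro ⟨a, g, rfl | rfl⟩
      · exact ⟨(⟨cc g, g, rfl⟩, false), Subtype.ext (mul_one _)⟩
      · exact ⟨(⟨cc g, g, rfl⟩, true), rfl⟩
  rw [← Nat.card_congr (Equiv.ofBijective f hf), Nat.card_prod, card_range]
  norm_num [Nat.card_eq_fintype_card]

lemma cc_eq_det {g g' : GL25} (h : cc g = cc g') : g.1.det ^ 12 = g'.1.det ^ 12 := by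
  have h1 : cc (g'⁻¹ * g) = 1 := by rw [map_mul, map_inv, h, inv_mul_cancel]
  rw [cc_eq_one_iff, GeneralLinearGroup.mem_center_iff_val_mem_range_scalar] at h1
  obtain ⟨a, ha⟩ := h1
  have h2 : g.1 = g'.1 * Matrix.scalar (Fin 2) a := by
    rw [ha, ← Units.val_mul, mul_inv_cancel_left]
  have h3 : (Matrix.scalar (Fin 2) a).det = a ^ 2 := by
    rw [Matrix.scalar_apply, Matrix.det_diagonal]; simp
  have ha0 : a ≠ 0 := by
    rintro rfl
    have := GeneralLinearGroup.det_ne_zero g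
    rw [h2, det_mul, h3] at this
    simp at this
  rw [h2, det_mul, h3, mul_pow, ← pow_mul, pow_24 a ha0, mul_one]

/-- Images of matrices with square determinant. -/
def P0 (a : MulAut PSL25) : Prop := ∃ g : GL25, g.1.det ^ 12 = 1 ∧ a = cc g

open Classical in
lemma card_HH : Nat.card HH = 15600 := by
  let f : cc.range → HH := fun p => ⟨if P0 p.1 then p.1 else p.1 * ph, by
    obtain ⟨a, g, rfl⟩ := p
    dsimp only
    split_ifs with h
    · obtain ⟨g', h1, h2⟩ := h
      exact ⟨g', Or.inl ⟨h1, h2⟩⟩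
    · refine ⟨g, Or.inr ⟨?_, rfl⟩⟩
      rcases det_pow g with h1 | h1
      · exact absurd ⟨g, h1, rfl⟩ h
      · exact h1⟩
  have hf : Function.Bijective f := by
    constructor
    · rintro ⟨a, g, rfl⟩ ⟨a', g', rfl⟩ h
      have h1 : (if P0 (cc g) then cc g else cc g * ph)
          = (if P0 (cc g') then cc g' else cc g' * ph) := congrArg Subtype.val h
      split_ifs at h1
      · simp only [h1]
      · exact (ph_not_range _ _ h1).elim
      · exact (ph_not_range _ _ h1.symm).elim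
      · simp only [mul_right_cancel h1]
    · rintro ⟨a, g, ⟨h, rfl⟩ | ⟨h, rfl⟩⟩
      · refine ⟨⟨cc g, g, rfl⟩, Subtype.ext ?_⟩
        change (if P0 (cc g) then cc g else cc g * ph) = cc g
        rw [if_pos ⟨g, h, rfl⟩]
      · refine ⟨⟨cc g, g, rfl⟩, Subtype.ext ?_⟩
        change (if P0 (cc g) then cc g else cc g * ph) = cc g * ph
        rw [if_neg]
        rintro ⟨g', h1, h2⟩
        have h3 := cc_eq_det h2
        rw [h, h1] at h3
        exact one_ne_neg_one h3.symm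
  rw [← Nat.card_congr (Equiv.ofBijective f hf), card_range]

/-! ### More relations -/

/-- Torus elements. -/
noncomputable def tA (k : ZMod 12) : MulAut PSL25 := mA (tt k)

/-- Diagonal automorphism. -/
noncomputable def dl : MulAut PSL25 := mA om

lemma tA_zero : tA 0 = 1 := by rw [tA, tt_zero, mA_one]

lemma tA_add (k l : ZMod 12) : tA (k + l) = tA k * tA l := by
  rw [tA, tt_add, mA_mul (tt_ne k) (tt_ne l)]; rfl

lemma wA_tA (k : ZMod 12) : wA * tA k = tA (-k) * wA := by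
  rw [tA, wA_mA (tt_ne k), tA, tt_neg]

lemma tA_uA (k : ZMod 12) (x : F25) : tA k * uA x = uA (tt k * x) * tA k :=
  mA_uA x (tt_ne k)

lemma ph_tA (k : ZMod 12) : ph * tA k = tA (5 * k) * ph := by
  rw [tA, ph_mA (tt_ne k), sg_tt]; rfl

lemma mA_comm {a b : F25} (ha : a ≠ 0) (hb : b ≠ 0) : mA a * mA b = mA b * mA a := by
  rw [← mA_mul ha hb, ← mA_mul hb ha, mul_comm]

lemma dl_tA (k : ZMod 12) : dl * tA k = tA k * dl := mA_comm om_ne (tt_ne k)

lemma dl_uA (x : F25) : dl * uA x = uA (om * x) * dl := mA_uA x om_ne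

lemma dl_dl : dl * dl = tA 1 := by
  rw [dl, ← mA_mul om_ne om_ne, om_sq]; rfl

lemma mA_om_tt (k : ZMod 12) : mA (om * tt k) = dl * tA k := mA_mul om_ne (tt_ne k)

lemma ph_dl : ph * dl = dl * tA 2 * ph := by
  rw [dl, ph_mA om_ne, sg_om, mA_om_tt]; rfl

lemma tA_ph (k : ZMod 12) : tA k * ph = ph * tA (5 * k) := by
  rw [ph_tA]
  have h : (5 : ZMod 12) * (5 * k) = k := by
    rw [← mul_assoc]
    have : (5 : ZMod 12) * 5 = 1 := by decide
    rw [this, one_mul]
  rw [h]

lemma uA_ph (x : F25) : uA x * ph = ph * uA (sg x) := by rw [ph_uA, sg_sg]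

/-- The exponent in the basic relation. -/
noncomputable def tau (x : F25) : ZMod 12 :=
  if h : x ≠ 0 then (tt_neg_sq x h).choose else 0

lemma tt_tau {x : F25} (h : x ≠ 0) : tt (tau x) = -(x * x)⁻¹ := by
  rw [tau, dif_pos h]
  exact (tt_neg_sq x h).choose_spec

lemma tau_one : ∃ x y, x ≠ 0 ∧ y ≠ 0 ∧ tau x = tau y + 1 := by
  refine ⟨1, om, one_ne_zero, om_ne, ?_⟩
  apply tt_inj
  rw [tt_add, tt_tau one_ne_zero, tt_tau om_ne, ← om_sq]
  have := om_ne
  field_simp

lemma wA_uA_wA' {x : F25} (hx : x ≠ 0) :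
    wA * uA x * wA = uA x⁻¹ * tA (tau x) * wA * uA x⁻¹ := by
  rw [wA_uA_wA hx, tA, tt_tau hx]

lemma uA_mem_HH (x : F25) : uA x ∈ HH :=
  ⟨_, Or.inl ⟨by rw [det_mkG]; simp, rfl⟩⟩

lemma tA_mem_HH (k : ZMod 12) : tA k ∈ HH := by
  refine ⟨_, Or.inl ⟨?_, mA_def (tt_ne k)⟩⟩
  rw [det_mkG, mul_one, mul_zero, sub_zero]
  exact tt_pow k

lemma wA_mem_HH : wA ∈ HH := by
  refine ⟨_, Or.inl ⟨?_, rfl⟩⟩
  rw [det_mkG, mul_one, mul_zero, zero_sub]
  exact neg_one_pow

lemma dlph_mem_HH : dl * ph ∈ HH := by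
  refine ⟨_, Or.inr ⟨?_, by rw [dl, mA_def om_ne]⟩⟩
  rw [det_mkG, mul_one, mul_zero, sub_zero]
  exact om_pow

lemma mA_mem_KK (a : F25) : mA a ∈ KK := by
  by_cases h : a = 0
  · rw [mA, dif_pos h]; exact KK.one_mem
  · exact ⟨_, Or.inl (mA_def h)⟩

lemma ph_mem_KK : ph ∈ KK := ⟨1, Or.inr (by rw [map_one, one_mul])⟩

end Pool.Agent.Lib_helper3
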