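import Mathlib
import Pool.Agent.Lib_helper3.Groups

/-!
The Bruhat data of the two groups.
-/

open Matrix

namespace Pool.Agent.Lib_helper3

open F25

/-! ### Coset representatives -/

/-- representatives for `KK` -/
noncomputable def rK (s : Bool × Bool) : MulAut PSL25 := (cond s.1 dl 1) * (cond s.2 ph 1)

/-- representatives for `HH` -/
noncomputable def rH (s : Bool) : MulAut PSL25 := cond s (dl * ph) 1

/-- action on the torus, for `KK` -/
def kK (s : Bool × Bool) : ZMod 12 := cond s.2 5 1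

/-- action on the torus, for `HH` -/
def kH (s : Bool) : ZMod 12 := cond s 5 1

/-- action on `F25`, for `KK` -/
def rhoK (s : Bool × Bool) (x : F25) : F25 := (cond s.1 om 1) * (cond s.2 (sg x) x)

/-- action on `F25`, for `HH` -/
def rhoH (s : Bool) (x : F25) : F25 := cond s (om * sg x) x

/-- dual action, for `KK` -/
def stK (s : Bool × Bool) (b : F25) : F25 :=
  cond s.2 (sg ((cond s.1 om 1) * b)) ((cond s.1 om 1) * b)

/-- dual action, for `HH` -/
def stH (s : Bool) (b : F25) : F25 := cond s (sg (om * b)) b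

lemma rK_tA (s : Bool × Bool) (k : ZMod 12) : rK s * tA k = tA (kK s * k) * rK s := by
  rcases s with ⟨_ | _, _ | _⟩ <;> simp only [rK, kK, cond_true, cond_false, one_mul, mul_one]
  · exact ph_tA k
  · exact dl_tA k
  · rw [mul_assoc, ph_tA, ← mul_assoc, dl_tA, mul_assoc]

lemma rH_tA (s : Bool) (k : ZMod 12) : rH s * tA k = tA (kH s * k) * rH s := by
  rcases s with _ | _ <;> simp only [rH, kH, cond_true, cond_false, one_mul, mul_one]
  rw [mul_assoc, ph_tA, ← mul_assoc, dl_tA, mul_assoc]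

lemma rK_uA (s : Bool × Bool) (x : F25) : rK s * uA x = uA (rhoK s x) * rK s := by
  rcases s with ⟨_ | _, _ | _⟩ <;> simp only [rK, rhoK, cond_true, cond_false, one_mul, mul_one]
  · exact ph_uA x
  · exact dl_uA x
  · rw [mul_assoc, ph_uA, ← mul_assoc, dl_uA, mul_assoc]

lemma rH_uA (s : Bool) (x : F25) : rH s * uA x = uA (rhoH s x) * rH s := by
  rcases s with _ | _ <;> simp only [rH, rhoH, cond_true, cond_false, one_mul, mul_one]
  rw [mul_assoc, ph_uA, ← mul_assoc, dl_uA, mul_assoc]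

lemma rhoK_bij (s : Bool × Bool) : Function.Bijective (rhoK s) := by
  have h1 := mulLeft_bijective₀ om om_ne
  rcases s with ⟨_ | _, _ | _⟩
  · have : rhoK (false, false) = id := by funext x; simp [rhoK]
    rw [this]; exact Function.bijective_id
  · have : rhoK (false, true) = sg := by funext x; simp [rhoK]
    rw [this]; exact sg_bij
  · exact h1
  · exact h1.comp sg_bij

lemma rhoH_bij (s : Bool) : Function.Bijective (rhoH s) := by
  have h1 := mulLeft_bijective₀ om om_ne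
  rcases s with _ | _
  · exact Function.bijective_id
  · exact h1.comp sg_bij

lemma ps_stK (s : Bool × Bool) (b x : F25) : ps (b * rhoK s x) = ps (stK s b * x) := by
  rcases s with ⟨_ | _, _ | _⟩ <;> simp only [rhoK, stK, cond_true, cond_false, one_mul]
  · rw [← ps_sg (b * sg x), map_mul sg, sg_sg]
  · congr 1; ring
  · rw [← ps_sg (b * (om * sg x)), map_mul sg, map_mul sg, sg_sg, map_mul sg]
    congr 1; ring

lemma ps_stH (s : Bool) (b x : F25) : ps (b * rhoH s x) = ps (stH s b * x) := by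
  rcases s with _ | _ <;> simp only [rhoH, stH, cond_true, cond_false]
  rw [← ps_sg (b * (om * sg x)), map_mul sg, map_mul sg, sg_sg, map_mul sg]
  congr 1; ring

lemma stK_ne (s : Bool × Bool) (b : F25) (hb : b ≠ 0) : stK s b ≠ 0 := by
  have := om_ne
  rcases s with ⟨_ | _, _ | _⟩ <;> simp only [stK, cond_true, cond_false, one_mul]
  · exact hb
  · exact sg_ne hb
  · exact mul_ne_zero this hb
  · exact sg_ne (mul_ne_zero this hb)

lemma stH_ne (s : Bool) (b : F25) (hb : b ≠ 0) : stH s b ≠ 0 := by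
  have := om_ne
  rcases s with _ | _ <;> simp only [stH, cond_true, cond_false]
  · exact hb
  · exact sg_ne (mul_ne_zero this hb)

lemma transK (b : F25) (hb : b ≠ 0) : ∃ s l, tt l * stK s 1 = b := by
  rcases tt_surj b with h | ⟨k, h | h⟩
  · exact absurd h hb
  · exact ⟨(false, false), k, by simp [stK, h]⟩
  · exact ⟨(true, false), k, by simp [stK, h, mul_comm]⟩

lemma transH (b : F25) (hb : b ≠ 0) : ∃ s l, tt l * stH s 1 = b := by
  rcases tt_surj b with h | ⟨k, h | h⟩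
  · exact absurd h hb
  · exact ⟨false, k, by simp [stH, h]⟩
  · refine ⟨true, k - 2, ?_⟩
    have e : tt k = tt (k - 2) * tt 2 := by rw [← tt_add, sub_add_cancel]
    simp only [stH, cond_true, mul_one, sg_om, h, e]
    ring

lemma tA_dlph (l : ZMod 12) : dl * tA l * ph = dl * ph * tA (5 * l) := by
  rw [mul_assoc, tA_ph, mul_assoc]

lemma kk (s : Bool × Bool) : kK s * kK s = 1 := by
  rcases s with ⟨_ | _, _ | _⟩ <;> decide

lemma kkH (s : Bool) : kH s * kH s = 1 := by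
  rcases s with _ | _ <;> decide

lemma bruhatK (a : MulAut PSL25) (ha : a ∈ KK) :
    (∃ x s l, a = uA x * rK s * tA l) ∨ ∃ x s l y, a = uA x * wA * rK s * tA l * uA y := by
  obtain ⟨g, hg⟩ := ha
  have hm : ∀ e, e ≠ 0 → ∃ (b : Bool) (l : ZMod 12), mA e = (cond b dl 1) * tA l := by
    intro e he
    rcases tt_surj e with h | ⟨k, h | h⟩
    · exact absurd h he
    · exact ⟨false, k, by rw [h]; simp [tA]⟩
    · exact ⟨true, k, by rw [h, mA_om_tt]; simp⟩
  rcases bruhat_cc g with ⟨x, e, he, -, h⟩ | ⟨x, e, y, he, -, h⟩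
  · obtain ⟨b, l, hbl⟩ := hm e he
    left
    rcases hg with rfl | rfl
    · refine ⟨x, (b, false), l, ?_⟩
      rw [h, hbl, rK]
      simp only [cond_false, mul_one, mul_assoc]
    · refine ⟨x, (b, true), 5 * l, ?_⟩
      rw [h, hbl, rK]
      simp only [cond_true, mul_assoc]
      rw [tA_ph]
  · obtain ⟨b, l, hbl⟩ := hm e he
    right
    rcases hg with rfl | rfl
    · refine ⟨x, (b, false), l, y, ?_⟩
      rw [h, hbl, rK]
      simp only [cond_false, mul_one, mul_assoc]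
    · refine ⟨x, (b, true), 5 * l, sg y, ?_⟩
      rw [h, hbl, rK]
      simp only [cond_true, mul_assoc]
      rw [uA_ph, ← mul_assoc (tA l), tA_ph]
      simp only [mul_assoc]

lemma bruhatH (a : MulAut PSL25) (ha : a ∈ HH) :
    (∃ x s l, a = uA x * rH s * tA l) ∨ ∃ x s l y, a = uA x * wA * rH s * tA l * uA y := by
  obtain ⟨g, hg⟩ := ha
  have hom : ∀ k, (om * tt k) ^ 12 = -1 := fun k => by rw [mul_pow, om_pow, tt_pow, mul_one]
  have hm1 : ∀ e, e ≠ 0 → e ^ 12 = 1 → ∃ (l : ZMod 12), mA e = tA l := by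
    intro e he h1
    rcases tt_surj e with h | ⟨k, h | h⟩
    · exact absurd h he
    · exact ⟨k, by rw [h]; rfl⟩
    · rw [h, hom] at h1
      exact absurd h1.symm one_ne_neg_one
  have hm2 : ∀ e, e ≠ 0 → e ^ 12 = -1 → ∃ (l : ZMod 12), mA e = dl * tA l := by
    intro e he h1
    rcases tt_surj e with h | ⟨k, h | h⟩
    · exact absurd h he
    · rw [h, tt_pow] at h1
      exact absurd h1 one_ne_neg_one
    · exact ⟨k, by rw [h, mA_om_tt]⟩
  rcases bruhat_cc g with ⟨x, e, he, hd, h⟩ | ⟨x, e, y, he, hd, h⟩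
  · left
    rcases hg with ⟨h2, rfl⟩ | ⟨h2, rfl⟩
    · obtain ⟨l, hl⟩ := hm1 e he (hd.trans h2)
      refine ⟨x, false, l, ?_⟩
      rw [h, hl, rH]
      simp only [cond_false, mul_one]
    · obtain ⟨l, hl⟩ := hm2 e he (hd.trans h2)
      refine ⟨x, true, 5 * l, ?_⟩
      rw [h, hl, rH]
      simp only [cond_true, mul_assoc]
      rw [tA_ph]
  · right
    rcases hg with ⟨h2, rfl⟩ | ⟨h2, rfl⟩
    · obtain ⟨l, hl⟩ := hm1 e he (hd.trans h2)
      refine ⟨x, false, l, y, ?_⟩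
      rw [h, hl, rH]
      simp only [cond_false, mul_one]
    · obtain ⟨l, hl⟩ := hm2 e he (hd.trans h2)
      refine ⟨x, true, 5 * l, sg y, ?_⟩
      rw [h, hl, rH]
      simp only [cond_true, mul_assoc]
      rw [uA_ph, ← mul_assoc (tA l), tA_ph]
      simp only [mul_assoc]

lemma dlph_sq : (dl * ph) * (dl * ph) = tA 3 := by
  rw [mul_assoc, ← mul_assoc ph, ph_dl, mul_assoc (dl * tA 2), ph_ph, mul_one, ← mul_assoc,
    dl_dl, ← tA_add]
  congr 1

lemma dl_mem_KK : dl ∈ KK := mA_mem_KK _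

lemma rK_mem (s : Bool × Bool) : rK s ∈ KK := by
  refine KK.mul_mem ?_ ?_
  · rcases s with ⟨_ | _, _⟩
    · exact KK.one_mem
    · exact dl_mem_KK
  · rcases s with ⟨_, _ | _⟩
    · exact KK.one_mem
    · exact ph_mem_KK

lemma rH_mem (s : Bool) : rH s ∈ HH := by
  rcases s with _ | _
  · exact HH.one_mem
  · exact dlph_mem_HH

/-- Bruhat data for the large group. -/
noncomputable def BK : BData KK ps where
  R := Bool × Bool
  fR := inferInstance
  dR := inferInstance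
  u x := ⟨uA x, HH_le_KK (uA_mem_HH x)⟩
  t k := ⟨tA k, HH_le_KK (tA_mem_HH k)⟩
  w := ⟨wA, HH_le_KK wA_mem_HH⟩
  r s := ⟨rK s, rK_mem s⟩
  κ := kK
  γ := tt
  ρ := rhoK
  st := stK
  τ := tau
  r1 := ⟨dl, dl_mem_KK⟩
  r2 := ⟨ph, ph_mem_KK⟩
  u_zero := Subtype.ext uA_zero
  u_add x y := Subtype.ext (uA_add x y)
  t_zero := Subtype.ext tA_zero
  t_add x y := Subtype.ext (tA_add x y)
  ww := Subtype.ext wA_wA
  wt k := Subtype.ext (wA_tA k)
  rt s k := Subtype.ext (rK_tA s k)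
  κκ := kk
  tu k x := Subtype.ext (tA_uA k x)
  γ0 := tt_ne
  ru s x := Subtype.ext (rK_uA s x)
  ρbij := rhoK_bij
  ψst := ps_stK
  st0 := stK_ne
  trans := transK
  wuw x hx := Subtype.ext (wA_uA_wA' hx)
  τ1 := tau_one
  bruhat g := by
    rcases bruhatK g.1 g.2 with ⟨x, s, l, h⟩ | ⟨x, s, l, y, h⟩
    · exact Or.inl ⟨x, s, l, Subtype.ext h⟩
    · exact Or.inr ⟨x, s, l, y, Subtype.ext h⟩
  card_eq := by rw [card_KK]; rfl
  rgen s := by
    rcases s with ⟨_ | _, _ | _⟩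
    · exact ⟨0, 0, Subtype.ext (by simp [rK])⟩
    · exact ⟨0, 1, Subtype.ext (by simp [rK])⟩
    · exact ⟨1, 0, Subtype.ext (by simp [rK])⟩
    · exact ⟨1, 1, Subtype.ext (by simp [rK])⟩
  r1t k := ⟨k, Subtype.ext (dl_tA k).symm⟩
  r2t k := ⟨5 * k, Subtype.ext (tA_ph k)⟩
  r1u x := ⟨om⁻¹ * x, Subtype.ext (by
    change uA x * dl = dl * uA (om⁻¹ * x)
    rw [dl_uA, mul_inv_cancel_left₀ om_ne])⟩
  r2u x := ⟨sg x, Subtype.ext (uA_ph x)⟩
  r1sq := ⟨1, Subtype.ext dl_dl⟩
  r2sq := ⟨0, Subtype.ext (by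
    change ph * ph = tA 0
    rw [ph_ph, tA_zero])⟩
  r12 := ⟨-10, Subtype.ext (by
    change dl * ph = ph * dl * tA (-10)
    rw [ph_dl, mul_assoc, ph_tA, ← mul_assoc, mul_assoc dl, ← tA_add]
    have : (2 : ZMod 12) + 5 * -10 = 0 := by decide
    rw [this, tA_zero, mul_one])⟩

/-- Bruhat data for the small group. -/
noncomputable def BH : BData HH ps where
  R := Bool
  fR := inferInstance
  dR := inferInstance
  u x := ⟨uA x, uA_mem_HH x⟩
  t k := ⟨tA k, tA_mem_HH k⟩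
  w := ⟨wA, wA_mem_HH⟩
  r s := ⟨rH s, rH_mem s⟩
  κ := kH
  γ := tt
  ρ := rhoH
  st := stH
  τ := tau
  r1 := ⟨dl * ph, dlph_mem_HH⟩
  r2 := 1
  u_zero := Subtype.ext uA_zero
  u_add x y := Subtype.ext (uA_add x y)
  t_zero := Subtype.ext tA_zero
  t_add x y := Subtype.ext (tA_add x y)
  ww := Subtype.ext wA_wA
  wt k := Subtype.ext (wA_tA k)
  rt s k := Subtype.ext (rH_tA s k)
  κκ := kkH
  tu k x := Subtype.ext (tA_uA k x)
  γ0 := tt_ne
  ru s x := Subtype.ext (rH_uA s x)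
  ρbij := rhoH_bij
  ψst := ps_stH
  st0 := stH_ne
  trans := transH
  wuw x hx := Subtype.ext (wA_uA_wA' hx)
  τ1 := tau_one
  bruhat g := by
    rcases bruhatH g.1 g.2 with ⟨x, s, l, h⟩ | ⟨x, s, l, y, h⟩
    · exact Or.inl ⟨x, s, l, Subtype.ext h⟩
    · exact Or.inr ⟨x, s, l, y, Subtype.ext h⟩
  card_eq := by rw [card_HH]; rfl
  rgen s := by
    rcases s with _ | _
    · exact ⟨0, 0, Subtype.ext (by simp [rH])⟩
    · exact ⟨1, 0, Subtype.ext (by simp [rH])⟩
  r1t k := ⟨5 * k, Subtype.ext (by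
    change tA k * (dl * ph) = dl * ph * tA (5 * k)
    rw [← mul_assoc, ← dl_tA, tA_dlph])⟩
  r2t k := ⟨k, by rw [mul_one, one_mul]⟩
  r1u x := ⟨sg (om⁻¹ * x), Subtype.ext (by
    change uA x * (dl * ph) = dl * ph * uA (sg (om⁻¹ * x))
    rw [mul_assoc, ph_uA, sg_sg, ← mul_assoc, ← mul_assoc, dl_uA, mul_inv_cancel_left₀ om_ne])⟩
  r2u x := ⟨x, by rw [mul_one, one_mul]⟩
  r1sq := ⟨3, Subtype.ext dlph_sq⟩
  r2sq := ⟨0, Subtype.ext (by
    change (1 : MulAut PSL25) * 1 = tA 0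
    rw [one_mul, tA_zero])⟩
  r12 := ⟨0, Subtype.ext (by
    change dl * ph * 1 = 1 * (dl * ph) * tA 0
    rw [tA_zero, mul_one, mul_one, one_mul])⟩

/-- The full torus of the large group. -/
noncomputable def CK : BData.CData BK where
  mm a := ⟨mA a, mA_mem_KK a⟩
  phi := ⟨ph, ph_mem_KK⟩
  σ := sg
  mm_mul a b ha hb := Subtype.ext (mA_mul ha hb)
  mu a x ha := Subtype.ext (mA_uA x ha)
  wm a ha := Subtype.ext (wA_mA ha)
  wuw' x hx := Subtype.ext (wA_uA_wA hx)
  phiu x := Subtype.ext (ph_uA x)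
  σbij := sg_bij
  ψσ := ps_sg
  cover := by
    rintro ⟨a, g, hg⟩
    have key : ∀ g : GL25, ∀ hg : cc g ∈ KK,
        ((∃ x a, a ≠ 0 ∧ (⟨cc g, hg⟩ : KK) = BK.u x * ⟨mA a, mA_mem_KK a⟩) ∨
        ∃ x a y, a ≠ 0 ∧ (⟨cc g, hg⟩ : KK) = BK.u x * BK.w * ⟨mA a, mA_mem_KK a⟩ * BK.u y) := by
      intro g hg
      rcases bruhat_cc g with ⟨x, e, he, -, h⟩ | ⟨x, e, y, he, -, h⟩
      · exact Or.inl ⟨x, e, he, Subtype.ext h⟩
      · exact Or.inr ⟨x, e, y, he, Subtype.ext h⟩
    rcases hg with rfl | rfl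
    · exact ⟨⟨cc g, g, Or.inl rfl⟩, Or.inl rfl, key g _⟩
    · refine ⟨⟨cc (frGL g), frGL g, Or.inl rfl⟩, Or.inr (Subtype.ext ?_), key (frGL g) _⟩
      change cc g * ph = ph * cc (frGL g)
      rw [ph_cc]
      congr 2
      apply Units.ext
      refine Matrix.ext fun i j => ?_
      exact (sg_sg _).symm

set_option maxRecDepth 100000 in
lemma KCond_K : BK.KCond 2 := by
  change ∀ j k : ZMod 12,
    (Finset.univ.filter fun s : Bool × Bool => kK s * j = k).card +
      (Finset.univ.filter fun s : Bool × Bool => j = -(kK s * k)).card = 2 * ee j k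
  decide

set_option maxRecDepth 100000 in
lemma KCond_H : BH.KCond 1 := by
  change ∀ j k : ZMod 12,
    (Finset.univ.filter fun s : Bool => kH s * j = k).card +
      (Finset.univ.filter fun s : Bool => j = -(kH s * k)).card = 1 * ee j k
  decide

end Pool.Agent.Lib_helper3
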