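import Mathlib
import Pool.Agent.Lib_helper3.BInst

/-!
Every element of the small group is conjugate to one of fifteen representatives.
-/

open Matrix

namespace Pool.Agent.Lib_helper3

open F25

/-- Two by two matrices, as tuples. -/
structure M4 where
  a : F25
  b : F25
  c : F25
  d : F25
deriving DecidableEq

namespace M4

/-- product -/
def mul (M N : M4) : M4 :=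
  ⟨M.a * N.a + M.b * N.c, M.a * N.b + M.b * N.d, M.c * N.a + M.d * N.c, M.c * N.b + M.d * N.d⟩

/-- Frobenius -/
def fr (M : M4) : M4 := ⟨sg M.a, sg M.b, sg M.c, sg M.d⟩

/-- scalar multiple -/
def sm (r : F25) (M : M4) : M4 := ⟨r * M.a, r * M.b, r * M.c, r * M.d⟩

/-- determinant -/
def det (M : M4) : F25 := M.a * M.d - M.b * M.c

/-- The action of the matrix -/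
noncomputable def A (M : M4) : MulAut PSL25 :=
  if h : M.det ≠ 0 then cc (mkG M.a M.b M.c M.d h) else 1

lemma A_def {M : M4} (h : M.det ≠ 0) : M.A = cc (mkG M.a M.b M.c M.d h) := dif_pos h

lemma A_mul {M N : M4} (h : M.det ≠ 0) (h' : N.det ≠ 0) : M.A * N.A = (M.mul N).A := by
  have h'' : (M.mul N).det ≠ 0 := mul_det_ne h h'
  rw [A_def h, A_def h', A_def h'', ← map_mul]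
  exact congrArg cc (mkG_mul h h')

lemma fr_det {M : M4} (h : M.det ≠ 0) : M.fr.det ≠ 0 := by
  have : M.fr.det = sg M.det := by
    simp only [det, fr, map_sub, map_mul]
  rw [this]
  exact sg_ne h

lemma ph_A {M : M4} (h : M.det ≠ 0) : ph * M.A = M.fr.A * ph := by
  rw [A_def h, ph_cc, A_def (fr_det h)]
  exact congrArg (fun g => cc g * ph) (frGL_mkG _ _ _ _ h (fr_det h))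

lemma A_sm {M : M4} {r : F25} (h : M.det ≠ 0) (h' : (sm r M).det ≠ 0) : (sm r M).A = M.A := by
  rw [A_def h, A_def h']
  exact cc_mkG_eq r rfl rfl rfl rfl

end M4

/-- A row of the table: an element, a representative, a conjugating matrix, the power of
Frobenius, and a scalar. -/
structure Row where
  kind : Fin 3
  s : Bool
  l : ZMod 12
  r : Fin 15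
  X : M4
  xb : Bool
  lam : F25

/-- Matrix part of the standard elements. -/
def eM (kind : Fin 3) (s : Bool) (l : ZMod 12) : M4 :=
  ![⟨cond s (om * sg (tt l)) (tt l), 0, 0, 1⟩, ⟨0, 1, cond s (om * sg (tt l)) (tt l), 0⟩,
    ⟨cond s (om * sg (tt l)) (tt l), 1, cond s (om * sg (tt l)) (tt l), 0⟩] kind

/-- Representatives of the conjugacy classes. -/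
def rep : Fin 15 → Fin 3 × Bool × ZMod 12 :=
  ![(0, false, 0), (0, false, 1), (0, false, 2), (0, false, 3), (0, false, 4), (0, false, 6), (0, true, 0), (0, true, 1), (1, true, 0), (1, true, 2), (1, true, 3), (2, false, 0), (2, false, 1), (2, false, 4), (2, false, 7)]

/-- Conjugating elements. -/
def table : List Row := [
  ⟨0, false, 0, 0, ⟨⟨0, 0⟩, ⟨1, 0⟩, ⟨0, 1⟩, ⟨0, 0⟩⟩, true, ⟨1, 0⟩⟩,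
  ⟨0, false, 1, 1, ⟨⟨1, 0⟩, ⟨0, 0⟩, ⟨0, 0⟩, ⟨1, 0⟩⟩, false, ⟨1, 0⟩⟩,
  ⟨0, false, 2, 2, ⟨⟨0, 0⟩, ⟨1, 0⟩, ⟨0, 1⟩, ⟨0, 0⟩⟩, true, ⟨3, 3⟩⟩,
  ⟨0, false, 3, 3, ⟨⟨1, 0⟩, ⟨0, 0⟩, ⟨0, 0⟩, ⟨0, 1⟩⟩, true, ⟨1, 0⟩⟩,
  ⟨0, false, 4, 4, ⟨⟨0, 0⟩, ⟨1, 0⟩, ⟨0, 1⟩, ⟨0, 0⟩⟩, true, ⟨2, 3⟩⟩,
  ⟨0, false, 5, 1, ⟨⟨1, 0⟩, ⟨0, 0⟩, ⟨0, 0⟩, ⟨0, 1⟩⟩, true, ⟨1, 0⟩⟩,
  ⟨0, false, 6, 5, ⟨⟨0, 0⟩, ⟨1, 0⟩, ⟨0, 1⟩, ⟨0, 0⟩⟩, true, ⟨4, 0⟩⟩,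
  ⟨0, false, 7, 1, ⟨⟨0, 0⟩, ⟨1, 0⟩, ⟨0, 1⟩, ⟨0, 0⟩⟩, true, ⟨1, 4⟩⟩,
  ⟨0, false, 8, 4, ⟨⟨0, 0⟩, ⟨1, 0⟩, ⟨1, 0⟩, ⟨0, 0⟩⟩, false, ⟨2, 3⟩⟩,
  ⟨0, false, 9, 3, ⟨⟨0, 0⟩, ⟨1, 0⟩, ⟨0, 1⟩, ⟨0, 0⟩⟩, true, ⟨2, 0⟩⟩,
  ⟨0, false, 10, 2, ⟨⟨0, 0⟩, ⟨1, 0⟩, ⟨1, 0⟩, ⟨0, 0⟩⟩, false, ⟨3, 3⟩⟩,
  ⟨0, false, 11, 1, ⟨⟨0, 0⟩, ⟨1, 0⟩, ⟨1, 0⟩, ⟨0, 0⟩⟩, false, ⟨1, 4⟩⟩,
  ⟨0, true, 0, 6, ⟨⟨1, 0⟩, ⟨0, 0⟩, ⟨0, 0⟩, ⟨1, 0⟩⟩, false, ⟨1, 0⟩⟩,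
  ⟨0, true, 1, 7, ⟨⟨1, 0⟩, ⟨0, 0⟩, ⟨0, 0⟩, ⟨1, 0⟩⟩, false, ⟨1, 0⟩⟩,
  ⟨0, true, 2, 7, ⟨⟨0, 0⟩, ⟨1, 0⟩, ⟨1, 1⟩, ⟨0, 0⟩⟩, false, ⟨4, 3⟩⟩,
  ⟨0, true, 3, 6, ⟨⟨0, 0⟩, ⟨1, 0⟩, ⟨0, 1⟩, ⟨0, 0⟩⟩, true, ⟨2, 1⟩⟩,
  ⟨0, true, 4, 6, ⟨⟨1, 0⟩, ⟨0, 0⟩, ⟨0, 0⟩, ⟨0, 1⟩⟩, true, ⟨4, 0⟩⟩,
  ⟨0, true, 5, 7, ⟨⟨1, 0⟩, ⟨0, 0⟩, ⟨0, 0⟩, ⟨1, 1⟩⟩, false, ⟨2, 3⟩⟩,
  ⟨0, true, 6, 7, ⟨⟨0, 0⟩, ⟨1, 0⟩, ⟨1, 0⟩, ⟨0, 0⟩⟩, false, ⟨4, 3⟩⟩,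
  ⟨0, true, 7, 6, ⟨⟨0, 0⟩, ⟨1, 0⟩, ⟨1, 0⟩, ⟨0, 0⟩⟩, false, ⟨2, 1⟩⟩,
  ⟨0, true, 8, 6, ⟨⟨1, 0⟩, ⟨0, 0⟩, ⟨0, 0⟩, ⟨1, 2⟩⟩, true, ⟨3, 3⟩⟩,
  ⟨0, true, 9, 7, ⟨⟨1, 0⟩, ⟨0, 0⟩, ⟨0, 0⟩, ⟨0, 1⟩⟩, true, ⟨4, 0⟩⟩,
  ⟨0, true, 10, 7, ⟨⟨0, 0⟩, ⟨1, 0⟩, ⟨0, 1⟩, ⟨0, 0⟩⟩, true, ⟨4, 3⟩⟩,
  ⟨0, true, 11, 6, ⟨⟨0, 0⟩, ⟨1, 0⟩, ⟨1, 2⟩, ⟨0, 0⟩⟩, true, ⟨2, 1⟩⟩,
  ⟨1, false, 0, 5, ⟨⟨1, 0⟩, ⟨1, 0⟩, ⟨0, 1⟩, ⟨0, 4⟩⟩, true, ⟨4, 0⟩⟩,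
  ⟨1, false, 1, 5, ⟨⟨1, 0⟩, ⟨2, 1⟩, ⟨0, 1⟩, ⟨3, 3⟩⟩, false, ⟨4, 3⟩⟩,
  ⟨1, false, 2, 5, ⟨⟨1, 0⟩, ⟨1, 1⟩, ⟨0, 1⟩, ⟨3, 4⟩⟩, true, ⟨1, 4⟩⟩,
  ⟨1, false, 3, 5, ⟨⟨1, 0⟩, ⟨0, 1⟩, ⟨0, 1⟩, ⟨3, 0⟩⟩, false, ⟨0, 2⟩⟩,
  ⟨1, false, 4, 5, ⟨⟨1, 0⟩, ⟨2, 2⟩, ⟨1, 0⟩, ⟨3, 3⟩⟩, false, ⟨3, 2⟩⟩,
  ⟨1, false, 5, 5, ⟨⟨1, 0⟩, ⟨2, 1⟩, ⟨1, 0⟩, ⟨3, 4⟩⟩, true, ⟨4, 3⟩⟩,
  ⟨1, false, 6, 5, ⟨⟨1, 0⟩, ⟨2, 0⟩, ⟨0, 1⟩, ⟨0, 3⟩⟩, true, ⟨2, 0⟩⟩,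
  ⟨1, false, 7, 5, ⟨⟨1, 0⟩, ⟨1, 2⟩, ⟨1, 0⟩, ⟨4, 3⟩⟩, true, ⟨3, 4⟩⟩,
  ⟨1, false, 8, 5, ⟨⟨1, 0⟩, ⟨2, 2⟩, ⟨0, 1⟩, ⟨1, 3⟩⟩, true, ⟨3, 2⟩⟩,
  ⟨1, false, 9, 5, ⟨⟨1, 0⟩, ⟨0, 2⟩, ⟨0, 1⟩, ⟨1, 0⟩⟩, false, ⟨0, 1⟩⟩,
  ⟨1, false, 10, 5, ⟨⟨1, 0⟩, ⟨1, 1⟩, ⟨1, 0⟩, ⟨4, 4⟩⟩, false, ⟨1, 4⟩⟩,
  ⟨1, false, 11, 5, ⟨⟨1, 0⟩, ⟨1, 2⟩, ⟨0, 1⟩, ⟨1, 4⟩⟩, false, ⟨3, 4⟩⟩,
  ⟨1, true, 0, 8, ⟨⟨0, 0⟩, ⟨1, 0⟩, ⟨0, 1⟩, ⟨0, 0⟩⟩, true, ⟨2, 2⟩⟩,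
  ⟨1, true, 1, 8, ⟨⟨0, 0⟩, ⟨1, 0⟩, ⟨1, 1⟩, ⟨0, 0⟩⟩, false, ⟨4, 3⟩⟩,
  ⟨1, true, 2, 9, ⟨⟨0, 0⟩, ⟨1, 0⟩, ⟨0, 1⟩, ⟨0, 0⟩⟩, true, ⟨4, 0⟩⟩,
  ⟨1, true, 3, 10, ⟨⟨0, 0⟩, ⟨1, 0⟩, ⟨0, 2⟩, ⟨0, 0⟩⟩, true, ⟨3, 3⟩⟩,
  ⟨1, true, 4, 10, ⟨⟨0, 0⟩, ⟨1, 0⟩, ⟨1, 0⟩, ⟨0, 0⟩⟩, false, ⟨4, 2⟩⟩,
  ⟨1, true, 5, 9, ⟨⟨0, 0⟩, ⟨1, 0⟩, ⟨1, 0⟩, ⟨0, 0⟩⟩, false, ⟨0, 2⟩⟩,
  ⟨1, true, 6, 8, ⟨⟨0, 0⟩, ⟨1, 0⟩, ⟨0, 2⟩, ⟨0, 0⟩⟩, true, ⟨4, 4⟩⟩,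
  ⟨1, true, 7, 8, ⟨⟨0, 0⟩, ⟨1, 0⟩, ⟨1, 0⟩, ⟨0, 0⟩⟩, false, ⟨2, 1⟩⟩,
  ⟨1, true, 8, 9, ⟨⟨0, 0⟩, ⟨1, 0⟩, ⟨0, 2⟩, ⟨0, 0⟩⟩, true, ⟨3, 0⟩⟩,
  ⟨1, true, 9, 10, ⟨⟨0, 0⟩, ⟨1, 0⟩, ⟨0, 1⟩, ⟨0, 0⟩⟩, true, ⟨4, 4⟩⟩,
  ⟨1, true, 10, 10, ⟨⟨0, 0⟩, ⟨1, 0⟩, ⟨1, 1⟩, ⟨0, 0⟩⟩, false, ⟨3, 1⟩⟩,
  ⟨1, true, 11, 9, ⟨⟨0, 0⟩, ⟨1, 0⟩, ⟨1, 1⟩, ⟨0, 0⟩⟩, false, ⟨4, 2⟩⟩,
  ⟨2, false, 0, 11, ⟨⟨0, 0⟩, ⟨1, 0⟩, ⟨1, 0⟩, ⟨4, 0⟩⟩, false, ⟨1, 0⟩⟩,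
  ⟨2, false, 1, 12, ⟨⟨0, 0⟩, ⟨1, 0⟩, ⟨4, 4⟩, ⟨1, 1⟩⟩, false, ⟨1, 0⟩⟩,
  ⟨2, false, 2, 1, ⟨⟨1, 0⟩, ⟨0, 3⟩, ⟨1, 0⟩, ⟨4, 2⟩⟩, false, ⟨3, 1⟩⟩,
  ⟨2, false, 3, 3, ⟨⟨1, 0⟩, ⟨1, 0⟩, ⟨0, 1⟩, ⟨0, 3⟩⟩, true, ⟨2, 0⟩⟩,
  ⟨2, false, 4, 13, ⟨⟨0, 0⟩, ⟨1, 0⟩, ⟨2, 2⟩, ⟨3, 3⟩⟩, false, ⟨1, 0⟩⟩,
  ⟨2, false, 5, 12, ⟨⟨1, 0⟩, ⟨0, 1⟩, ⟨3, 4⟩, ⟨3, 1⟩⟩, true, ⟨1, 0⟩⟩,
  ⟨2, false, 6, 4, ⟨⟨1, 0⟩, ⟨2, 2⟩, ⟨0, 1⟩, ⟨1, 2⟩⟩, false, ⟨2, 2⟩⟩,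
  ⟨2, false, 7, 14, ⟨⟨0, 0⟩, ⟨1, 0⟩, ⟨1, 1⟩, ⟨4, 4⟩⟩, false, ⟨1, 0⟩⟩,
  ⟨2, false, 8, 13, ⟨⟨1, 0⟩, ⟨0, 1⟩, ⟨4, 2⟩, ⟨2, 3⟩⟩, true, ⟨1, 0⟩⟩,
  ⟨2, false, 9, 2, ⟨⟨1, 0⟩, ⟨2, 4⟩, ⟨0, 1⟩, ⟨2, 2⟩⟩, false, ⟨1, 2⟩⟩,
  ⟨2, false, 10, 1, ⟨⟨1, 0⟩, ⟨0, 3⟩, ⟨0, 1⟩, ⟨4, 4⟩⟩, true, ⟨3, 1⟩⟩,
  ⟨2, false, 11, 14, ⟨⟨1, 0⟩, ⟨0, 3⟩, ⟨1, 3⟩, ⟨0, 2⟩⟩, true, ⟨1, 0⟩⟩,
  ⟨2, true, 0, 9, ⟨⟨1, 0⟩, ⟨2, 2⟩, ⟨0, 2⟩, ⟨4, 4⟩⟩, false, ⟨1, 1⟩⟩,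
  ⟨2, true, 1, 6, ⟨⟨1, 0⟩, ⟨3, 2⟩, ⟨1, 4⟩, ⟨2, 1⟩⟩, false, ⟨0, 2⟩⟩,
  ⟨2, true, 2, 8, ⟨⟨1, 0⟩, ⟨2, 1⟩, ⟨1, 1⟩, ⟨3, 0⟩⟩, true, ⟨2, 0⟩⟩,
  ⟨2, true, 3, 7, ⟨⟨1, 0⟩, ⟨1, 2⟩, ⟨1, 3⟩, ⟨0, 1⟩⟩, true, ⟨2, 2⟩⟩,
  ⟨2, true, 4, 6, ⟨⟨1, 0⟩, ⟨0, 1⟩, ⟨1, 3⟩, ⟨0, 3⟩⟩, true, ⟨4, 4⟩⟩,
  ⟨2, true, 5, 7, ⟨⟨1, 0⟩, ⟨3, 1⟩, ⟨1, 0⟩, ⟨1, 1⟩⟩, false, ⟨4, 4⟩⟩,
  ⟨2, true, 6, 7, ⟨⟨1, 0⟩, ⟨4, 1⟩, ⟨1, 4⟩, ⟨3, 1⟩⟩, false, ⟨3, 4⟩⟩,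
  ⟨2, true, 7, 10, ⟨⟨1, 0⟩, ⟨2, 0⟩, ⟨0, 1⟩, ⟨2, 2⟩⟩, false, ⟨2, 2⟩⟩,
  ⟨2, true, 8, 10, ⟨⟨1, 0⟩, ⟨2, 1⟩, ⟨0, 2⟩, ⟨2, 4⟩⟩, false, ⟨1, 2⟩⟩,
  ⟨2, true, 9, 8, ⟨⟨1, 0⟩, ⟨2, 0⟩, ⟨1, 0⟩, ⟨2, 1⟩⟩, true, ⟨1, 3⟩⟩,
  ⟨2, true, 10, 9, ⟨⟨1, 0⟩, ⟨2, 1⟩, ⟨1, 0⟩, ⟨2, 2⟩⟩, true, ⟨2, 2⟩⟩,
  ⟨2, true, 11, 6, ⟨⟨1, 0⟩, ⟨1, 1⟩, ⟨0, 1⟩, ⟨2, 3⟩⟩, true, ⟨1, 2⟩⟩]

/-- The property checked for each row. -/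
def Row.ok (R : Row) : Prop :=
  R.X.det ^ 12 = cond R.xb (-1) 1 ∧ R.lam ≠ 0 ∧ (rep R.r).2.1 = R.s ∧
  R.X.mul (cond R.xb (eM R.kind R.s R.l).fr (eM R.kind R.s R.l)) =
    M4.sm R.lam ((eM (rep R.r).1 (rep R.r).2.1 (rep R.r).2.2).mul (cond R.s R.X.fr R.X))

instance (R : Row) : Decidable R.ok := by unfold Row.ok; infer_instance

set_option maxRecDepth 1000000 in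
lemma table_ok : ∀ R ∈ table, R.ok := by decide

set_option maxRecDepth 1000000 in
lemma table_complete : ∀ (kind : Fin 3) (s : Bool) (l : ZMod 12),
    ∃ R ∈ table, R.kind = kind ∧ R.s = s ∧ R.l = l := by decide


/-! ### Conjugation -/

/-- Conjugacy in the small group, for elements of the automorphism group. -/
def Cj (a b : MulAut PSL25) : Prop := ∃ x ∈ HH, a = x * b * x⁻¹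

lemma Cj.trans {a b c : MulAut PSL25} (h : Cj a b) (h' : Cj b c) : Cj a c := by
  obtain ⟨x, hx, rfl⟩ := h
  obtain ⟨y, hy, rfl⟩ := h'
  exact ⟨x * y, HH.mul_mem hx hy, by group⟩

lemma Cj.of_mul {a b x : MulAut PSL25} (hx : x ∈ HH) (h : x * a = b * x) : Cj a b :=
  ⟨x⁻¹, HH.inv_mem hx, by rw [inv_inv, mul_assoc, ← h, inv_mul_cancel_left]⟩

/-- The standard elements. -/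
noncomputable def elA (k : Fin 3 × Bool × ZMod 12) : MulAut PSL25 :=
  (![1, wA, uA 1 * wA] k.1) * rH k.2.1 * tA k.2.2

lemma A_zero {e : F25} (he : e ≠ 0) : M4.A ⟨e, 0, 0, 1⟩ = mA e := by
  rw [M4.A_def (by simpa [M4.det] using he), mA_def he]

lemma A_w : M4.A ⟨0, 1, 1, 0⟩ = wA := by
  rw [M4.A_def (by simp [M4.det]), wA]

lemma A_u : M4.A ⟨1, 1, 0, 1⟩ = uA 1 := by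
  rw [M4.A_def (by simp [M4.det]), uA]

/-- the diagonal entry -/
def ent (s : Bool) (l : ZMod 12) : F25 := cond s (om * sg (tt l)) (tt l)

lemma ent_ne (s : Bool) (l : ZMod 12) : ent s l ≠ 0 := by
  rcases s with _ | _
  · exact tt_ne l
  · exact mul_ne_zero om_ne (sg_ne (tt_ne l))

lemma rH_mul_tA (s : Bool) (l : ZMod 12) : rH s * tA l = mA (ent s l) * cond s ph 1 := by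
  rcases s with _ | _
  · simp [rH, ent, tA]
  · simp only [rH, ent, cond_true]
    rw [mul_assoc, ph_tA, mA_mul om_ne (sg_ne (tt_ne l)), mul_assoc, sg_tt]
    rfl

lemma eM_det (k : Fin 3) (s : Bool) (l : ZMod 12) : (eM k s l).det ≠ 0 := by
  have h := ent_ne s l
  fin_cases k
  · change ent s l * 1 - 0 * 0 ≠ 0
    simpa using h
  · change 0 * 0 - 1 * ent s l ≠ 0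
    simpa using h
  · change ent s l * 0 - 1 * ent s l ≠ 0
    simpa using h

lemma elA_eq (k : Fin 3) (s : Bool) (l : ZMod 12) :
    elA (k, s, l) = (eM k s l).A * cond s ph 1 := by
  have h := ent_ne s l
  have hd : M4.det ⟨ent s l, 0, 0, 1⟩ ≠ 0 := by simpa [M4.det] using h
  have hw : M4.det ⟨0, 1, 1, 0⟩ ≠ 0 := by simp [M4.det]
  have hu : M4.det ⟨1, 1, 0, 1⟩ ≠ 0 := by simp [M4.det]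
  unfold elA
  rw [mul_assoc, rH_mul_tA, ← mul_assoc, ← A_zero h]
  refine congrArg (· * cond s ph 1) ?_
  generalize hent : ent s l = e at *
  have e1 : (M4.mk 0 1 1 0).mul ⟨e, 0, 0, 1⟩ = ⟨0, 1, e, 0⟩ := by simp [M4.mul]
  have e2 : ((M4.mk 1 1 0 1).mul ⟨0, 1, 1, 0⟩).mul ⟨e, 0, 0, 1⟩ = ⟨e, 1, e, 0⟩ := by
    simp [M4.mul]
  have e3 : eM 0 s l = ⟨e, 0, 0, 1⟩ := by rw [← hent]; rfl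
  have e4 : eM 1 s l = ⟨0, 1, e, 0⟩ := by rw [← hent]; rfl
  have e5 : eM 2 s l = ⟨e, 1, e, 0⟩ := by rw [← hent]; rfl
  fin_cases k
  · change 1 * M4.A ⟨e, 0, 0, 1⟩ = (eM 0 s l).A
    rw [one_mul, e3]
  · change wA * M4.A ⟨e, 0, 0, 1⟩ = (eM 1 s l).A
    rw [← A_w, M4.A_mul hw hd, e1, e4]
  · change uA 1 * wA * M4.A ⟨e, 0, 0, 1⟩ = (eM 2 s l).A
    have hm : ((M4.mk 1 1 0 1).mul ⟨0, 1, 1, 0⟩).det ≠ 0 := by decide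
    rw [← A_w, ← A_u, M4.A_mul hu hw, M4.A_mul hm hd, e2, e5]

lemma ph_cond (s t : Bool) : cond s ph 1 * cond t ph 1 = cond t ph 1 * cond s ph 1 := by
  rcases s with _ | _ <;> rcases t with _ | _
  · rfl
  · exact (one_mul ph).trans (mul_one ph).symm
  · exact (mul_one ph).trans (one_mul ph).symm
  · rfl

lemma cond_ph_A (s : Bool) {M : M4} (h : M.det ≠ 0) :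
    cond s ph 1 * M.A = (cond s M.fr M).A * cond s ph 1 := by
  rcases s with _ | _
  · exact (one_mul M.A).trans (mul_one M.A).symm
  · exact M4.ph_A h

lemma X_mem {X : M4} {xb : Bool} (h : X.det ^ 12 = cond xb (-1) 1) :
    X.det ≠ 0 ∧ X.A * cond xb ph 1 ∈ HH := by
  have h0 : X.det ≠ 0 := by
    intro h0
    rw [h0, zero_pow (by norm_num)] at h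
    rcases xb with _ | _
    · exact zero_ne_one (α := F25) h
    · have h1 := congrArg Neg.neg h
      simp at h1
  refine ⟨h0, ?_⟩
  rw [M4.A_def h0]
  rcases xb with _ | _
  · refine ⟨_, Or.inl ⟨?_, mul_one _⟩⟩
    exact (congrArg (· ^ 12) (det_mkG _ _ _ _ h0)).trans h
  · refine ⟨_, Or.inr ⟨?_, rfl⟩⟩
    exact (congrArg (· ^ 12) (det_mkG _ _ _ _ h0)).trans h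

lemma conj_aux {X E R : M4} (hX : X.det ≠ 0) (hE : E.det ≠ 0) (hR : R.det ≠ 0) {xb s : Bool}
    {lam : F25}
    (h : X.mul (cond xb E.fr E) = M4.sm lam (R.mul (cond s X.fr X))) :
    (X.A * cond xb ph 1) * (E.A * cond s ph 1) = (R.A * cond s ph 1) * (X.A * cond xb ph 1) := by
  have hE' : (cond xb E.fr E).det ≠ 0 := by
    rcases xb with _ | _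
    · exact hE
    · exact M4.fr_det hE
  have hX' : (cond s X.fr X).det ≠ 0 := by
    rcases s with _ | _
    · exact hX
    · exact M4.fr_det hX
  have h1 : (R.mul (cond s X.fr X)).det ≠ 0 := mul_det_ne hR hX'
  have h2 : (M4.sm lam (R.mul (cond s X.fr X))).det ≠ 0 := by
    rw [← h]; exact mul_det_ne hX hE'
  calc (X.A * cond xb ph 1) * (E.A * cond s ph 1)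
      = X.A * (cond xb ph 1 * E.A) * cond s ph 1 := by simp only [mul_assoc]
    _ = (X.A * (cond xb E.fr E).A) * (cond xb ph 1 * cond s ph 1) := by
        rw [cond_ph_A xb hE]; simp only [mul_assoc]
    _ = (R.A * (cond s X.fr X).A) * (cond s ph 1 * cond xb ph 1) := by
        rw [M4.A_mul hX hE', h, M4.A_sm h1 h2, M4.A_mul hR hX', ph_cond]
    _ = R.A * (cond s ph 1 * X.A) * cond xb ph 1 := by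
        rw [cond_ph_A s hX]; simp only [mul_assoc]
    _ = _ := by simp only [mul_assoc]

lemma Cj_elA (k : Fin 3 × Bool × ZMod 12) : ∃ r, Cj (elA k) (elA (rep r)) := by
  obtain ⟨k, s, l⟩ := k
  obtain ⟨R, hR, rfl, rfl, rfl⟩ := table_complete k s l
  obtain ⟨h1, h2, h3, h4⟩ := table_ok R hR
  obtain ⟨hX, hmem⟩ := X_mem h1
  refine ⟨R.r, Cj.of_mul hmem ?_⟩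
  have e : elA (rep R.r) = (eM (rep R.r).1 (rep R.r).2.1 (rep R.r).2.2).A * cond R.s ph 1 := by
    rw [← h3]
    exact elA_eq _ _ _
  rw [e, elA_eq]
  exact conj_aux hX (eM_det _ _ _) (eM_det _ _ _) h4

lemma Cj_uA_one : Cj (uA 1) (elA (rep 11)) := by
  have h : rep 11 = (2, false, 0) := by decide
  rw [h, elA_eq]
  have hX : M4.det ⟨⟨1, 0⟩, ⟨0, 0⟩, ⟨2, 0⟩, ⟨3, 0⟩⟩ ^ 12 = cond false (-1) 1 := by decide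
  obtain ⟨h0, hmem⟩ := X_mem hX
  refine Cj.of_mul hmem ?_
  have hu : M4.det ⟨1, 1, 0, 1⟩ ≠ 0 := by simp [M4.det]
  have key := conj_aux (X := ⟨⟨1, 0⟩, ⟨0, 0⟩, ⟨2, 0⟩, ⟨3, 0⟩⟩) (E := ⟨1, 1, 0, 1⟩)
    (R := eM 2 false 0) h0 hu (eM_det _ _ _) (xb := false) (s := false) (lam := ⟨2, 0⟩)
    (by decide)
  rw [A_u, cond_false, mul_one, mul_one] at key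
  rw [cond_false, mul_one, mul_one]
  exact key

end Pool.Agent.Lib_helper3
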