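import Mathlib
import Pool.Agent.Lib_helper3.Classes

open Matrix

namespace Pool.Agent.Lib_helper3

open F25

/-- The elements of the torus of the small group. -/
def MH (a : MulAut PSL25) : Prop := ∃ s l, a = rH s * tA l

lemma rt' (s : Bool) (l : ZMod 12) : tA l * rH s = rH s * tA (kH s * l) := by
  rw [rH_tA, ← mul_assoc, kkH, one_mul]

lemma rH_rH (s s' : Bool) : ∃ s'' l, rH s * rH s' = rH s'' * tA l := by
  rcases s with _ | _
  · exact ⟨s', 0, by rw [tA_zero, mul_one]; exact one_mul _⟩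
  · rcases s' with _ | _
    · exact ⟨true, 0, by rw [tA_zero]; rfl⟩
    · exact ⟨false, 3, dlph_sq.trans (one_mul _).symm⟩

lemma MH.mul {a b : MulAut PSL25} (ha : MH a) (hb : MH b) : MH (a * b) := by
  obtain ⟨s, l, rfl⟩ := ha
  obtain ⟨s', l', rfl⟩ := hb
  obtain ⟨s'', l'', h⟩ := rH_rH s s'
  refine ⟨s'', l'' + kH s' * l + l', ?_⟩
  rw [mul_assoc (rH s), ← mul_assoc (tA l), rt', tA_add, tA_add, ← mul_assoc, ← mul_assoc, h]
  simp only [mul_assoc]

lemma MH_tA (l : ZMod 12) : MH (tA l) := ⟨false, l, (one_mul _).symm⟩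

lemma MH_rH (s : Bool) : MH (rH s) := ⟨s, 0, by rw [tA_zero, mul_one]⟩

lemma tA_inv (l : ZMod 12) : (tA l)⁻¹ = tA (-l) := by
  refine inv_eq_of_mul_eq_one_left ?_
  rw [← tA_add, neg_add_cancel, tA_zero]

lemma MH.inv {a : MulAut PSL25} (ha : MH a) : MH a⁻¹ := by
  obtain ⟨s, l, rfl⟩ := ha
  rw [_root_.mul_inv_rev, tA_inv]
  refine (MH_tA _).mul ?_
  rcases s with _ | _
  · exact ⟨false, 0, by
      change (1 : MulAut PSL25)⁻¹ = 1 * tA 0
      rw [tA_zero, inv_one, one_mul]⟩
  · refine ⟨true, -3, inv_eq_of_mul_eq_one_right ?_⟩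
    change (dl * ph) * ((dl * ph) * tA (-3)) = 1
    rw [← mul_assoc, dlph_sq, ← tA_add]
    have : (3 : ZMod 12) + -3 = 0 := by decide
    rw [this, tA_zero]

lemma wA_dl : wA * dl = dl * tA (-1) * wA := by
  rw [dl, wA_mA om_ne]
  congr 1
  have h : om⁻¹ = om * tt (-1) := by
    rw [tt_neg, ← om_sq]
    have := om_ne
    field_simp
  rw [h, mA_om_tt]
  rfl

lemma MH.conj_w {a : MulAut PSL25} (ha : MH a) : MH (wA * a * wA) := by
  obtain ⟨s, l, rfl⟩ := ha
  have h1 : wA * (rH s * tA l) * wA = (wA * rH s * wA) * (wA * tA l * wA) := by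
    have : (wA * rH s * wA) * (wA * tA l * wA) = wA * rH s * (wA * wA) * tA l * wA := by
      simp only [mul_assoc]
    rw [this, wA_wA]
    simp only [mul_assoc, mul_one]
  rw [h1]
  refine MH.mul ?_ ?_
  · rcases s with _ | _
    · refine ⟨false, 0, ?_⟩
      change wA * 1 * wA = 1 * tA 0
      rw [mul_one, wA_wA, tA_zero, one_mul]
    · refine ⟨true, -5, ?_⟩
      change wA * (dl * ph) * wA = dl * ph * tA (-5)
      rw [← mul_assoc, wA_dl, mul_assoc (dl * tA (-1) * wA), ph_wA, ← mul_assoc,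
        mul_assoc (dl * tA (-1)), wA_wA, mul_one, mul_assoc, tA_ph, ← mul_assoc]
      congr 1
  · rw [wA_tA, mul_assoc, wA_wA, mul_one]
    exact MH_tA _

lemma MH.mem {a : MulAut PSL25} (ha : MH a) : a ∈ HH := by
  obtain ⟨s, l, rfl⟩ := ha
  exact HH.mul_mem (rH_mem s) (tA_mem_HH l)

lemma m_uA (s : Bool) (l : ZMod 12) (y : F25) :
    rH s * tA l * uA y = uA (rhoH s (tt l * y)) * (rH s * tA l) := by
  rw [mul_assoc, tA_uA, ← mul_assoc, rH_uA, mul_assoc]

set_option maxRecDepth 1000000 in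
lemma exists_to_one : ∀ z : F25, z ≠ 0 → ∃ s l, rhoH s (tt l * z) = 1 := by decide

set_option maxRecDepth 1000000 in
lemma no_fixed : ∀ (s : Bool) (l : ZMod 12), ¬ (s = false ∧ l = 0) →
    ∀ y : F25, rhoH s (tt l * y) = y → y = 0 := by decide

lemma rhoH_add (s : Bool) (x y : F25) : rhoH s (x + y) = rhoH s x + rhoH s y := by
  rcases s with _ | _
  · rfl
  · simp only [rhoH, cond_true, map_add, mul_add]

lemma exists_shift (s : Bool) (l : ZMod 12) (h : ¬ (s = false ∧ l = 0)) (x : F25) :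
    ∃ y : F25, y + x = rhoH s (tt l * y) := by
  have hinj : Function.Injective fun y : F25 => rhoH s (tt l * y) - y := by
    intro y y' hy
    have h1 : rhoH s (tt l * (y - y')) = y - y' := by
      have h2 : rhoH s (tt l * y) = rhoH s (tt l * (y - y')) + rhoH s (tt l * y') := by
        rw [← rhoH_add]; congr 1; ring
      simp only at hy
      linear_combination hy - h2
    exact sub_eq_zero.1 (no_fixed s l h _ h1)
  obtain ⟨y, hy⟩ := Finite.surjective_of_injective hinj x
  exact ⟨y, by simp only at hy; linear_combination -hy⟩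

/-- Every element of the small group is conjugate to one of the fifteen representatives. -/
lemma Cj_rep (a : MulAut PSL25) (ha : a ∈ HH) : ∃ r, Cj a (elA (rep r)) := by
  rcases bruhatH a ha with ⟨x, s, l, rfl⟩ | ⟨x, s, l, y, rfl⟩
  · by_cases h : s = false ∧ l = 0
    · obtain ⟨rfl, rfl⟩ := h
      have h1 : uA x * rH false * tA 0 = uA x := by
        rw [tA_zero, mul_one]; exact mul_one _
      rw [h1]
      by_cases hx : x = 0
      · obtain ⟨r, hr⟩ := Cj_elA (0, false, 0)
        refine ⟨r, ?_⟩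
        have h2 : uA x = elA (0, false, 0) := by
          rw [hx, uA_zero]
          change 1 = 1 * 1 * tA 0
          rw [tA_zero, mul_one, mul_one]
        rw [h2]
        exact hr
      · refine ⟨11, Cj.trans ?_ Cj_uA_one⟩
        obtain ⟨s, l, hsl⟩ := exists_to_one x hx
        refine Cj.of_mul (MH.mem ⟨s, l, rfl⟩) ?_
        rw [m_uA, hsl]
    · obtain ⟨y, hy⟩ := exists_shift s l h x
      obtain ⟨r, hr⟩ := Cj_elA (0, s, l)
      refine ⟨r, Cj.trans ?_ hr⟩
      have h2 : elA (0, s, l) = rH s * tA l := by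
        change 1 * rH s * tA l = _
        rw [one_mul]
      rw [h2]
      refine Cj.of_mul (uA_mem_HH y) ?_
      rw [m_uA, ← hy, uA_add, mul_assoc, mul_assoc]
  · have h1 : Cj (uA x * wA * rH s * tA l * uA y) (uA (y + x) * wA * (rH s * tA l)) := by
      refine Cj.of_mul (uA_mem_HH y) ?_
      rw [uA_add]
      simp only [mul_assoc]
    by_cases hz : y + x = 0
    · obtain ⟨r, hr⟩ := Cj_elA (1, s, l)
      refine ⟨r, h1.trans ?_⟩
      have h2 : uA (y + x) * wA * (rH s * tA l) = elA (1, s, l) := by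
        rw [hz, uA_zero, one_mul, ← mul_assoc]
        rfl
      rw [h2]
      exact hr
    · obtain ⟨s', l', hsl⟩ := exists_to_one _ hz
      have hn : MH (rH s' * tA l') := ⟨s', l', rfl⟩
      obtain ⟨n, hndef⟩ : ∃ n, n = rH s' * tA l' := ⟨_, rfl⟩
      rw [← hndef] at hn
      have hm : MH (rH s * tA l) := ⟨s, l, rfl⟩
      obtain ⟨m, hmdef⟩ : ∃ m, m = rH s * tA l := ⟨_, rfl⟩
      rw [← hmdef] at hm h1
      obtain ⟨s2, l2, h2⟩ := (hn.conj_w.mul hm).mul hn.inv
      obtain ⟨r, hr⟩ := Cj_elA (2, s2, l2)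
      refine ⟨r, (h1.trans ?_).trans hr⟩
      have h3 : elA (2, s2, l2) = uA 1 * wA * (wA * n * wA * m * n⁻¹) := by
        rw [h2]
        change uA 1 * wA * rH s2 * tA l2 = _
        simp only [mul_assoc]
      rw [h3]
      refine Cj.of_mul hn.mem ?_
      have h4 : n * uA (y + x) = uA 1 * n := by
        rw [hndef, m_uA, hsl]
      have h5 : uA 1 * wA * (wA * n * wA * m * n⁻¹) * n
          = uA 1 * (wA * wA) * n * wA * m * (n⁻¹ * n) := by simp only [mul_assoc]
      rw [h5, wA_wA, inv_mul_cancel, mul_one, mul_one, ← h4]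
      simp only [mul_assoc]

/-- The representatives, as elements of the small group. -/
noncomputable def repH (r : Fin 15) : HH := ⟨elA (rep r), by
  refine HH.mul_mem (HH.mul_mem ?_ (rH_mem _)) (tA_mem_HH _)
  generalize (rep r).1 = k
  fin_cases k
  · exact HH.one_mem
  · exact wA_mem_HH
  · exact HH.mul_mem (uA_mem_HH 1) wA_mem_HH⟩

lemma classes_HH (g : HH) : ∃ k x, g = x * repH k * x⁻¹ := by
  obtain ⟨r, x, hx, h⟩ := Cj_rep g.1 g.2
  exact ⟨r, ⟨x, hx⟩, Subtype.ext h⟩

theorem cd_HH : WD.cd HH = {1, 25, 26, 48, 52} :=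
  (BH.cd_small ps_primitive card_F25 rfl KCond_H le_rfl repH classes_HH).1

theorem cd_KK : WD.cd KK = {1, 25, 26, 48, 52} :=
  BK.cd_big ps_primitive card_F25 rfl KCond_K CK BH (Subgroup.inclusion HH_le_KK)
    (fun _ => rfl) (fun _ => rfl)
    (BH.cd_small ps_primitive card_F25 rfl KCond_H le_rfl repH classes_HH).2

end Pool.Agent.Lib_helper3
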